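import Pool.Agent.Y940.CT.Prob2
/-!
# Thresholds inside random sets
-/

set_option autoImplicit false

open Finset Filter MeasureTheory ProbabilityTheory

namespace Pool.Agent.Y940.CT

open Pool.Agent.Y940.RS (pairs mem_pairs rep rep_finite rep_mono two_mul_le_rep rset)

theorem seg_card_sq {B : Set ℕ} {K : ℕ} (h : ∀ s, rep B s ≤ K) (M : ℕ) :
    (seg B M).card ^ 2 ≤ K * (2 * M + 1) := by
  classical
  rw [sq, ← card_product, ← card_range (2 * M + 1)]
  refine card_le_mul_card_image_of_maps_to (f := fun x : ℕ × ℕ => x.1 + x.2) ?_ K ?_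
  · intro x hx
    rw [mem_product] at hx
    have h1 := (mem_Icc.1 (mem_filter.1 hx.1).1).2
    have h2 := (mem_Icc.1 (mem_filter.1 hx.2).1).2
    rw [mem_range]
    omega
  · intro σ _
    refine le_trans ?_ (h σ)
    rw [← Set.ncard_coe_finset]
    refine Set.ncard_le_ncard ?_ (rep_finite B σ)
    intro x hx
    rw [mem_coe, mem_filter, mem_product] at hx
    exact ⟨(mem_filter.1 hx.1.1).2, (mem_filter.1 hx.1.2).2, hx.2⟩

theorem count_le_sqrt {B : Set ℕ} {K : ℕ} (h : ∀ s, rep B s ≤ K) (M : ℕ) :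
    count B M ≤ Real.sqrt (K * (2 * M + 1)) := by
  rw [count_eq]
  refine Real.le_sqrt_of_sq_le ?_
  exact_mod_cast seg_card_sq h M

theorem count_split (B : Set ℕ) (M N : ℕ) :
    count B N ≤ count B M + ((seg B N).filter fun n => M < n).card := by
  classical
  rw [count_eq, count_eq]
  have h1 := card_filter_add_card_filter_not (s := seg B N) (fun n => M < n)
  have h2 : ((seg B N).filter fun n => ¬ M < n).card ≤ (seg B M).card := by
    refine card_le_card fun n hn => ?_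
    rw [mem_filter] at hn
    unfold seg at hn ⊢
    rw [mem_filter, mem_Icc] at hn ⊢
    exact ⟨⟨hn.1.1.1, by omega⟩, hn.1.2⟩
  have h3 : ((seg B N).card : ℝ) = ((seg B N).filter fun n => M < n).card +
      ((seg B N).filter fun n => ¬ M < n).card := by exact_mod_cast h1.symm
  have h4 : (((seg B N).filter fun n => ¬ M < n).card : ℝ) ≤ (seg B M).card := by
    exact_mod_cast h2
  linarith

/-- The basic bound for all subsets. -/
theorem ae_subsets (K : ℕ) : ∃ C : ℝ, 0 < C ∧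
    ∀ {Ω : Type*} [MeasurableSpace Ω] (μ : Measure Ω) [IsProbabilityMeasure μ] (E : ℕ → Set Ω)
      (p : ℕ → ℝ), Sub μ E p → ∀ (M : ℕ → ℕ) (ϖ : ℕ → ℝ),
      (∀ᶠ N : ℕ in atTop, (N : ℝ) ^ (-(1 / (4 * ((K : ℝ) + 1)))) ≤ ϖ N ∧ ϖ N ≤ 1 / 3 ∧
        ∀ n, M N < n → n ≤ N → p n ≤ ϖ N) →
      ∀ᵐ ω ∂μ, ∀ B : Set ℕ, B ⊆ rset E ω → (∀ s, rep B s ≤ K) →
        ∀ᶠ N : ℕ in atTop, count B N ≤
          Real.sqrt (K * (2 * M N + 1)) + C * Real.sqrt (ϖ N * N) := by
  classical
  obtain ⟨C, hC, hae⟩ := rae_bound (K + 1) (by omega)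
  refine ⟨C, hC, ?_⟩
  intro Ω _ μ _ E p hE M ϖ hev
  have hev' : ∀ᶠ N : ℕ in atTop, (N : ℝ) ^ (-(1 / (4 * ((K + 1 : ℕ) : ℝ)))) ≤ ϖ N ∧
      ϖ N ≤ 1 / 3 ∧ ∀ n, M N < n → n ≤ N → p n ≤ ϖ N := by
    push_cast
    exact hev
  filter_upwards [hae μ E p hE M ϖ hev'] with ω hω B hB hK
  filter_upwards [hω] with N hN
  have h1 := hN ((seg B N).filter fun n => M N < n) (fun n hn => by
    rw [mem_filter] at hn
    obtain ⟨h2, h3⟩ := hn
    unfold seg at h2
    rw [mem_filter, mem_Icc] at h2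
    exact ⟨h3, h2.1.2, hB h2.2⟩) (free_mono (filter_subset _ _) (free_seg hK N))
  have h2 := count_split B (M N) N
  have h3 := count_le_sqrt hK (M N)
  linarith

/-- **A function `g` forces unbounded representations inside a random set with
`g ^ 2 p → 0`.** -/
theorem forces_inside {Ω : Type*} [MeasurableSpace Ω] {μ : Measure Ω} [IsProbabilityMeasure μ]
    {E : ℕ → Set Ω} {p : ℕ → ℝ} (hE : Sub μ E p) {g : ℕ → ℝ} (hg : Tendsto g atTop atTop)
    (hg2 : ∀ η : ℝ, 0 < η → ∀ᶠ N : ℕ in atTop, g N ≤ (N : ℝ) ^ η)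
    (hgp : ∀ ε : ℝ, 0 < ε → ∀ᶠ N : ℕ in atTop, ∀ n : ℕ, n ≤ N → (N : ℝ) ≤ n * g N ^ 3 →
      p n * g N ^ 2 ≤ ε) :
    ∀ᵐ ω ∂μ, ∀ B : Set ℕ, B ⊆ rset E ω → ∀ c : ℝ, 0 < c →
      (∃ᶠ N : ℕ in atTop, c * Real.sqrt N ≤ g N * count B N) → ∀ K, ∃ n, K < rep B n := by
  classical
  have key : ∀ K j : ℕ, ∀ᵐ ω ∂μ, ∀ B : Set ℕ, B ⊆ rset E ω → (∀ s, rep B s ≤ K) →
      ∀ᶠ N : ℕ in atTop, g N * count B N < 1 / ((j : ℝ) + 1) * Real.sqrt N := by
    intro K j
    obtain ⟨C, hC, hae⟩ := ae_subsets K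
    set d : ℝ := 1 / ((j : ℝ) + 1) with hd
    have hd0 : 0 < d := by positivity
    set a : ℝ := d / (4 * C) with ha
    have ha0 : 0 < a := by positivity
    set κ : ℝ := 1 / (4 * ((K : ℝ) + 1)) with hκ
    have hκ0 : 0 < κ := by positivity
    set M : ℕ → ℕ := fun N => ⌊(N : ℝ) / g N ^ 3⌋₊ with hM
    set ϖ : ℕ → ℝ := fun N => max (a ^ 2 / g N ^ 2) ((N : ℝ) ^ (-κ)) with hϖ
    have hlim1 : Tendsto (fun N : ℕ => (N : ℝ) ^ (-κ)) atTop (nhds 0) :=
      (tendsto_rpow_neg_atTop hκ0).comp tendsto_natCast_atTop_atTop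
    have hlim2 : Tendsto (fun N : ℕ => a ^ 2 / g N ^ 2) atTop (nhds 0) := by
      refine Tendsto.div_atTop tendsto_const_nhds ?_
      exact (tendsto_pow_atTop (by norm_num)).comp hg
    have h1 := hae μ E p hE M ϖ ?_
    · filter_upwards [h1] with ω hω B hB hK
      have hsqrtg : Tendsto (fun N => Real.sqrt (g N)) atTop atTop :=
        Real.tendsto_sqrt_atTop.comp hg
      filter_upwards [hω B hB hK, hg.eventually_ge_atTop 1, hg2 (κ / 4) (by positivity),
        hg2 (1 / 3) (by norm_num), eventually_ge_atTop 1,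
        hsqrtg.eventually_gt_atTop (4 * Real.sqrt (3 * K) / d),
        hlim1.eventually (Iio_mem_nhds (show (0 : ℝ) < a ^ 4 by positivity))]
        with N hN1 hN2 hN3 hN4 hN5 hN6 hN7
      have hNr : (1 : ℝ) ≤ N := by exact_mod_cast hN5
      have hN0 : (0 : ℝ) < N := by linarith
      have hg0 : 0 < g N := by linarith
      have hsN : 0 < Real.sqrt N := Real.sqrt_pos.2 hN0
      have hg3 : g N ^ 3 ≤ N := by
        calc g N ^ 3 ≤ ((N : ℝ) ^ (1 / 3 : ℝ)) ^ 3 := pow_le_pow_left₀ hg0.le hN4 3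
          _ = N := by
              rw [← Real.rpow_natCast, ← Real.rpow_mul hN0.le]
              norm_num
      -- the initial part
      have hMle : (M N : ℝ) ≤ N / g N ^ 3 := Nat.floor_le (by positivity)
      have hone : 1 ≤ (N : ℝ) / g N ^ 3 := by
        rw [one_le_div (by positivity)]
        exact hg3
      have hA : g N * Real.sqrt (K * (2 * M N + 1)) < d / 2 * Real.sqrt N := by
        have h2 : Real.sqrt (K * (2 * M N + 1)) ≤ Real.sqrt (3 * K) * Real.sqrt (N / g N ^ 3) := by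
          rw [← Real.sqrt_mul (by positivity)]
          refine Real.sqrt_le_sqrt ?_
          have : (K : ℝ) * (2 * M N + 1) ≤ K * (3 * (N / g N ^ 3)) :=
            mul_le_mul_of_nonneg_left (by linarith) (Nat.cast_nonneg K)
          linarith
        have h3 : Real.sqrt (N / g N ^ 3) * (g N * Real.sqrt (g N)) = Real.sqrt N := by
          have h4 : g N * Real.sqrt (g N) = Real.sqrt (g N ^ 3) := by
            have : g N ^ 3 = g N ^ 2 * g N := by ring
            rw [this, Real.sqrt_mul (by positivity), Real.sqrt_sq hg0.le]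
          rw [h4, ← Real.sqrt_mul (by positivity)]
          congr 1
          field_simp
        have hsg : 0 < Real.sqrt (g N) := Real.sqrt_pos.2 hg0
        rw [div_lt_iff₀ hd0] at hN6
        have h5 : g N * Real.sqrt (K * (2 * M N + 1)) * Real.sqrt (g N) ≤
            Real.sqrt (3 * K) * Real.sqrt N := by
          calc g N * Real.sqrt (K * (2 * M N + 1)) * Real.sqrt (g N)
              ≤ g N * (Real.sqrt (3 * K) * Real.sqrt (N / g N ^ 3)) * Real.sqrt (g N) := by
                gcongr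
            _ = Real.sqrt (3 * K) * (Real.sqrt (N / g N ^ 3) * (g N * Real.sqrt (g N))) := by ring
            _ = _ := by rw [h3]
        have h6 : Real.sqrt (3 * K) * Real.sqrt N < (d / 2 * Real.sqrt N) * Real.sqrt (g N) := by
          have h7 : Real.sqrt (3 * K) < d / 2 * Real.sqrt (g N) := by
            have : 0 ≤ Real.sqrt (3 * K) := Real.sqrt_nonneg _
            have h8 : 0 < Real.sqrt (g N) * d := by positivity
            linarith
          calc Real.sqrt (3 * K) * Real.sqrt N < (d / 2 * Real.sqrt (g N)) * Real.sqrt N :=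
                mul_lt_mul_of_pos_right h7 hsN
            _ = _ := by ring
        exact lt_of_mul_lt_mul_right (lt_of_le_of_lt h5 h6) hsg.le
      -- the main part
      have hBd : g N * (C * Real.sqrt (ϖ N * N)) ≤ d / 4 * Real.sqrt N := by
        have h2 : g N * Real.sqrt (ϖ N) ≤ a := by
          have h3 : g N ^ 2 * ϖ N ≤ a ^ 2 := by
            rcases max_cases (a ^ 2 / g N ^ 2) ((N : ℝ) ^ (-κ)) with ⟨h4, _⟩ | ⟨h4, _⟩
            · have : ϖ N = a ^ 2 / g N ^ 2 := h4
              rw [this]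
              field_simp
              exact le_rfl
            · have h5 : ϖ N = (N : ℝ) ^ (-κ) := h4
              rw [h5]
              have h6 : g N ^ 2 ≤ (N : ℝ) ^ (κ / 2) := by
                calc g N ^ 2 ≤ ((N : ℝ) ^ (κ / 4)) ^ 2 := pow_le_pow_left₀ hg0.le hN3 2
                  _ = (N : ℝ) ^ (κ / 2) := by
                      rw [← Real.rpow_natCast, ← Real.rpow_mul hN0.le]
                      congr 1
                      push_cast
                      ring
              have h7 : (N : ℝ) ^ (κ / 2) * (N : ℝ) ^ (-κ) = Real.sqrt ((N : ℝ) ^ (-κ)) := by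
                rw [← Real.rpow_add hN0, Real.sqrt_eq_rpow, ← Real.rpow_mul hN0.le]
                congr 1
                ring
              have h8 : Real.sqrt ((N : ℝ) ^ (-κ)) ≤ a ^ 2 := by
                rw [Real.sqrt_le_left (by positivity)]
                have h9 : (N : ℝ) ^ (-κ) < a ^ 4 := hN7
                calc (N : ℝ) ^ (-κ) ≤ a ^ 4 := h9.le
                  _ = (a ^ 2) ^ 2 := by ring
              calc g N ^ 2 * (N : ℝ) ^ (-κ) ≤ (N : ℝ) ^ (κ / 2) * (N : ℝ) ^ (-κ) :=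
                    mul_le_mul_of_nonneg_right h6 (by positivity)
                _ ≤ a ^ 2 := by rw [h7]; exact h8
          have h10 : g N * Real.sqrt (ϖ N) = Real.sqrt (g N ^ 2 * ϖ N) := by
            rw [Real.sqrt_mul (by positivity), Real.sqrt_sq hg0.le]
          rw [h10, Real.sqrt_le_left ha0.le]
          exact h3
        have hϖ0 : 0 ≤ ϖ N := le_trans (by positivity) (le_max_right _ _)
        rw [Real.sqrt_mul hϖ0]
        calc g N * (C * (Real.sqrt (ϖ N) * Real.sqrt N))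
            = C * (g N * Real.sqrt (ϖ N)) * Real.sqrt N := by ring
          _ ≤ C * a * Real.sqrt N := by gcongr
          _ = d / 4 * Real.sqrt N := by
              rw [ha]
              field_simp
      have h11 : g N * count B N ≤ g N * Real.sqrt (K * (2 * M N + 1)) +
          g N * (C * Real.sqrt (ϖ N * N)) := by
        rw [← mul_add]
        exact mul_le_mul_of_nonneg_left hN1 hg0.le
      have h12 : 0 < d * Real.sqrt N := by positivity
      linarith
    · filter_upwards [hgp (a ^ 2) (by positivity), hg.eventually_ge_atTop 1,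
        hlim1.eventually (Iic_mem_nhds (show (0 : ℝ) < 1 / 3 by norm_num)),
        hlim2.eventually (Iic_mem_nhds (show (0 : ℝ) < 1 / 3 by norm_num))] with N h2 h3 h4 h5
      refine ⟨le_max_right _ _, max_le h5 h4, fun n hn1 hn2 => ?_⟩
      have hg0 : 0 < g N := by linarith
      have h6 : (N : ℝ) ≤ n * g N ^ 3 := by
        have h7 : (N : ℝ) / g N ^ 3 < n := by
          have h8 := Nat.lt_floor_add_one ((N : ℝ) / g N ^ 3)
          have h9 : ((⌊(N : ℝ) / g N ^ 3⌋₊ : ℕ) : ℝ) + 1 ≤ n := by exact_mod_cast hn1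
          linarith
        rw [div_lt_iff₀ (by positivity)] at h7
        exact h7.le
      have h7 := h2 n hn2 h6
      refine le_trans ?_ (le_max_left _ _)
      rw [le_div_iff₀ (by positivity)]
      exact h7
  have key2 : ∀ᵐ ω ∂μ, ∀ K j : ℕ, ∀ B : Set ℕ, B ⊆ rset E ω → (∀ s, rep B s ≤ K) →
      ∀ᶠ N : ℕ in atTop, g N * count B N < 1 / ((j : ℝ) + 1) * Real.sqrt N :=
    ae_all_iff.2 fun K => ae_all_iff.2 fun j => key K j
  filter_upwards [key2] with ω hω B hB c hc hfreq K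
  by_contra hcon
  push Not at hcon
  obtain ⟨j, hj⟩ := exists_nat_one_div_lt hc
  obtain ⟨N, h1, h2⟩ := (hfreq.and_eventually (hω K j B hB hcon)).exists
  have h3 : 1 / ((j : ℝ) + 1) * Real.sqrt N ≤ c * Real.sqrt N :=
    mul_le_mul_of_nonneg_right hj.le (Real.sqrt_nonneg _)
  linarith

/-- For every sequence of probabilities which tends to zero there is a function `g → ∞` which
satisfies the hypotheses of the theorem. -/
theorem exists_g {p : ℕ → ℝ} (hp : Tendsto p atTop (nhds 0)) :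
    ∃ g : ℕ → ℝ, Tendsto g atTop atTop ∧
      (∀ η : ℝ, 0 < η → ∀ᶠ N : ℕ in atTop, g N ≤ (N : ℝ) ^ η) ∧
      ∀ ε : ℝ, 0 < ε → ∀ᶠ N : ℕ in atTop, ∀ n : ℕ, n ≤ N → (N : ℝ) ≤ n * g N ^ 3 →
        p n * g N ^ 2 ≤ ε := by
  classical
  set Q : ℕ → ℕ → Prop := fun N j => ∀ n : ℕ, Real.sqrt N ≤ n → p n * (j : ℝ) ^ 3 ≤ 1 with hQ
  set g : ℕ → ℕ := fun N => Nat.findGreatest (Q N) (Nat.log 2 N) with hg
  have hsqrt : Tendsto (fun N : ℕ => Real.sqrt N) atTop atTop :=
    Real.tendsto_sqrt_atTop.comp tendsto_natCast_atTop_atTop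
  have hlog : Tendsto (fun N : ℕ => Nat.log 2 N) atTop atTop := by
    refine tendsto_atTop_atTop.2 fun b => ⟨2 ^ b, fun N hN => ?_⟩
    exact Nat.le_log_of_pow_le (by norm_num) hN
  have htop : Tendsto g atTop atTop := by
    refine tendsto_atTop.2 fun j => ?_
    have h1 : ∀ᶠ n : ℕ in atTop, p n ≤ 1 / ((j : ℝ) ^ 3 + 1) :=
      (hp.eventually (Iio_mem_nhds (show (0 : ℝ) < 1 / ((j : ℝ) ^ 3 + 1) by positivity))).mono
        fun n hn => le_of_lt hn
    obtain ⟨n₀, hn₀⟩ := eventually_atTop.1 h1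
    filter_upwards [hlog.eventually_ge_atTop j, hsqrt.eventually_ge_atTop (n₀ : ℝ)] with N h2 h3
    refine Nat.le_findGreatest h2 ?_
    intro n hn
    have h4 : n₀ ≤ n := by exact_mod_cast h3.trans hn
    have h5 := hn₀ n h4
    rw [le_div_iff₀ (by positivity)] at h5
    by_cases hpn : 0 ≤ p n
    · nlinarith
    · push Not at hpn
      have : 0 ≤ (j : ℝ) ^ 3 := by positivity
      nlinarith
  have hspec : ∀ N, 1 ≤ g N → Q N (g N) := by
    intro N hN
    exact Nat.findGreatest_of_ne_zero rfl (by omega)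
  have hle : ∀ N, g N ≤ Nat.log 2 N := fun N => Nat.findGreatest_le _
  have hsmall : ∀ η : ℝ, 0 < η → ∀ᶠ N : ℕ in atTop, (g N : ℝ) ≤ (N : ℝ) ^ η := by
    intro η hη
    have h1 : ∀ᶠ x : ℝ in atTop, Real.log x ≤ (Real.log 2) * x ^ η := by
      have h2 := (isLittleO_log_rpow_atTop hη).bound (Real.log_pos one_lt_two)
      filter_upwards [h2, eventually_ge_atTop 1] with x h3 h4
      rw [Real.norm_of_nonneg (Real.log_nonneg h4),
        Real.norm_of_nonneg (by positivity)] at h3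
      exact h3
    filter_upwards [tendsto_natCast_atTop_atTop.eventually h1, eventually_ge_atTop 1] with N h2 h3
    have h4 : ((Nat.log 2 N : ℕ) : ℝ) ≤ Real.log N / Real.log 2 := by
      have h5 : (2 : ℝ) ^ Nat.log 2 N ≤ N := by
        exact_mod_cast Nat.pow_log_le_self 2 (by omega)
      have h6 := Real.log_le_log (by positivity) h5
      rw [Real.log_pow] at h6
      rw [le_div_iff₀ (Real.log_pos one_lt_two)]
      exact h6
    calc (g N : ℝ) ≤ ((Nat.log 2 N : ℕ) : ℝ) := by exact_mod_cast hle N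
      _ ≤ Real.log N / Real.log 2 := h4
      _ ≤ (N : ℝ) ^ η := by
          rw [div_le_iff₀ (Real.log_pos one_lt_two)]
          linarith
  refine ⟨fun N => (g N : ℝ), tendsto_natCast_atTop_atTop.comp htop, hsmall, ?_⟩
  intro ε hε
  have hgtop : Tendsto (fun N => (g N : ℝ)) atTop atTop := tendsto_natCast_atTop_atTop.comp htop
  filter_upwards [hgtop.eventually_ge_atTop (max 1 (1 / ε)), hsmall (1 / 6) (by norm_num),
    eventually_ge_atTop 1] with N h1 h2 h3 n hn hn2
  have hg1 : (1 : ℝ) ≤ g N := (le_max_left _ _).trans h1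
  have hgε : 1 / ε ≤ g N := (le_max_right _ _).trans h1
  have hN0 : (0 : ℝ) < N := by exact_mod_cast (by omega : 0 < N)
  have h4 : (g N : ℝ) ^ 3 ≤ Real.sqrt N := by
    calc (g N : ℝ) ^ 3 ≤ ((N : ℝ) ^ (1 / 6 : ℝ)) ^ 3 := pow_le_pow_left₀ (by linarith) h2 3
      _ = Real.sqrt N := by
          rw [← Real.rpow_natCast, ← Real.rpow_mul hN0.le, Real.sqrt_eq_rpow]
          norm_num
  have hsN : 0 < Real.sqrt N := Real.sqrt_pos.2 hN0
  have h5 : Real.sqrt N ≤ n := by
    have h6 : (N : ℝ) ≤ n * Real.sqrt N :=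
      hn2.trans (mul_le_mul_of_nonneg_left h4 (Nat.cast_nonneg n))
    have h7 : Real.sqrt N * Real.sqrt N = N := Real.mul_self_sqrt hN0.le
    have h8 : Real.sqrt N * Real.sqrt N ≤ n * Real.sqrt N := by rw [h7]; exact h6
    exact le_of_mul_le_mul_right h8 hsN
  have h6 := hspec N (by exact_mod_cast hg1) n h5
  have h7 : 1 ≤ ε * g N := by
    rw [div_le_iff₀ hε] at hgε
    linarith
  have hg0 : (0 : ℝ) < g N := by linarith
  have h8 : (p n * (g N : ℝ) ^ 2) * g N ≤ ε * g N := by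
    calc (p n * (g N : ℝ) ^ 2) * g N = p n * (g N : ℝ) ^ 3 := by ring
      _ ≤ 1 := h6
      _ ≤ ε * g N := h7
  exact le_of_mul_le_mul_right h8 hg0

/-- **Power saving for polynomially decaying probabilities.** -/
theorem power_saving (K : ℕ) (δ : ℝ) (hδ : 0 < δ) : ∃ κ : ℝ, 0 < κ ∧
    ∀ {Ω : Type*} [MeasurableSpace Ω] (μ : Measure Ω) [IsProbabilityMeasure μ] (E : ℕ → Set Ω)
      (p : ℕ → ℝ), Sub μ E p → (∀ᶠ n : ℕ in atTop, p n ≤ (n : ℝ) ^ (-δ)) →
      ∀ᵐ ω ∂μ, ∀ B : Set ℕ, B ⊆ rset E ω → (∀ s, rep B s ≤ K) →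
        ∀ᶠ N : ℕ in atTop, count B N ≤ (N : ℝ) ^ (1 / 2 - κ) := by
  classical
  obtain ⟨C, hC, hae⟩ := ae_subsets K
  set κ₀ : ℝ := min (δ / 2) (1 / (4 * ((K : ℝ) + 1))) with hκ₀
  have hκ₀0 : 0 < κ₀ := lt_min (by positivity) (by positivity)
  have hκ₀1 : κ₀ ≤ 1 / 4 := by
    refine (min_le_right _ _).trans ?_
    rw [div_le_div_iff₀ (by positivity) (by norm_num)]
    have : (0 : ℝ) ≤ K := Nat.cast_nonneg K
    linarith
  refine ⟨κ₀ / 4, by positivity, ?_⟩
  intro Ω _ μ _ E p hE hp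
  obtain ⟨n₀, hn₀⟩ := eventually_atTop.1 hp
  have hlim : Tendsto (fun N : ℕ => (N : ℝ) ^ (-κ₀)) atTop (nhds 0) :=
    (tendsto_rpow_neg_atTop hκ₀0).comp tendsto_natCast_atTop_atTop
  have hlim2 : Tendsto (fun N : ℕ => (N : ℝ) ^ (κ₀ / 4)) atTop atTop :=
    (tendsto_rpow_atTop (by positivity)).comp tendsto_natCast_atTop_atTop
  have h1 := hae μ E p hE (fun N => Nat.sqrt N) (fun N => (N : ℝ) ^ (-κ₀)) ?_
  · filter_upwards [h1] with ω hω B hB hK
    filter_upwards [hω B hB hK, eventually_ge_atTop 1,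
      hlim2.eventually_ge_atTop (Real.sqrt (3 * K) + C)] with N hN1 hN2 hN3
    have hNr : (1 : ℝ) ≤ N := by exact_mod_cast hN2
    have hN0 : (0 : ℝ) < N := by linarith
    have hM : ((Nat.sqrt N : ℕ) : ℝ) ≤ Real.sqrt N := Real.nat_sqrt_le_real_sqrt
    have hs1 : 1 ≤ Real.sqrt N := Real.one_le_sqrt.2 hNr
    have h2 : Real.sqrt (K * (2 * ((Nat.sqrt N : ℕ) : ℝ) + 1)) ≤
        Real.sqrt (3 * K) * (N : ℝ) ^ (1 / 2 - κ₀ / 2) := by
      have h3 : Real.sqrt (K * (2 * ((Nat.sqrt N : ℕ) : ℝ) + 1)) ≤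
          Real.sqrt (3 * K) * Real.sqrt (Real.sqrt N) := by
        rw [← Real.sqrt_mul (by positivity)]
        refine Real.sqrt_le_sqrt ?_
        have : (K : ℝ) * (2 * ((Nat.sqrt N : ℕ) : ℝ) + 1) ≤ K * (3 * Real.sqrt N) :=
          mul_le_mul_of_nonneg_left (by linarith) (Nat.cast_nonneg K)
        linarith
      refine h3.trans ?_
      refine mul_le_mul_of_nonneg_left ?_ (Real.sqrt_nonneg _)
      rw [Real.sqrt_eq_rpow, Real.sqrt_eq_rpow, ← Real.rpow_mul hN0.le]
      exact Real.rpow_le_rpow_of_exponent_le hNr (by linarith)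
    have h4 : Real.sqrt ((N : ℝ) ^ (-κ₀) * N) = (N : ℝ) ^ (1 / 2 - κ₀ / 2) := by
      rw [Real.sqrt_eq_rpow]
      nth_rewrite 2 [← Real.rpow_one (N : ℝ)]
      rw [← Real.rpow_add hN0, ← Real.rpow_mul hN0.le]
      congr 1
      ring
    rw [h4] at hN1
    have h5 : (N : ℝ) ^ (1 / 2 - κ₀ / 4) = (N : ℝ) ^ (κ₀ / 4) * (N : ℝ) ^ (1 / 2 - κ₀ / 2) := by
      rw [← Real.rpow_add hN0]
      congr 1
      ring
    rw [h5]
    calc count B N ≤ Real.sqrt (3 * K) * (N : ℝ) ^ (1 / 2 - κ₀ / 2) +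
          C * (N : ℝ) ^ (1 / 2 - κ₀ / 2) := by linarith
      _ = (Real.sqrt (3 * K) + C) * (N : ℝ) ^ (1 / 2 - κ₀ / 2) := by ring
      _ ≤ _ := mul_le_mul_of_nonneg_right hN3 (by positivity)
  · filter_upwards [hlim.eventually (Iic_mem_nhds (show (0 : ℝ) < 1 / 3 by norm_num)),
      eventually_ge_atTop (n₀ ^ 2 + 1)] with N h2 h3
    have hN1 : 1 ≤ N := by omega
    have hNr : (1 : ℝ) ≤ N := by exact_mod_cast hN1
    have hN0 : (0 : ℝ) < N := by linarith
    refine ⟨?_, h2, fun n hn1 hn2 => ?_⟩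
    · refine Real.rpow_le_rpow_of_exponent_le hNr ?_
      have := min_le_right (δ / 2) (1 / (4 * ((K : ℝ) + 1)))
      linarith
    · have h4 : n₀ ≤ n := by
        have h5 : n₀ ≤ Nat.sqrt N := by
          rw [Nat.le_sqrt']
          omega
        omega
      refine (hn₀ n h4).trans ?_
      have h6 : Real.sqrt N ≤ n := by
        have h7 : N < n ^ 2 := by
          have h8 : Nat.sqrt N < n := hn1
          rw [Nat.sqrt_lt'] at h8
          exact h8
        rw [Real.sqrt_le_left (by positivity)]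
        exact_mod_cast h7.le
      have hs0 : 0 < Real.sqrt N := Real.sqrt_pos.2 hN0
      calc (n : ℝ) ^ (-δ) ≤ (Real.sqrt N) ^ (-δ) :=
            Real.rpow_le_rpow_of_nonpos hs0 h6 (by linarith)
        _ = (N : ℝ) ^ (-(δ / 2)) := by
            rw [Real.sqrt_eq_rpow, ← Real.rpow_mul hN0.le]
            congr 1
            ring
        _ ≤ (N : ℝ) ^ (-κ₀) := by
            refine Real.rpow_le_rpow_of_exponent_le hNr ?_
            have := min_le_left (δ / 2) (1 / (4 * ((K : ℝ) + 1)))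
            linarith

end Pool.Agent.Y940.CT
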