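import Pool.Agent.Y940.CT.Prob
import Pool.Agent.Y940.RS.Basis
/-!
# The hypotheses of the two questions; the random set itself is a basis
-/

set_option autoImplicit false

open Finset Filter MeasureTheory ProbabilityTheory

namespace Pool.Agent.Y940.CT

open Pool.Agent.Y940.RS

theorem q2_thick (B : Set ℕ) (hB : B.Infinite) (C : ℕ)
    (hC : ∀ n ≥ 1, Nat.nth (fun a => a ∈ B) (n - 1) ≤ C * n ^ 2) :
    ∃ c : ℝ, 0 < c ∧ ∀ᶠ N : ℕ in atTop, c * Real.sqrt N ≤ count B N := by
  classical
  refine ⟨1 / (2 * Real.sqrt (4 * (C + 1))), by positivity, ?_⟩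
  filter_upwards [eventually_ge_atTop (16 * (C + 1))] with x hx
  set n : ℕ := Nat.sqrt (x / (C + 1)) with hn
  have hn2 : n ^ 2 * (C + 1) ≤ x := by
    have h1 : n ^ 2 ≤ x / (C + 1) := by rw [hn, sq]; exact Nat.sqrt_le _
    calc n ^ 2 * (C + 1) ≤ x / (C + 1) * (C + 1) := Nat.mul_le_mul_right _ h1
      _ ≤ x := Nat.div_mul_le_self _ _
  have hn4 : 4 ≤ n := by
    rw [hn, Nat.le_sqrt, Nat.le_div_iff_mul_le (by omega)]
    linarith
  have hmono : StrictMono (Nat.nth fun a => a ∈ B) := Nat.nth_strictMono hB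
  have hcard : n - 1 ≤ (seg B x).card := by
    have : (Ico 1 n).card ≤ (seg B x).card := by
      refine card_le_card_of_injOn (fun i => Nat.nth (fun a => a ∈ B) i) ?_ ?_
      · intro i hi
        have hi := mem_Ico.1 (mem_coe.1 hi)
        refine mem_coe.2 ?_
        have h1 : Nat.nth (fun a => a ∈ B) i ≤ Nat.nth (fun a => a ∈ B) (n - 1) :=
          (Nat.nth_monotone hB) (by omega)
        have h2 := hC n (by omega)
        have h3 : C * n ^ 2 ≤ x := by nlinarith
        have h4 : i ≤ Nat.nth (fun a => a ∈ B) i := hmono.le_apply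
        unfold seg
        rw [mem_filter, mem_Icc]
        simp only
        exact ⟨⟨by omega, by omega⟩, Nat.nth_mem_of_infinite hB i⟩
      · exact (Nat.nth_injective hB).injOn
    simpa using this
  have h5 : Real.sqrt (x : ℝ) ≤ Real.sqrt (4 * (C + 1)) * n := by
    rw [Real.sqrt_le_left (by positivity), mul_pow, Real.sq_sqrt (by positivity)]
    have h6 : x < (C + 1) * (n + 1) ^ 2 := by
      have h7 : x / (C + 1) < (n + 1) ^ 2 := by
        have := Nat.lt_succ_sqrt (x / (C + 1))
        rw [sq, hn]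
        exact this
      rw [Nat.div_lt_iff_lt_mul (by omega)] at h7
      linarith
    have h8 : (n + 1) ^ 2 ≤ 4 * n ^ 2 := by nlinarith
    have h9 : x ≤ (C + 1) * (4 * n ^ 2) := h6.le.trans (Nat.mul_le_mul_left _ h8)
    have h10 : (x : ℝ) ≤ ((C + 1) * (4 * n ^ 2) : ℕ) := by exact_mod_cast h9
    refine h10.trans (le_of_eq ?_)
    push_cast
    ring
  rw [count_eq]
  have h11 : ((n : ℝ) / 2) ≤ (seg B x).card := by
    have h12 : ((n - 1 : ℕ) : ℝ) ≤ (seg B x).card := by exact_mod_cast hcard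
    rw [Nat.cast_sub (by omega)] at h12
    have h13 : (4 : ℝ) ≤ n := by exact_mod_cast hn4
    push_cast at h12
    linarith
  have hs0 : 0 < Real.sqrt (4 * ((C : ℝ) + 1)) := Real.sqrt_pos.2 (by positivity)
  refine le_trans ?_ h11
  rw [div_mul_eq_mul_div, one_mul, div_le_div_iff₀ (by positivity) (by norm_num)]
  linarith

theorem basis_thick (B : Set ℕ) (hB : ∀ᶠ n in atTop, 1 ≤ rep B n) :
    ∃ c : ℝ, 0 < c ∧ ∀ᶠ N : ℕ in atTop, c * Real.sqrt N ≤ count B N := by
  classical
  obtain ⟨n₀, hn₀⟩ := eventually_atTop.1 hB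
  refine ⟨1 / 2, by norm_num, ?_⟩
  filter_upwards [eventually_ge_atTop (2 * n₀ + 25)] with N hN
  set F : Finset ℕ := insert 0 (seg B N) with hF
  have h1 : Icc n₀ N ⊆ (F ×ˢ F).image fun x => x.1 + x.2 := by
    intro n hn
    obtain ⟨hn1, hn2⟩ := mem_Icc.1 hn
    have h2 := hn₀ n hn1
    unfold rep at h2
    obtain ⟨⟨a, b⟩, ha, hb, hab⟩ := (Set.ncard_pos (rep_finite B n)).1 h2
    simp only at ha hb hab
    have key : ∀ a, a ∈ B → a ≤ N → a ∈ F := by
      intro a ha haN
      rw [hF, mem_insert]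
      rcases Nat.eq_zero_or_pos a with h | h
      · exact Or.inl h
      · right
        unfold seg
        rw [mem_filter, mem_Icc]
        exact ⟨⟨h, haN⟩, ha⟩
    rw [mem_image]
    exact ⟨(a, b), mem_product.2 ⟨key a ha (by omega), key b hb (by omega)⟩, hab⟩
  have h2 : (Icc n₀ N).card ≤ F.card * F.card := by
    refine (card_le_card h1).trans (card_image_le.trans ?_)
    rw [card_product]
  rw [Nat.card_Icc] at h2
  have h3 : F.card ≤ (seg B N).card + 1 := card_insert_le _ _
  have h4 : N + 1 - n₀ ≤ ((seg B N).card + 1) * ((seg B N).card + 1) :=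
    h2.trans (Nat.mul_le_mul h3 h3)
  rw [count_eq]
  have h5 : ((N + 1 - n₀ : ℕ) : ℝ) ≤ (((seg B N).card : ℝ) + 1) ^ 2 := by
    rw [sq]
    exact_mod_cast h4
  rw [Nat.cast_sub (by omega)] at h5
  push_cast at h5
  have h6 : (2 * (n₀ : ℝ) + 25) ≤ N := by exact_mod_cast hN
  have h7 : (0 : ℝ) ≤ n₀ := Nat.cast_nonneg _
  by_contra h8
  push Not at h8
  have h9 : Real.sqrt N * Real.sqrt N = N := Real.mul_self_sqrt (by linarith)
  have h10 : 5 ≤ Real.sqrt N := by
    rw [show (5 : ℝ) = Real.sqrt 25 by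
      rw [show (25 : ℝ) = 5 ^ 2 by norm_num, Real.sqrt_sq (by norm_num)]]
    exact Real.sqrt_le_sqrt (by linarith)
  have h11 : (0 : ℝ) ≤ (seg B N).card := Nat.cast_nonneg _
  have h12 : (((seg B N).card : ℝ) + 1) ^ 2 ≤ (1 / 2 * Real.sqrt N + 1) ^ 2 :=
    pow_le_pow_left₀ (by linarith) (by linarith) 2
  nlinarith

variable {Ω : Type*} [MeasurableSpace Ω]

/-- A random set with independent membership and probabilities at least `n ^ (-1/8)` is almost
surely an asymptotic basis. -/
theorem ae_basis {μ : Measure Ω} [IsProbabilityMeasure μ] {E : ℕ → Set Ω}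
    (hm : ∀ n, MeasurableSet (E n)) (h : iIndepSet E μ)
    (hp : ∀ᶠ n : ℕ in atTop, (n : ℝ) ^ (-(1 / 8 : ℝ)) ≤ μ.real (E n)) :
    ∀ᵐ ω ∂μ, ∀ᶠ n in atTop, 1 ≤ rep (rset E ω) n := by
  classical
  obtain ⟨n₀, hn₀⟩ := eventually_atTop.1 hp
  set s : ℕ → Set Ω := fun n => {ω | rep (rset E ω) n = 0} with hs
  have hev : ∀ᶠ n : ℕ in atTop, μ (s n) ≤ ENNReal.ofReal (24 * (1 / (n : ℝ) ^ 2)) := by
    have hlim : Tendsto (fun n : ℕ => (n : ℝ) ^ (1 / 4 : ℝ)) atTop atTop :=
      (tendsto_rpow_atTop (by norm_num)).comp tendsto_natCast_atTop_atTop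
    filter_upwards [eventually_ge_atTop (8 * n₀ + 16), hlim.eventually_ge_atTop 4] with n hn hn2
    rw [ENNReal.le_ofReal_iff_toReal_le (measure_ne_top _ _) (by positivity)]
    refine le_trans ?_ (exp_sqrt_le (by omega))
    set T : Finset ℕ := (range n).filter fun a => n₀ < a ∧ 2 * a < n with hT
    set W : ℕ → Finset ℕ := fun a => if a ∈ T then {a, n - a} else ∅ with hW
    have hmemT : ∀ a, a ∈ T ↔ n₀ < a ∧ 2 * a < n := by
      intro a
      rw [hT, mem_filter, mem_range]
      constructor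
      · rintro ⟨_, h1⟩
        exact h1
      · rintro ⟨h1, h2⟩
        exact ⟨by omega, h1, h2⟩
    have hWdisj : ∀ a b : ℕ, a ≠ b → Disjoint (W a) (W b) := by
      intro a b hab
      simp only [hW]
      split_ifs with h1 h2
      · rw [hmemT] at h1 h2
        rw [disjoint_left]
        intro v hv1 hv2
        rw [mem_insert, mem_singleton] at hv1 hv2
        omega
      · exact disjoint_empty_right _
      · exact disjoint_empty_left _
      · exact disjoint_empty_left _
    set X : ℕ → Set Ω := fun a => ⋂ v ∈ W a, E v with hX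
    have hXm : ∀ a, MeasurableSet (X a) := fun a => Finset.measurableSet_biInter _ fun v _ => hm v
    have hXi : iIndepSet X μ := indep_blocks hm h W hWdisj
    have hYi : iIndepSet (fun a => (X a)ᶜ) μ := indep_compl hXm hXi
    have hsub : s n ⊆ ⋂ a ∈ T, (X a)ᶜ := by
      intro ω hω
      rw [Set.mem_iInter₂]
      intro a ha hXa
      rw [hs] at hω
      have h0 : rep (rset E ω) n = 0 := hω
      unfold rep at h0
      rw [Set.ncard_eq_zero (rep_finite _ _)] at h0
      rw [hX] at hXa
      simp only at hXa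
      rw [Set.mem_iInter₂] at hXa
      have hWa : W a = {a, n - a} := by
        simp only [hW]
        rw [if_pos ha]
      have h1 := hXa a (by rw [hWa]; simp)
      have h2 := hXa (n - a) (by rw [hWa]; simp)
      have h3 := (hmemT a).1 ha
      have h4 : (a, n - a) ∈ {x : ℕ × ℕ | x.1 ∈ rset E ω ∧ x.2 ∈ rset E ω ∧ x.1 + x.2 = n} :=
        ⟨h1, h2, by simp only; omega⟩
      rw [h0] at h4
      exact h4
    have hn1 : (1 : ℝ) ≤ n := by exact_mod_cast (by omega : 1 ≤ n)
    have hXa : ∀ a ∈ T, 1 - μ.real (X a) ≤ Real.exp (-((n : ℝ) ^ (-(1 / 4 : ℝ)))) := by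
      intro a ha
      have h3 := (hmemT a).1 ha
      have hWa : W a = {a, n - a} := by
        simp only [hW]
        rw [if_pos ha]
      have h4 : μ.real (X a) = μ.real (E a) * μ.real (E (n - a)) := by
        have h5 : μ.real (X a) = ∏ v ∈ W a, μ.real (E v) :=
          (KW.of_indep hm h (W a).card).2 _ le_rfl
        rw [h5, hWa, prod_pair (by omega)]
      have h6 : ∀ b : ℕ, n₀ ≤ b → 0 < b → b ≤ n → (n : ℝ) ^ (-(1 / 8 : ℝ)) ≤ μ.real (E b) := by
        intro b hb hb0 hbn
        refine le_trans ?_ (hn₀ b hb)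
        refine Real.rpow_le_rpow_of_nonpos (by exact_mod_cast hb0) (by exact_mod_cast hbn)
          (by norm_num)
      have h7 : (n : ℝ) ^ (-(1 / 4 : ℝ)) ≤ μ.real (X a) := by
        rw [h4]
        calc (n : ℝ) ^ (-(1 / 4 : ℝ)) = (n : ℝ) ^ (-(1 / 8 : ℝ)) * (n : ℝ) ^ (-(1 / 8 : ℝ)) := by
              rw [← Real.rpow_add (by linarith)]
              norm_num
          _ ≤ μ.real (E a) * μ.real (E (n - a)) :=
              mul_le_mul (h6 a (by omega) (by omega) (by omega))
                (h6 (n - a) (by omega) (by omega) (by omega)) (by positivity) measureReal_nonneg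
      have h8 := Real.add_one_le_exp (-((n : ℝ) ^ (-(1 / 4 : ℝ))))
      linarith
    have hprod : μ.real (⋂ a ∈ T, (X a)ᶜ) ≤ Real.exp (-Real.sqrt n) := by
      have h1 : μ.real (⋂ a ∈ T, (X a)ᶜ) = ∏ a ∈ T, (1 - μ.real (X a)) := by
        rw [measureReal_def, hYi.meas_biInter, ENNReal.toReal_prod]
        refine prod_congr rfl fun a _ => ?_
        rw [← probReal_compl_eq_one_sub (μ := μ) (hXm a)]
        rfl
      rw [h1]
      calc ∏ a ∈ T, (1 - μ.real (X a)) ≤ ∏ _a ∈ T, Real.exp (-((n : ℝ) ^ (-(1 / 4 : ℝ)))) := by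
            refine prod_le_prod (fun a _ => ?_) hXa
            have : μ.real (X a) ≤ 1 := measureReal_le_one
            linarith
        _ = Real.exp (T.card * -((n : ℝ) ^ (-(1 / 4 : ℝ)))) := by
            rw [prod_const, ← Real.exp_nat_mul]
        _ ≤ Real.exp (-Real.sqrt n) := by
            refine Real.exp_le_exp.2 ?_
            have h2 : (n : ℝ) / 4 ≤ T.card := by
              have h3 : Ico (n₀ + 1) (n / 2) ⊆ T := by
                intro a ha
                rw [mem_Ico] at ha
                rw [hmemT]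
                omega
              have h4 := card_le_card h3
              rw [Nat.card_Ico] at h4
              have h5 : n ≤ 4 * T.card := by omega
              have h6 : (n : ℝ) ≤ 4 * T.card := by exact_mod_cast h5
              linarith
            have h3 : Real.sqrt n ≤ T.card * (n : ℝ) ^ (-(1 / 4 : ℝ)) := by
              have h0 : 0 < (n : ℝ) := by linarith
              have hq : 0 < (n : ℝ) ^ (-(1 / 4 : ℝ)) := by positivity
              calc Real.sqrt n = (n : ℝ) ^ (1 / 2 : ℝ) := Real.sqrt_eq_rpow _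
                _ = 1 / 4 * (4 * (n : ℝ) ^ (1 / 2 : ℝ)) := by ring
                _ ≤ 1 / 4 * ((n : ℝ) ^ (1 / 4 : ℝ) * (n : ℝ) ^ (1 / 2 : ℝ)) := by
                    refine mul_le_mul_of_nonneg_left ?_ (by norm_num)
                    exact mul_le_mul_of_nonneg_right hn2 (by positivity)
                _ = (n : ℝ) / 4 * (n : ℝ) ^ (-(1 / 4 : ℝ)) := by
                    have e : (n : ℝ) * (n : ℝ) ^ (-(1 / 4 : ℝ)) =
                        (n : ℝ) ^ ((1 / 4 : ℝ) + (1 / 2 : ℝ)) := by
                      calc (n : ℝ) * (n : ℝ) ^ (-(1 / 4 : ℝ))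
                          = (n : ℝ) ^ (1 : ℝ) * (n : ℝ) ^ (-(1 / 4 : ℝ)) := by
                            rw [Real.rpow_one]
                        _ = (n : ℝ) ^ ((1 : ℝ) + -(1 / 4 : ℝ)) := (Real.rpow_add h0 _ _).symm
                        _ = _ := by norm_num
                    rw [← Real.rpow_add h0, ← e]
                    ring
                _ ≤ _ := mul_le_mul_of_nonneg_right h2 hq.le
            linarith
    exact (measureReal_mono hsub (measure_ne_top _ _)).trans hprod
  obtain ⟨N₀, hN₀⟩ := eventually_atTop.1 hev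
  set s' : ℕ → Set Ω := fun n => if N₀ ≤ n then s n else ∅ with hs'
  have hle : ∀ n, μ (s' n) ≤ ENNReal.ofReal (24 * (1 / (n : ℝ) ^ 2)) := by
    intro n
    rw [hs']
    simp only
    split_ifs with h1
    · exact hN₀ n h1
    · simp
  have hfin : ∑' n, μ (s' n) ≠ ⊤ := by
    have h1 : Summable fun N : ℕ => 24 * (1 / (N : ℝ) ^ 2) :=
      (Real.summable_one_div_nat_pow.2 (by norm_num)).mul_left 24
    exact ne_top_of_le_ne_top h1.tsum_ofReal_ne_top (ENNReal.tsum_le_tsum hle)
  filter_upwards [ae_eventually_notMem hfin] with ω hω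
  filter_upwards [hω, eventually_ge_atTop N₀] with n h1 h2
  rw [hs'] at h1
  simp only at h1
  rw [if_pos h2] at h1
  by_contra h3
  exact h1 (by rw [hs]; exact (by omega : rep (rset E ω) n = 0))

end Pool.Agent.Y940.CT
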