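import Pool.Agent.Y940.CT.Iter
/-!
# Containers with weighted fingerprints
-/

set_option autoImplicit false

open Finset

namespace Pool.Agent.Y940.CT

/-- The sets with property `P` which contain `F` are covered by containers `(T, C)`,
`T ⊆ I ⊆ T ∪ C`, with fingerprints `T ⊇ F` of total weight at most `n` and `|C| ≤ γ`. -/
def RCov (ρ : ℝ) (F : Finset ℕ) (P : Finset ℕ → Prop) (U : Finset ℕ) (n γ : ℝ) : Prop :=
  ∃ (ι : Type) (s : Finset ι) (T C : ι → Finset ℕ),
    (∑ i ∈ s, ρ ^ (T i \ F).card ≤ n) ∧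
    (∀ i ∈ s, F ⊆ T i ∧ T i ⊆ F ∪ U ∧ C i ⊆ U ∧ Disjoint (T i) (C i) ∧ ((C i).card : ℝ) ≤ γ) ∧
    ∀ I, F ⊆ I → P I → ∃ i ∈ s, T i ⊆ I ∧ I ⊆ T i ∪ C i

theorem RCov.mono {ρ : ℝ} {F : Finset ℕ} {P P' : Finset ℕ → Prop} {U : Finset ℕ} {n n' γ γ' : ℝ}
    (h : RCov ρ F P U n γ) (hP : ∀ I, F ⊆ I → P' I → P I) (hn : n ≤ n') (hγ : γ ≤ γ') :
    RCov ρ F P' U n' γ' := by
  obtain ⟨ι, s, T, C, h1, h2, h3⟩ := h
  exact ⟨ι, s, T, C, h1.trans hn, fun i hi => ⟨(h2 i hi).1, (h2 i hi).2.1, (h2 i hi).2.2.1,
    (h2 i hi).2.2.2.1, (h2 i hi).2.2.2.2.trans hγ⟩, fun I hF hI => h3 I hF (hP I hF hI)⟩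

theorem RCov.union {ρ : ℝ} {F : Finset ℕ} {P P' : Finset ℕ → Prop} {U : Finset ℕ} {n n' γ : ℝ}
    (h : RCov ρ F P U n γ) (h' : RCov ρ F P' U n' γ) :
    RCov ρ F (fun I => P I ∨ P' I) U (n + n') γ := by
  classical
  obtain ⟨ι, s, T, C, h1, h2, h3⟩ := h
  obtain ⟨ι', s', T', C', h1', h2', h3'⟩ := h'
  refine ⟨ι ⊕ ι', s.disjSum s', Sum.elim T T', Sum.elim C C', ?_, ?_, ?_⟩
  · rw [sum_disjSum]
    exact add_le_add h1 h1'
  · intro i hi
    rcases i with i | i
    · exact h2 i (by simpa using hi)
    · exact h2' i (by simpa using hi)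
  · rintro I hF (hI | hI)
    · obtain ⟨i, hi, hI2⟩ := h3 I hF hI
      exact ⟨Sum.inl i, by simpa using hi, hI2⟩
    · obtain ⟨i, hi, hI2⟩ := h3' I hF hI
      exact ⟨Sum.inr i, by simpa using hi, hI2⟩

theorem RCov.one {ρ : ℝ} {F : Finset ℕ} {P : Finset ℕ → Prop} {U C : Finset ℕ} {γ : ℝ}
    (hC : C ⊆ U) (hFC : Disjoint F C) (hγ : (C.card : ℝ) ≤ γ)
    (hP : ∀ I, F ⊆ I → P I → I ⊆ F ∪ C) : RCov ρ F P U 1 γ := by
  refine ⟨Unit, {()}, fun _ => F, fun _ => C, by simp, ?_, ?_⟩
  · intro i _
    exact ⟨Subset.refl F, subset_union_left, hC, hFC, hγ⟩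
  · intro I hF hI
    exact ⟨(), mem_singleton_self _, hF, hP I hF hI⟩

theorem RCov.insert {ρ : ℝ} {F : Finset ℕ} {P : Finset ℕ → Prop} {U : Finset ℕ} {n γ : ℝ} {v : ℕ}
    (hρ : 0 ≤ ρ) (hv : v ∉ F) (hvU : v ∈ U) (h : RCov ρ (insert v F) P U n γ) :
    RCov ρ F (fun I => v ∈ I ∧ P I) U (ρ * n) γ := by
  classical
  obtain ⟨ι, s, T, C, h1, h2, h3⟩ := h
  refine ⟨ι, s, T, C, ?_, ?_, ?_⟩
  · refine le_trans (le_of_eq ?_) (mul_le_mul_of_nonneg_left h1 hρ)
    rw [mul_sum]
    refine sum_congr rfl fun i hi => ?_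
    have h4 : T i \ F = Insert.insert v (T i \ Insert.insert v F) := by
      ext x
      simp only [mem_sdiff, mem_insert, not_or]
      constructor
      · rintro ⟨h5, h6⟩
        by_cases hx : x = v
        · exact Or.inl hx
        · exact Or.inr ⟨h5, hx, h6⟩
      · rintro (rfl | ⟨h5, _, h6⟩)
        · exact ⟨(h2 i hi).1 (mem_insert_self _ _), hv⟩
        · exact ⟨h5, h6⟩
    rw [h4, card_insert_of_notMem (by simp), pow_succ, mul_comm]
  · intro i hi
    obtain ⟨h4, h5, h6⟩ := h2 i hi
    refine ⟨(subset_insert v F).trans h4, ?_, h6⟩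
    intro x hx
    rcases mem_union.1 (h5 hx) with h7 | h7
    · rcases mem_insert.1 h7 with rfl | h8
      · exact mem_union_right _ hvU
      · exact mem_union_left _ h8
    · exact mem_union_right _ h7
  · rintro I hF ⟨hvI, hI⟩
    exact h3 I (insert_subset hvI hF) hI

theorem RCov.comp {ρ : ℝ} {P : Finset ℕ → Prop} {U : Finset ℕ} {n n' γ γ' : ℝ}
    (hρ : 0 ≤ ρ) (hP : ∀ I J, J ⊆ I → P I → P J) (h : RCov ρ ∅ P U n γ) (hn' : 0 ≤ n')
    (h' : ∀ C, C ⊆ U → (C.card : ℝ) ≤ γ → RCov ρ ∅ (fun I => I ⊆ C ∧ P I) C n' γ') :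
    RCov ρ ∅ P U (n * n') γ' := by
  classical
  obtain ⟨ι, s, T, C, h1, h2, h3⟩ := h
  have h4 : ∀ i : {i // i ∈ s}, RCov ρ ∅ (fun I => I ⊆ C i.1 ∧ P I) (C i.1) n' γ' :=
    fun i => h' _ (h2 i.1 i.2).2.2.1 (h2 i.1 i.2).2.2.2.2
  choose κ s' T' C' g1 g2 g3 using h4
  refine ⟨Σ i : {i // i ∈ s}, κ i, s.attach.sigma s', fun x => T x.1.1 ∪ T' x.1 x.2,
    fun x => C' x.1 x.2, ?_, ?_, ?_⟩
  · rw [sum_sigma]
    have h5 : ∀ i ∈ s.attach, ∑ j ∈ s' i, ρ ^ ((T i.1 ∪ T' i j) \ ∅).card ≤
        ρ ^ (T i.1 \ ∅).card * n' := by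
      intro i _
      refine le_trans (le_of_eq ?_) (mul_le_mul_of_nonneg_left (g1 i) (by positivity))
      rw [mul_sum]
      refine sum_congr rfl fun j hj => ?_
      have h6 : Disjoint (T i.1) (T' i j) := by
        have h7 := (g2 i j hj).2.1
        rw [empty_union] at h7
        exact disjoint_of_subset_right h7 (h2 i.1 i.2).2.2.2.1
      rw [sdiff_empty, sdiff_empty, sdiff_empty, card_union_of_disjoint h6, pow_add]
    refine (sum_le_sum h5).trans ?_
    rw [← sum_mul, sum_attach s (fun i => ρ ^ (T i \ ∅).card)]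
    exact mul_le_mul_of_nonneg_right h1 hn'
  · rintro ⟨i, j⟩ hij
    rw [mem_sigma] at hij
    obtain ⟨_, h5, h6, h7, _⟩ := h2 i.1 i.2
    obtain ⟨_, g5, g6, g7, g8⟩ := g2 i j hij.2
    rw [empty_union] at h5 g5
    simp only
    refine ⟨empty_subset _, ?_, g6.trans h6, ?_, g8⟩
    · rw [empty_union]
      exact union_subset h5 (g5.trans h6)
    · rw [disjoint_union_left]
      exact ⟨disjoint_of_subset_right g6 h7, g7⟩
  · intro I _ hI
    obtain ⟨i, hi, hTI, hIT⟩ := h3 I (empty_subset _) hI
    obtain ⟨j, hj, hTJ, hJT⟩ := g3 ⟨i, hi⟩ (I \ T i) (empty_subset _) ⟨fun x hx => by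
      rw [mem_sdiff] at hx
      rcases mem_union.1 (hIT hx.1) with h | h
      · exact absurd h hx.2
      · exact h, hP I _ sdiff_subset hI⟩
    refine ⟨⟨⟨i, hi⟩, j⟩, mem_sigma.2 ⟨mem_attach _ _, hj⟩, ?_, ?_⟩
    · exact union_subset hTI (hTJ.trans sdiff_subset)
    · intro x hx
      simp only
      by_cases hxT : x ∈ T i
      · exact mem_union_left _ (mem_union_left _ hxT)
      · rcases mem_union.1 (hJT (mem_sdiff.2 ⟨hx, hxT⟩)) with h | h
        · exact mem_union_left _ (mem_union_right _ h)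
        · exact mem_union_right _ h

/-- One phase of the algorithm with weighted fingerprints. -/
theorem rphase {U : Finset ℕ} {s : ℕ} {w : Finset ℕ → ℝ} {D K C τ ρ γ n : ℝ}
    (hw : Spread U (s + 1) w D K τ) (hD : 0 < D) (hK : 1 ≤ K) (hτ : 0 < τ)
    (hρ : τ ≤ ρ) {q : ℕ} (hq1 : U.card * τ ≤ q) (hq2 : (q : ℝ) ≤ 2 * τ * U.card)
    (hC : C = 2 ^ (s + 3) * K ^ 2)
    (hγ : (U.card : ℝ) - U.card / (2 * K) ≤ γ) (hn : 1 ≤ n)
    (IH : ∀ g, Spread U s g (τ * D / 4) (4 * (C + K)) τ →
      ∀ F, F ⊆ U → RCov ρ F (fun I => I ⊆ U ∧ Ind g I) U n γ) :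
    ∀ (a : ℕ) (A T : Finset ℕ) (g : Finset ℕ → ℝ) (q' t : ℕ), A.card = a → A ⊆ U → T ⊆ U →
      q' + t = q → (∀ f, 0 ≤ g f) → (∀ f, g f ≠ 0 → f ⊆ U ∧ f.card = s) →
      (t * (D / 4) ≤ ∑ f ∈ U.powerset, g f) → (∑ f ∈ U.powerset, g f ≤ t * (K * D)) →
      (∀ J : Finset ℕ, J.Nonempty → deg U g J ≤ (C + K) * D * τ ^ J.card) →
      RCov ρ T (fun I => I ⊆ A ∪ T ∧ Ind w I ∧ Ind g I) U ((ρ / τ) ^ q' * (1 + τ) ^ a * n) γ := by
  classical
  have hC0 : 0 < C := by
    rw [hC]
    positivity
  have hρ0 : 0 < ρ := hτ.trans_le hρ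
  have hinv : (1 : ℝ) ≤ ρ / τ := by
    rw [one_le_div hτ]
    exact hρ
  intro a
  induction a using Nat.strong_induction_on with
  | _ a ih =>
  intro A T g q' t hAa hA hT hqt hg0 hgs hgl hgu hgc
  have hone : (1 : ℝ) ≤ (ρ / τ) ^ q' * (1 + τ) ^ a :=
    one_le_mul_of_one_le_of_one_le (one_le_pow₀ hinv) (one_le_pow₀ (by linarith))
  rcases Nat.eq_zero_or_pos q' with hq0 | hq0
  · -- the new hypergraph is complete
    have ht : t = q := by omega
    have hsp : Spread U s g (τ * D / 4) (4 * (C + K)) τ := by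
      refine ⟨hg0, hgs, le_trans ?_ hgl, fun J hJ => ?_⟩
      · rw [ht]
        calc (U.card : ℝ) * (τ * D / 4) = (U.card * τ) * (D / 4) := by ring
          _ ≤ q * (D / 4) := mul_le_mul_of_nonneg_right hq1 (by positivity)
      · calc deg U g J * τ ≤ ((C + K) * D * τ ^ J.card) * τ :=
              mul_le_mul_of_nonneg_right (hgc J hJ) hτ.le
          _ = 4 * (C + K) * (τ * D / 4) * τ ^ J.card := by ring
    refine (IH g hsp T hT).mono ?_ (le_mul_of_one_le_left (by linarith) hone) le_rfl
    rintro I _ ⟨h1, _, h3⟩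
    exact ⟨h1.trans (union_subset hA hT), h3⟩
  · by_cases hst : ∀ v ∈ A, deg U (act U w g (C * D) τ A) {v} < D / 4
    · -- stalled
      have htq : (t : ℝ) ≤ q := by exact_mod_cast (by omega : t ≤ q)
      have h1 := stalled hw hA hD hK hτ hC hg0 hgs hgu (htq.trans hq2) hst
      refine (RCov.one (ρ := ρ) (F := T) (C := A \ T) (sdiff_subset.trans hA) disjoint_sdiff ?_
        (P := fun I => I ⊆ A ∪ T) (fun I _ hI => ?_)).mono (fun I _ hI => hI.1) ?_ le_rfl
      · have h2 : ((A \ T).card : ℝ) ≤ A.card := by exact_mod_cast card_le_card sdiff_subset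
        linarith
      · rw [union_sdiff_self_eq_union, union_comm]
        exact hI
      · exact one_le_mul_of_one_le_of_one_le hone hn
    · push Not at hst
      obtain ⟨v, hvA, hv⟩ := hst
      have hvU := hA hvA
      have hcardA : (A.erase v).card = a - 1 := by rw [card_erase_of_mem hvA, hAa]
      have ha1 : 1 ≤ a := by
        rw [← hAa]
        exact card_pos.2 ⟨v, hvA⟩
      have hlt : a - 1 < a := by omega
      -- the new state if `v` is in `I`
      set b := act U w g (C * D) τ A with hb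
      have hb0 : ∀ e, 0 ≤ b e := act_nonneg hw.nonneg
      have hbw : ∀ e, b e ≤ w e := act_le hw.nonneg
      set l : Finset ℕ → ℝ := fun f => if v ∉ f then b (Insert.insert v f) else 0 with hl
      have hl0 : ∀ f, 0 ≤ l f := fun f => by
        rw [hl]
        simp only
        by_cases h : v ∉ f
        · rw [if_pos h]
          exact hb0 _
        · rw [if_neg h]
      have hdl : ∀ J : Finset ℕ, v ∉ J → deg U l J = deg U b (Insert.insert v J) := by
        intro J hJ
        rw [← link_sum hvU hJ b]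
        rfl
      have hdl2 : ∀ J : Finset ℕ, v ∈ J → deg U l J = 0 := by
        intro J hJ
        unfold deg
        refine sum_eq_zero fun f _ => ?_
        split_ifs with h
        · rw [hl]
          simp only
          rw [if_neg (not_not.2 (h hJ))]
        · rfl
      have hdadd : ∀ J : Finset ℕ, deg U (fun f => g f + l f) J = deg U g J + deg U l J := by
        intro J
        unfold deg
        rw [← sum_add_distrib]
        refine sum_congr rfl fun f _ => ?_
        split_ifs <;> ring
      have hdw : ∀ J : Finset ℕ, J.Nonempty → deg U w J ≤ K * D * τ ^ J.card / τ := by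
        intro J hJ
        rw [le_div_iff₀ hτ]
        exact hw.codeg J hJ
      have htot : ∑ f ∈ U.powerset, l f = deg U b {v} := by
        have h1 : deg U l ∅ = deg U b (Insert.insert v ∅) := hdl ∅ (notMem_empty v)
        rw [insert_empty_eq] at h1
        rw [← h1]
        unfold deg
        refine sum_congr rfl fun f _ => ?_
        rw [if_pos (empty_subset f)]
      have hnew0 : ∀ f, 0 ≤ g f + l f := fun f => add_nonneg (hg0 f) (hl0 f)
      have hnews : ∀ f, g f + l f ≠ 0 → f ⊆ U ∧ f.card = s := by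
        intro f hf
        by_cases h1 : g f = 0
        · have h2 : l f ≠ 0 := by
            intro h3
            exact hf (by rw [h1, h3, add_zero])
          rw [hl] at h2
          simp only at h2
          by_cases h4 : v ∉ f
          · rw [if_pos h4] at h2
            obtain ⟨h5, h6, _⟩ := act_ne h2
            obtain ⟨h7, h8⟩ := hw.supp _ h5
            refine ⟨(subset_insert v f).trans h7, ?_⟩
            rw [card_insert_of_notMem h4] at h8
            omega
          · rw [if_neg h4] at h2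
            exact absurd rfl h2
        · exact hgs f h1
      have hnewl : ((t + 1 : ℕ) : ℝ) * (D / 4) ≤ ∑ f ∈ U.powerset, (g f + l f) := by
        rw [sum_add_distrib, htot]
        push_cast
        linarith
      have hnewu : ∑ f ∈ U.powerset, (g f + l f) ≤ ((t + 1 : ℕ) : ℝ) * (K * D) := by
        rw [sum_add_distrib, htot]
        have h1 : deg U b {v} ≤ deg U w {v} := deg_mono hbw _
        have h2 := hdw {v} (singleton_nonempty v)
        rw [card_singleton, pow_one, mul_div_assoc, div_self hτ.ne', mul_one] at h2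
        push_cast
        linarith
      have hnewc : ∀ J : Finset ℕ, J.Nonempty →
          deg U (fun f => g f + l f) J ≤ (C + K) * D * τ ^ J.card := by
        intro J hJ
        rw [hdadd J]
        by_cases hvJ : v ∈ J
        · rw [hdl2 J hvJ, add_zero]
          exact hgc J hJ
        · rw [hdl J hvJ]
          by_cases hsat : deg U g J < C * D * τ ^ J.card
          · have h1 : deg U b (Insert.insert v J) ≤ deg U w (Insert.insert v J) := deg_mono hbw _
            have h2 := hdw (Insert.insert v J) (insert_nonempty v J)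
            rw [card_insert_of_notMem hvJ, pow_succ, ← mul_assoc, mul_div_assoc, div_self hτ.ne',
              mul_one] at h2
            calc deg U g J + deg U b (Insert.insert v J)
                ≤ C * D * τ ^ J.card + K * D * τ ^ J.card := by
                  linarith
              _ = _ := by ring
          · have h3 : deg U b (Insert.insert v J) = 0 := by
              unfold deg
              refine sum_eq_zero fun e _ => ?_
              split_ifs with h
              · by_contra h5
                exact hsat ((act_ne h5).2.2 J ((subset_insert v J).trans h) hJ)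
              · rfl
            rw [h3, add_zero]
            exact hgc J hJ
      have hInd : ∀ I : Finset ℕ, v ∈ I → Ind w I → Ind g I → Ind (fun f => g f + l f) I := by
        intro I hvI h2 h3 f hf
        have h4 : l f = 0 := by
          rw [hl]
          simp only
          by_cases h : v ∉ f
          · rw [if_pos h]
            by_contra h5
            exact (act_ne h5).1 (h2 _ (insert_subset hvI hf))
          · rw [if_neg h]
        simp only
        rw [h3 f hf, h4, add_zero]
      obtain ⟨q2, hq2'⟩ : ∃ q2, q' = q2 + 1 := ⟨q' - 1, by omega⟩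
      obtain ⟨a2, ha2⟩ : ∃ a2, a = a2 + 1 := ⟨a - 1, by omega⟩
      by_cases hvT : v ∈ T
      · -- `v` is known to be in `I`
        have hR := ih (a - 1) hlt (A.erase v) T (fun f => g f + l f) (q' - 1) (t + 1)
          hcardA ((erase_subset v A).trans hA) hT (by omega) hnew0 hnews hnewl hnewu hnewc
        refine hR.mono ?_ ?_ le_rfl
        · rintro I hTI ⟨h1, h2, h3⟩
          refine ⟨?_, h2, hInd I (hTI hvT) h2 h3⟩
          intro x hx
          rcases mem_union.1 (h1 hx) with h | h
          · by_cases hxv : x = v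
            · rw [hxv]
              exact mem_union_right _ hvT
            · exact mem_union_left _ (mem_erase.2 ⟨hxv, h⟩)
          · exact mem_union_right _ h
        · subst hq2' ha2
          simp only [Nat.add_sub_cancel]
          rw [pow_succ, pow_succ]
          have h1 : 0 ≤ (ρ / τ) ^ q2 * (1 + τ) ^ a2 * n := by positivity
          have h2 : 1 ≤ (ρ / τ) * (1 + τ) :=
            one_le_mul_of_one_le_of_one_le hinv (by linarith)
          calc (ρ / τ) ^ q2 * (1 + τ) ^ a2 * n
              ≤ ((ρ / τ) ^ q2 * (1 + τ) ^ a2 * n) * ((ρ / τ) * (1 + τ)) :=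
                le_mul_of_one_le_right h1 h2
            _ = _ := by ring
      · -- two branches
        have hL := ih (a - 1) hlt (A.erase v) T g q' t hcardA ((erase_subset v A).trans hA) hT hqt
          hg0 hgs hgl hgu hgc
        have hR := ih (a - 1) hlt (A.erase v) (Insert.insert v T) (fun f => g f + l f) (q' - 1)
          (t + 1) hcardA ((erase_subset v A).trans hA) (insert_subset hvU hT) (by omega)
          hnew0 hnews hnewl hnewu hnewc
        have hR2 := RCov.insert hρ0.le hvT hvU hR
        refine (hL.union hR2).mono ?_ (le_of_eq ?_) le_rfl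
        · rintro I hTI ⟨h1, h2, h3⟩
          by_cases hvI : v ∈ I
          · right
            refine ⟨hvI, ?_, h2, hInd I hvI h2 h3⟩
            intro x hx
            rcases mem_union.1 (h1 hx) with h | h
            · by_cases hxv : x = v
              · rw [hxv]
                exact mem_union_right _ (mem_insert_self v T)
              · exact mem_union_left _ (mem_erase.2 ⟨hxv, h⟩)
            · exact mem_union_right _ (mem_insert_of_mem h)
          · left
            refine ⟨?_, h2, h3⟩
            intro x hx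
            rcases mem_union.1 (h1 hx) with h | h
            · refine mem_union_left _ (mem_erase.2 ⟨?_, h⟩)
              rintro rfl
              exact hvI hx
            · exact mem_union_right _ h
        · subst hq2' ha2
          simp only [Nat.add_sub_cancel]
          rw [pow_succ, pow_succ]
          field_simp

/-- **The container lemma with weighted fingerprints.** -/
theorem rcontainers (s : ℕ) (hs : 1 ≤ s) : ∀ K : ℝ, 1 ≤ K → ∃ δ : ℝ, 0 < δ ∧ δ ≤ 1 ∧
    ∀ (U : Finset ℕ) (w : Finset ℕ → ℝ) (D τ ρ : ℝ) (q : ℕ), 0 < D → 0 < τ → τ ≤ ρ →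
      U.card * τ ≤ q → (q : ℝ) ≤ 2 * τ * U.card → Spread U s w D K τ →
      ∀ F, F ⊆ U → RCov ρ F (fun I => I ⊆ U ∧ Ind w I) U
        (((ρ / τ) ^ q * (1 + τ) ^ U.card) ^ (s - 1)) ((1 - δ) * U.card) := by
  classical
  induction s, hs using Nat.le_induction with
  | base =>
    intro K hK
    refine ⟨1 / K, by positivity, ?_, ?_⟩
    · rw [div_le_one (by linarith)]
      exact hK
    intro U w D τ ρ q hD hτ _ _ _ hw F hF
    rw [Nat.sub_self, pow_zero]
    refine (RCov.one (ρ := ρ) (F := F) (C := (U.filter fun v => w {v} = 0) \ F)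
      (sdiff_subset.trans (filter_subset _ _)) disjoint_sdiff ?_ ?_).mono
      (P := fun I => I ⊆ U ∧ Ind w I) (fun I _ hI => hI) le_rfl le_rfl
    · have h1 : ∑ e ∈ U.powerset, w e ≤ ∑ v ∈ U.filter (fun v => ¬ w {v} = 0), deg U w {v} := by
        refine total_le_sum_deg hw.nonneg fun e he => ?_
        obtain ⟨h2, h3⟩ := hw.supp e he
        obtain ⟨x, rfl⟩ := card_eq_one.1 h3
        refine ⟨?_, singleton_nonempty x⟩
        rw [singleton_subset_iff, mem_filter]
        exact ⟨h2 (mem_singleton_self x), he⟩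
      have h2 : ∑ v ∈ U.filter (fun v => ¬ w {v} = 0), deg U w {v} ≤
          (U.filter (fun v => ¬ w {v} = 0)).card * (K * D) := by
        rw [← nsmul_eq_mul, ← sum_const]
        refine sum_le_sum fun v _ => ?_
        have := hw.codeg {v} (singleton_nonempty v)
        rw [card_singleton, pow_one] at this
        exact le_of_mul_le_mul_right this hτ
      have h3 : ((U.filter fun v => w {v} = 0).card : ℝ) +
          (U.filter (fun v => ¬ w {v} = 0)).card = U.card := by
        exact_mod_cast card_filter_add_card_filter_not (s := U) (fun v => w {v} = 0)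
      have h4 : (U.card : ℝ) * D ≤ ((U.filter (fun v => ¬ w {v} = 0)).card * K) * D := by
        have := hw.total
        linarith
      have h5 := le_of_mul_le_mul_right h4 hD
      have h6 : (U.card : ℝ) / K ≤ (U.filter (fun v => ¬ w {v} = 0)).card := by
        rw [div_le_iff₀ (by linarith)]
        exact h5
      have h7 : (1 - 1 / K) * U.card = (U.card : ℝ) - U.card / K := by ring
      have h8 : (((U.filter fun v => w {v} = 0) \ F).card : ℝ) ≤
          (U.filter fun v => w {v} = 0).card := by exact_mod_cast card_le_card sdiff_subset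
      rw [h7]
      linarith
    · rintro I hFI ⟨h1, h2⟩ v hv
      rw [union_sdiff_self_eq_union, mem_union]
      right
      rw [mem_filter]
      exact ⟨h1 hv, h2 {v} (singleton_subset_iff.2 hv)⟩
  | succ s hs ih =>
    intro K hK
    set C : ℝ := 2 ^ (s + 3) * K ^ 2 with hC
    have hC0 : 0 < C := by positivity
    obtain ⟨δ, hδ0, hδ1, hmain⟩ := ih (4 * (C + K)) (by linarith)
    refine ⟨min δ (1 / (2 * K)), lt_min hδ0 (by positivity), (min_le_left _ _).trans hδ1, ?_⟩
    intro U w D τ ρ q hD hτ hτρ hq1 hq2 hw F hF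
    have hU0 : (0 : ℝ) ≤ U.card := Nat.cast_nonneg _
    have hinv : (1 : ℝ) ≤ ρ / τ := by
      rw [one_le_div hτ]
      exact hτρ
    set n : ℝ := ((ρ / τ) ^ q * (1 + τ) ^ U.card) ^ (s - 1) with hn
    have hbase : 1 ≤ (ρ / τ) ^ q * (1 + τ) ^ U.card :=
      one_le_mul_of_one_le_of_one_le (one_le_pow₀ hinv) (one_le_pow₀ (by linarith))
    have hn1 : 1 ≤ n := one_le_pow₀ hbase
    set γ : ℝ := (1 - min δ (1 / (2 * K))) * U.card with hγ
    have hγ1 : (1 - δ) * U.card ≤ γ := by
      rw [hγ]
      refine mul_le_mul_of_nonneg_right ?_ hU0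
      have := min_le_left δ (1 / (2 * K))
      linarith
    have hγ2 : (U.card : ℝ) - U.card / (2 * K) ≤ γ := by
      have h3 : (1 - 1 / (2 * K)) * U.card ≤ γ := by
        rw [hγ]
        refine mul_le_mul_of_nonneg_right ?_ hU0
        have := min_le_right δ (1 / (2 * K))
        linarith
      refine le_trans (le_of_eq ?_) h3
      ring
    have h := rphase hw hD hK hτ hτρ hq1 hq2 hC hγ2 hn1
      (fun g hg F hF => (hmain U g (τ * D / 4) τ ρ q (by positivity) hτ hτρ hq1 hq2 hg F hF).mono
        (fun I _ hI => hI) le_rfl hγ1)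
      U.card U F (fun _ => 0) q 0 rfl (Subset.refl U) hF (by omega)
      (fun _ => le_rfl) (fun f hf => absurd rfl hf) (by simp) (by simp) ?_
    · refine h.mono ?_ (le_of_eq ?_) le_rfl
      · rintro I _ ⟨h1, h2⟩
        exact ⟨h1.trans subset_union_left, h2, fun _ _ => rfl⟩
      · rw [hn, Nat.add_sub_cancel]
        obtain ⟨s', rfl⟩ : ∃ s', s = s' + 1 := ⟨s - 1, by omega⟩
        rw [Nat.add_sub_cancel, pow_succ]
        ring
    · intro J _
      have h1 : deg U (fun _ => (0 : ℝ)) J = 0 := by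
        unfold deg
        exact sum_eq_zero fun e _ => by split_ifs <;> rfl
      rw [h1]
      positivity

end Pool.Agent.Y940.CT
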