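import Pool.Agent.Y940.CT.Spread
/-!
# Containers for sets with bounded representation function
-/

set_option autoImplicit false

open Finset

namespace Pool.Agent.Y940.CT

open Pool.Agent.Y940.RS (pairs mem_pairs)

/-- no number is the sum of `k` disjoint pairs of `I` -/
def Free (k : ℕ) (I : Finset ℕ) : Prop := ∀ σ, (pairs I σ).card < k

theorem Cov.comp {P : Finset ℕ → Prop} {U : Finset ℕ} {n n' γ γ' : ℝ} (h : Cov P U n γ)
    (hn' : 0 ≤ n')
    (h' : ∀ C, C ⊆ U → (C.card : ℝ) ≤ γ → Cov (fun I => I ⊆ C ∧ P I) U n' γ') :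
    Cov P U (n * n') γ' := by
  classical
  obtain ⟨𝒞, h1, h2, h3⟩ := h
  have h4 : ∀ C : {C // C ∈ 𝒞}, ∃ 𝒟 : Finset (Finset ℕ), (𝒟.card : ℝ) ≤ n' ∧
      (∀ E ∈ 𝒟, E ⊆ U ∧ (E.card : ℝ) ≤ γ') ∧ ∀ I, (I ⊆ C.1 ∧ P I) → ∃ E ∈ 𝒟, I ⊆ E :=
    fun C => h' C.1 (h2 C.1 C.2).1 (h2 C.1 C.2).2
  choose 𝒟 hD1 hD2 hD3 using h4
  refine ⟨𝒞.attach.biUnion 𝒟, ?_, ?_, ?_⟩
  · have h5' : (𝒞.attach.biUnion 𝒟).card ≤ ∑ C ∈ 𝒞.attach, (𝒟 C).card := card_biUnion_le
    have h5 : ((𝒞.attach.biUnion 𝒟).card : ℝ) ≤ ∑ C ∈ 𝒞.attach, ((𝒟 C).card : ℝ) := by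
      exact_mod_cast h5'
    have h6 : ∑ C ∈ 𝒞.attach, ((𝒟 C).card : ℝ) ≤ ∑ _C ∈ 𝒞.attach, n' :=
      sum_le_sum fun C _ => hD1 C
    rw [sum_const, card_attach, nsmul_eq_mul] at h6
    exact (h5.trans h6).trans (mul_le_mul_of_nonneg_right h1 hn')
  · intro E hE
    obtain ⟨C, _, hC⟩ := mem_biUnion.1 hE
    exact hD2 C E hC
  · intro I hI
    obtain ⟨C, hC, hIC⟩ := h3 I hI
    obtain ⟨E, hE, hIE⟩ := hD3 ⟨C, hC⟩ I ⟨hIC, hI⟩
    exact ⟨E, mem_biUnion.2 ⟨⟨C, hC⟩, mem_attach _ _, hE⟩, hIE⟩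

/-- the cost of one step -/
theorem cost {m τ ζ : ℝ} {q : ℕ} {M s : ℕ} (hM : m = M) (hτ0 : 0 < τ) (hτ1 : τ ≤ 1)
    (hζ : 0 < ζ) (hq : (q : ℝ) ≤ 2 * τ * m) :
    (τ⁻¹ ^ q * (1 + τ) ^ M) ^ s ≤ Real.exp (s * (2 / ζ + 1) * (m * τ ^ (1 - ζ))) := by
  have hm0 : 0 ≤ m := by
    rw [hM]
    positivity
  have hinv : (1 : ℝ) ≤ τ⁻¹ := (one_le_inv₀ hτ0).2 hτ1
  have hlog : 0 ≤ Real.log τ⁻¹ := Real.log_nonneg hinv
  have h1 : τ⁻¹ ^ q ≤ Real.exp (2 * τ * m * Real.log τ⁻¹) := by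
    rw [← Real.exp_log (show (0 : ℝ) < τ⁻¹ ^ q by positivity), Real.log_pow]
    exact Real.exp_le_exp.2 (mul_le_mul_of_nonneg_right hq hlog)
  have h2 : (1 + τ) ^ M ≤ Real.exp (τ * m) := by
    rw [hM, mul_comm, Real.exp_nat_mul]
    refine pow_le_pow_left₀ (by linarith) ?_ _
    have := Real.add_one_le_exp τ
    linarith
  have h3 : τ⁻¹ ^ q * (1 + τ) ^ M ≤ Real.exp (2 * τ * m * Real.log τ⁻¹ + τ * m) := by
    rw [Real.exp_add]
    exact mul_le_mul h1 h2 (by positivity) (Real.exp_pos _).le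
  have h4 : (τ⁻¹ ^ q * (1 + τ) ^ M) ^ s ≤
      Real.exp (s * (2 * τ * m * Real.log τ⁻¹ + τ * m)) := by
    rw [Real.exp_nat_mul]
    exact pow_le_pow_left₀ (by positivity) h3 _
  refine h4.trans (Real.exp_le_exp.2 ?_)
  rw [mul_assoc (s : ℝ) (2 / ζ + 1)]
  refine mul_le_mul_of_nonneg_left ?_ (by positivity : (0 : ℝ) ≤ (s : ℝ))
  have h5 : Real.log τ⁻¹ ≤ τ⁻¹ ^ ζ / ζ := Real.log_le_rpow_div (by positivity) hζ
  have h6 : (1 : ℝ) ≤ τ⁻¹ ^ ζ := Real.one_le_rpow hinv hζ.le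
  have h7 : τ ^ (1 - ζ) = τ * τ⁻¹ ^ ζ := by
    rw [Real.rpow_sub hτ0, Real.rpow_one, Real.inv_rpow hτ0.le, div_eq_mul_inv]
  rw [h7]
  calc 2 * τ * m * Real.log τ⁻¹ + τ * m
      ≤ 2 * τ * m * (τ⁻¹ ^ ζ / ζ) + τ * m * τ⁻¹ ^ ζ := by
        refine add_le_add (mul_le_mul_of_nonneg_left h5 (by positivity)) ?_
        exact le_mul_of_one_le_right (by positivity) h6
    _ = (2 / ζ + 1) * (m * (τ * τ⁻¹ ^ ζ)) := by
        field_simp

theorem exponents {k : ℕ} (hk : 1 ≤ k) : ((k : ℝ) - 1) / (2 * k - 1) + 1 / (4 * k) ≤ 1 / 2 ∧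
    0 ≤ ((k : ℝ) - 1) / (2 * k - 1) := by
  have hk1 : (1 : ℝ) ≤ k := by exact_mod_cast hk
  have h1 : (0 : ℝ) < 2 * k - 1 := by linarith
  refine ⟨?_, div_nonneg (by linarith) h1.le⟩
  rw [div_add_div _ _ h1.ne' (by positivity), div_le_div_iff₀ (by positivity) (by norm_num)]
  nlinarith

/-- one step of the iteration -/
theorem one_step (k : ℕ) (hk : 1 ≤ k) : ∃ δ : ℝ, 0 < δ ∧ δ ≤ 1 ∧ ∃ τ₀ : ℝ, 0 < τ₀ ∧ τ₀ ≤ 1 / 4 ∧
    ∃ c : ℝ, 0 < c ∧ ∀ (N : ℕ) (U : Finset ℕ) (Λ : ℝ), (∀ v ∈ U, v ≤ N) →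
      Λ = 8 * k * (2 * N + 1) → Real.sqrt Λ / τ₀ ≤ U.card →
      Cov (fun I => I ⊆ U ∧ Free k I) U
        (Real.exp (c * (Real.sqrt Λ * Real.sqrt (Real.sqrt Λ / U.card) +
          Λ ^ (((k : ℝ) - 1) / (2 * k - 1)) * (U.card : ℝ) ^ (1 / (4 * (k : ℝ))))))
        ((1 - δ) * U.card) := by
  classical
  have hk1 : (1 : ℝ) ≤ k := by exact_mod_cast hk
  obtain ⟨δ, hδ0, hδ1, τ₁, hτ₁0, hτ₁1, hcont⟩ := containers (2 * k) (by omega)
    (8 * k * (1 + 4 * (k : ℝ) ^ 2)) (by nlinarith)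
  set ζ : ℝ := 1 / (4 * (k : ℝ)) with hζ
  have hζ0 : 0 < ζ := by positivity
  have hζ1 : ζ ≤ 1 / 4 := by
    rw [hζ, div_le_div_iff₀ (by positivity) (by norm_num)]
    linarith
  set β : ℝ := ((k : ℝ) - 1) / (2 * k - 1) with hβ
  obtain ⟨hβζ, hβ0⟩ := exponents hk
  have hβ2 : β ≤ 1 / 2 := by linarith
  refine ⟨δ, hδ0, hδ1, min τ₁ (1 / 4), lt_min hτ₁0 (by norm_num), min_le_right _ _,
    ((2 * k - 1 : ℕ) : ℝ) * (2 / ζ + 1), ?_, ?_⟩
  · have : (0 : ℝ) < ((2 * k - 1 : ℕ) : ℝ) := by exact_mod_cast (by omega : 0 < 2 * k - 1)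
    positivity
  intro N U Λ hU hΛ hm
  set τ₀ : ℝ := min τ₁ (1 / 4) with hτ₀
  have hτ₀0 : 0 < τ₀ := lt_min hτ₁0 (by norm_num)
  have hτ₀4 : τ₀ ≤ 1 / 4 := min_le_right _ _
  have hN0 : (0 : ℝ) ≤ N := Nat.cast_nonneg N
  have hΛ8 : 8 ≤ Λ := by
    rw [hΛ]
    nlinarith
  have hΛ0 : 0 < Λ := by linarith
  set R : ℝ := Real.sqrt Λ with hR
  have hR0 : 0 < R := Real.sqrt_pos.2 hΛ0
  have hRR : R * R = Λ := Real.mul_self_sqrt hΛ0.le
  have hR1 : 1 ≤ R := Real.one_le_sqrt.2 (by linarith)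
  set m : ℝ := (U.card : ℝ) with hmdef
  have hRm : R ≤ τ₀ * m := by
    rw [div_le_iff₀ hτ₀0] at hm
    linarith
  have hm4 : 4 ≤ m := by
    nlinarith
  have hm0 : 0 < m := by linarith
  have hcardle : U.card ≤ N + 1 := by
    have h1 : U ⊆ range (N + 1) := fun v hv => mem_range.2 (by have := hU v hv; omega)
    have := card_le_card h1
    rwa [card_range] at this
  have hmN : m ≤ N + 1 := by
    rw [hmdef]
    exact_mod_cast hcardle
  have hmΛ : m ≤ Λ := by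
    rw [hΛ]
    nlinarith
  -- parameters
  set x : ℝ := R / m with hx
  have hx0 : 0 < x := by positivity
  have hx1 : x ≤ τ₀ := by
    rw [hx, div_le_iff₀ hm0]
    exact hRm
  set g : ℝ := (U.card : ℝ) ^ 2 / (8 * (2 * N + 1)) with hg
  have hg0 : 0 < g := by positivity
  have hκ : (k : ℝ) / g = x ^ 2 := by
    rw [hg, ← hmdef, hx, div_pow, sq R, hRR, hΛ]
    field_simp
  have hkg : (k : ℝ) ≤ g := by
    have h1 : (k : ℝ) / g ≤ 1 := by
      rw [hκ]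
      exact pow_le_one₀ hx0.le (by linarith)
    rwa [div_le_one hg0] at h1
  set θ : ℝ := Λ ^ β / m with hθ
  have hΛβ1 : 1 ≤ Λ ^ β := Real.one_le_rpow (by linarith) hβ0
  have hΛβ : Λ ^ β ≤ R := by
    rw [hR, Real.sqrt_eq_rpow]
    exact Real.rpow_le_rpow_of_exponent_le (by linarith) hβ2
  have hθ0 : 0 < θ := by positivity
  have hθ1 : θ ≤ τ₀ := by
    rw [hθ, div_le_iff₀ hm0]
    exact hΛβ.trans hRm
  set τ : ℝ := max (x ^ 2) θ with hτ
  have hτ0 : 0 < τ := lt_of_lt_of_le hθ0 (le_max_right _ _)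
  have hx2 : x ^ 2 ≤ τ₀ := by nlinarith
  have hτle : τ ≤ τ₀ := max_le hx2 hθ1
  have hτ1 : τ ≤ 1 := by linarith
  have hmτ : 1 ≤ m * τ := by
    have h1 : m * θ = Λ ^ β := by
      rw [hθ]
      field_simp
    have h2 : m * θ ≤ m * τ := mul_le_mul_of_nonneg_left (le_max_right _ _) hm0.le
    linarith
  set q : ℕ := ⌈m * τ⌉₊ with hq
  have hq1 : m * τ ≤ q := Nat.le_ceil _
  have hq2 : (q : ℝ) ≤ 2 * τ * m := by
    have := Nat.ceil_lt_add_one (show 0 ≤ m * τ by positivity)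
    rw [← hq] at this
    linarith
  have hb : (x ^ 2) ^ (k - 1) ≤ m * τ ^ (2 * k - 1) := by
    have h1 : m * θ ^ (2 * k - 1) = (x ^ 2) ^ (k - 1) := by
      have h2 : (Λ ^ β) ^ (2 * k - 1) = Λ ^ (k - 1) := by
        rw [← Real.rpow_natCast, ← Real.rpow_mul hΛ0.le, ← Real.rpow_natCast]
        congr 1
        rw [hβ, Nat.cast_sub (by omega), Nat.cast_sub hk]
        push_cast
        have : (2 * (k : ℝ) - 1) ≠ 0 := by linarith
        exact div_mul_cancel₀ _ this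
      rw [hθ, hx, div_pow, h2, ← pow_mul, div_pow, ← hRR]
      obtain ⟨j, rfl⟩ : ∃ j, k = j + 1 := ⟨k - 1, by omega⟩
      have h3 : 2 * (j + 1) - 1 = 2 * j + 1 := by omega
      rw [h3, Nat.add_sub_cancel, pow_succ]
      field_simp
      ring
    rw [← h1]
    refine mul_le_mul_of_nonneg_left ?_ hm0.le
    exact pow_le_pow_left₀ hθ0.le (le_max_right _ _) _
  have hmκ : 1 ≤ (U.card : ℝ) * x ^ 2 := by
    have h1 : (U.card : ℝ) * x ^ 2 = Λ / m := by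
      rw [hx, div_pow, sq R, hRR, ← hmdef]
      field_simp
    rw [h1, le_div_iff₀ hm0]
    linarith
  have hcard2 : 2 ≤ U.card := by
    have : (2 : ℝ) ≤ (U.card : ℝ) := by linarith
    exact_mod_cast this
  have hspread := spread_pairs (τ := τ) hk hU hcard2 rfl hkg hκ.symm (le_max_left _ _) hτ1 hmκ hb
  have hcov := hcont U _ _ τ q (by positivity) hτ0 (hτle.trans (min_le_left _ _)) hq1
    (by rw [← hmdef]; exact hq2) hspread
  refine hcov.mono ?_ ?_ le_rfl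
  · rintro I ⟨h1, h2⟩
    exact ⟨h1, ind_of_free h2⟩
  · refine (cost (m := m) rfl hτ0 hτ1 hζ0 hq2).trans (Real.exp_le_exp.2 ?_)
    refine mul_le_mul_of_nonneg_left ?_ (by positivity)
    have h1 : τ ^ (1 - ζ) ≤ (x ^ 2) ^ (1 - ζ) + θ ^ (1 - ζ) := by
      have h2 : 0 ≤ (x ^ 2) ^ (1 - ζ) := by positivity
      have h3 : 0 ≤ θ ^ (1 - ζ) := by positivity
      rcases max_cases (x ^ 2) θ with ⟨h, _⟩ | ⟨h, _⟩
      · rw [hτ, h]
        linarith
      · rw [hτ, h]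
        linarith
    have h2 : m * (x ^ 2) ^ (1 - ζ) ≤ R * Real.sqrt x := by
      have h3 : (x ^ 2) ^ (1 - ζ) = x * x ^ (1 - 2 * ζ) := by
        rw [← Real.rpow_natCast, ← Real.rpow_mul hx0.le]
        nth_rewrite 2 [← Real.rpow_one x]
        rw [← Real.rpow_add hx0]
        congr 1
        push_cast
        ring
      have h4 : x ^ (1 - 2 * ζ) ≤ Real.sqrt x := by
        rw [Real.sqrt_eq_rpow]
        exact Real.rpow_le_rpow_of_exponent_ge hx0 (by linarith) (by linarith)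
      rw [h3]
      calc m * (x * x ^ (1 - 2 * ζ)) = R * x ^ (1 - 2 * ζ) := by
            rw [← mul_assoc, hx]
            congr 1
            field_simp
        _ ≤ R * Real.sqrt x := mul_le_mul_of_nonneg_left h4 hR0.le
    have h5 : m * θ ^ (1 - ζ) ≤ Λ ^ β * m ^ ζ := by
      have h6 : m * θ ^ (1 - ζ) = (Λ ^ β) ^ (1 - ζ) * m ^ ζ := by
        rw [hθ, Real.div_rpow (by positivity) hm0.le]
        have h7 : m = m ^ (1 - ζ) * m ^ ζ := by
          rw [← Real.rpow_add hm0, sub_add_cancel, Real.rpow_one]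
        have h8 : 0 < m ^ (1 - ζ) := Real.rpow_pos_of_pos hm0 _
        calc m * ((Λ ^ β) ^ (1 - ζ) / m ^ (1 - ζ))
            = (m ^ (1 - ζ) * m ^ ζ) * ((Λ ^ β) ^ (1 - ζ) / m ^ (1 - ζ)) := by
              rw [← h7]
          _ = (Λ ^ β) ^ (1 - ζ) * m ^ ζ := by
              rw [mul_comm (m ^ (1 - ζ)), mul_assoc, mul_div_cancel₀ _ h8.ne', mul_comm]
      rw [h6]
      refine mul_le_mul_of_nonneg_right ?_ (by positivity)
      calc (Λ ^ β) ^ (1 - ζ) ≤ (Λ ^ β) ^ (1 : ℝ) :=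
            Real.rpow_le_rpow_of_exponent_le hΛβ1 (by linarith)
        _ = Λ ^ β := Real.rpow_one _
    calc m * τ ^ (1 - ζ) ≤ m * ((x ^ 2) ^ (1 - ζ) + θ ^ (1 - ζ)) :=
          mul_le_mul_of_nonneg_left h1 hm0.le
      _ = m * (x ^ 2) ^ (1 - ζ) + m * θ ^ (1 - ζ) := by ring
      _ ≤ R * Real.sqrt x + Λ ^ β * m ^ ζ := add_le_add h2 h5

/-- **Containers for sets with bounded representation function.** -/
theorem bounded_containers (k : ℕ) (hk : 1 ≤ k) : ∃ C : ℝ, 0 < C ∧ ∀ N : ℕ, 1 ≤ N →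
    Cov (fun I => I ⊆ range (N + 1) ∧ Free k I) (range (N + 1)) (Real.exp (C * Real.sqrt N))
      (C * Real.sqrt N) := by
  classical
  have hk1 : (1 : ℝ) ≤ k := by exact_mod_cast hk
  obtain ⟨δ, hδ0, hδ1, τ₀, hτ₀0, hτ₀4, c, hc, hstep⟩ := one_step k hk
  set ζ : ℝ := 1 / (4 * (k : ℝ)) with hζ
  have hζ0 : 0 < ζ := by positivity
  set β : ℝ := ((k : ℝ) - 1) / (2 * k - 1) with hβ
  obtain ⟨hβζ, hβ0⟩ := exponents hk
  have hρ0 : 0 ≤ (1 - δ) ^ ζ := Real.rpow_nonneg (by linarith) _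
  have hρ1 : (1 - δ) ^ ζ < 1 := Real.rpow_lt_one (by linarith) (by linarith) hζ0
  set A : ℝ := 2 * c / δ with hA
  have hAc : c ≤ A := by
    rw [hA, le_div_iff₀ hδ0]
    nlinarith
  set B : ℝ := c / (1 - (1 - δ) ^ ζ) with hB
  have hden : 0 < 1 - (1 - δ) ^ ζ := by linarith
  have hBc : c ≤ B := by
    rw [hB, le_div_iff₀ hden]
    nlinarith
  have hB0 : 0 < B := hc.trans_le hBc
  have hA0 : 0 < A := hc.trans_le hAc
  refine ⟨Real.sqrt (24 * k) * (2 * A + B + 1 / τ₀), by positivity, fun N hN => ?_⟩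
  have hN1 : (1 : ℝ) ≤ N := by exact_mod_cast hN
  set Λ : ℝ := 8 * k * (2 * N + 1) with hΛ
  have hΛ8 : 8 ≤ Λ := by
    rw [hΛ]
    nlinarith
  have hΛ0 : 0 < Λ := by linarith
  set R : ℝ := Real.sqrt Λ with hR
  have hR0 : 0 < R := Real.sqrt_pos.2 hΛ0
  set Γ : ℝ := R / τ₀ with hΓ
  have hΓ0 : 0 < Γ := by positivity
  have hRΓ : R ≤ Γ := by
    rw [hΓ, le_div_iff₀ hτ₀0]
    nlinarith
  -- the potential
  set Φ : ℝ → ℝ := fun m => A * R * (2 - Real.sqrt (R / m)) + B * (Λ ^ β * m ^ ζ) with hΦ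
  have hmain : ∀ n : ℕ, ∀ U : Finset ℕ, U.card = n → U ⊆ range (N + 1) → Γ < U.card →
      Cov (fun I => I ⊆ U ∧ Free k I) U (Real.exp (Φ U.card)) Γ := by
    intro n
    induction n using Nat.strong_induction_on with
    | _ n ih =>
    intro U hUn hU hUΓ
    set m : ℝ := (U.card : ℝ) with hmdef
    have hm0 : 0 < m := hΓ0.trans hUΓ
    have h1 := hstep N U Λ (fun v hv => by have := mem_range.1 (hU hv); omega) hΛ hUΓ.le
    set f : ℝ := c * (R * Real.sqrt (R / m) + Λ ^ β * m ^ ζ) with hf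
    set ψ : ℝ := Real.sqrt (R / m) with hψ
    have hψ0 : 0 ≤ ψ := Real.sqrt_nonneg _
    have hψ1 : ψ ≤ 1 := by
      rw [hψ]
      refine Real.sqrt_le_one.2 ?_
      rw [div_le_one hm0]
      linarith
    have hΛm : 0 < Λ ^ β * m ^ ζ := by positivity
    have hΦm : Φ m = A * R * (2 - ψ) + B * (Λ ^ β * m ^ ζ) := rfl
    have h2 : Cov (fun I => I ⊆ U ∧ Free k I) U (Real.exp f * Real.exp (Φ m - f)) Γ := by
      refine h1.comp (Real.exp_pos _).le ?_
      intro C hC hCm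
      by_cases hCΓ : (C.card : ℝ) ≤ Γ
      · refine (Cov.one (P := fun I => I ⊆ C) hC hCΓ (fun I hI => hI)).mono
          (fun I hI => hI.1) ?_ le_rfl
        refine Real.one_le_exp ?_
        rw [hΦm, hf]
        have h3 : c * (R * ψ) ≤ A * R * (2 - ψ) := by
          have h4 : R * ψ ≤ R * (2 - ψ) := mul_le_mul_of_nonneg_left (by linarith) hR0.le
          have h5 : 0 ≤ R * (2 - ψ) := by
            have : 0 ≤ 2 - ψ := by linarith
            positivity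
          calc c * (R * ψ) ≤ c * (R * (2 - ψ)) := mul_le_mul_of_nonneg_left h4 hc.le
            _ ≤ A * (R * (2 - ψ)) := mul_le_mul_of_nonneg_right hAc h5
            _ = _ := by ring
        have h6 : c * (Λ ^ β * m ^ ζ) ≤ B * (Λ ^ β * m ^ ζ) :=
          mul_le_mul_of_nonneg_right hBc hΛm.le
        linarith
      · push Not at hCΓ
        set m' : ℝ := (C.card : ℝ) with hm'def
        have hm'0 : 0 < m' := hΓ0.trans hCΓ
        have hδ2 : 0 < 1 - δ := by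
          by_contra h
          have h3 : (1 - δ) * m ≤ 0 := mul_nonpos_of_nonpos_of_nonneg (by linarith) hm0.le
          linarith
        have hlt : C.card < n := by
          rw [← hUn]
          have h3 : m' < m := by nlinarith
          rw [hm'def, hmdef] at h3
          exact_mod_cast h3
        have h3 := ih C.card hlt C rfl (hC.trans hU) hCΓ
        obtain ⟨𝒟, hD1, hD2, hD3⟩ := h3
        refine ⟨𝒟, hD1.trans (Real.exp_le_exp.2 ?_), fun E hE => ⟨(hD2 E hE).1.trans hC,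
          (hD2 E hE).2⟩, fun I hI => hD3 I ⟨hI.1, hI.2.2⟩⟩
        rw [hΦm, hf]
        have hΦm' : Φ m' = A * R * (2 - Real.sqrt (R / m')) + B * (Λ ^ β * m' ^ ζ) := rfl
        rw [hΦm']
        set ψ' : ℝ := Real.sqrt (R / m') with hψ'
        have h4 : (1 + δ / 2) * ψ ≤ ψ' := by
          rw [hψ']
          refine Real.le_sqrt_of_sq_le ?_
          rw [mul_pow, hψ, Real.sq_sqrt (by positivity), ← mul_div_assoc,
            div_le_div_iff₀ hm0 hm'0]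
          have hδ3 : 0 < δ * δ := mul_pos hδ0 hδ0
          have hδ4 : 0 < δ * δ * δ := mul_pos hδ3 hδ0
          have h5 : (1 + δ / 2) ^ 2 * (1 - δ) ≤ 1 := by nlinarith
          calc (1 + δ / 2) ^ 2 * R * m' ≤ (1 + δ / 2) ^ 2 * R * ((1 - δ) * m) :=
                mul_le_mul_of_nonneg_left hCm (by positivity)
            _ = ((1 + δ / 2) ^ 2 * (1 - δ)) * (R * m) := by ring
            _ ≤ 1 * (R * m) := mul_le_mul_of_nonneg_right h5 (by positivity)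
            _ = R * m := one_mul _
        have h6 : c * (R * ψ) ≤ A * R * (ψ' - ψ) := by
          have h7 : δ / 2 * ψ ≤ ψ' - ψ := by linarith
          calc c * (R * ψ) = A * R * (δ / 2 * ψ) := by
                rw [hA]
                field_simp
            _ ≤ A * R * (ψ' - ψ) := mul_le_mul_of_nonneg_left h7 (by positivity)
        have h8 : m' ^ ζ ≤ (1 - δ) ^ ζ * m ^ ζ := by
          rw [← Real.mul_rpow hδ2.le hm0.le]
          exact Real.rpow_le_rpow hm'0.le hCm hζ0.le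
        have h9 : B * (Λ ^ β * m' ^ ζ) + c * (Λ ^ β * m ^ ζ) ≤ B * (Λ ^ β * m ^ ζ) := by
          have h10 : B * (1 - (1 - δ) ^ ζ) = c := by
            rw [hB]
            field_simp
          have h11 : B * (Λ ^ β * m' ^ ζ) ≤ B * (Λ ^ β * ((1 - δ) ^ ζ * m ^ ζ)) :=
            mul_le_mul_of_nonneg_left (mul_le_mul_of_nonneg_left h8 (by positivity)) hB0.le
          have h12 : B * (Λ ^ β * ((1 - δ) ^ ζ * m ^ ζ)) + c * (Λ ^ β * m ^ ζ) =
              B * (Λ ^ β * m ^ ζ) := by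
            rw [← h10]
            ring
          linarith
        linarith
    rw [← Real.exp_add, add_sub_cancel] at h2
    exact h2
  have hRN : R ≤ Real.sqrt (24 * k) * Real.sqrt N := by
    rw [hR, ← Real.sqrt_mul (by positivity)]
    refine Real.sqrt_le_sqrt ?_
    rw [hΛ]
    nlinarith
  have hfin : ∀ y : ℝ, 0 ≤ y → R * y ≤ Real.sqrt (24 * k) * y * Real.sqrt N := by
    intro y hy
    calc R * y ≤ (Real.sqrt (24 * k) * Real.sqrt N) * y := mul_le_mul_of_nonneg_right hRN hy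
      _ = _ := by ring
  have hsN : 0 ≤ Real.sqrt N := Real.sqrt_nonneg _
  have hs24 : 0 ≤ Real.sqrt (24 * k) := Real.sqrt_nonneg _
  have hγ : Γ ≤ Real.sqrt (24 * k) * (2 * A + B + 1 / τ₀) * Real.sqrt N := by
    have h1 : R * (1 / τ₀) ≤ Real.sqrt (24 * k) * (1 / τ₀) * Real.sqrt N :=
      hfin _ (by positivity)
    have h2 : 0 ≤ Real.sqrt (24 * k) * (2 * A + B) * Real.sqrt N := by positivity
    have h3 : Γ = R * (1 / τ₀) := by
      rw [hΓ]
      ring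
    rw [h3]
    calc R * (1 / τ₀) ≤ Real.sqrt (24 * k) * (1 / τ₀) * Real.sqrt N +
          Real.sqrt (24 * k) * (2 * A + B) * Real.sqrt N := by linarith
      _ = _ := by ring
  by_cases hbig : ((range (N + 1)).card : ℝ) ≤ Γ
  · refine (Cov.one (P := fun I => I ⊆ range (N + 1)) (Subset.refl _) hbig
      (fun I hI => hI)).mono (fun I hI => hI.1) ?_ hγ
    exact Real.one_le_exp (by positivity)
  · push Not at hbig
    refine (hmain _ (range (N + 1)) rfl (Subset.refl _) hbig).mono (fun I hI => hI) ?_ hγ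
    refine Real.exp_le_exp.2 ?_
    have hcard : ((range (N + 1)).card : ℝ) = N + 1 := by
      rw [card_range]
      push_cast
      rfl
    rw [hcard]
    have h1 : A * R * (2 - Real.sqrt (R / (N + 1))) ≤ R * (2 * A) := by
      have := Real.sqrt_nonneg (R / ((N : ℝ) + 1))
      have h2 : A * R * (2 - Real.sqrt (R / (N + 1))) ≤ A * R * 2 :=
        mul_le_mul_of_nonneg_left (by linarith) (by positivity)
      linarith
    have h2 : B * (Λ ^ β * ((N : ℝ) + 1) ^ ζ) ≤ R * B := by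
      have h3 : ((N : ℝ) + 1) ^ ζ ≤ Λ ^ ζ := by
        refine Real.rpow_le_rpow (by positivity) ?_ hζ0.le
        rw [hΛ]
        nlinarith
      have h4 : Λ ^ β * ((N : ℝ) + 1) ^ ζ ≤ R := by
        calc Λ ^ β * ((N : ℝ) + 1) ^ ζ ≤ Λ ^ β * Λ ^ ζ :=
              mul_le_mul_of_nonneg_left h3 (by positivity)
          _ = Λ ^ (β + ζ) := (Real.rpow_add hΛ0 _ _).symm
          _ ≤ Λ ^ (1 / 2 : ℝ) := Real.rpow_le_rpow_of_exponent_le (by linarith) hβζ
          _ = R := by rw [hR, Real.sqrt_eq_rpow]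
      rw [mul_comm R B]
      exact mul_le_mul_of_nonneg_left h4 hB0.le
    have h5 : R * (2 * A + B) ≤ Real.sqrt (24 * k) * (2 * A + B) * Real.sqrt N :=
      hfin _ (by positivity)
    have h6 : 0 ≤ Real.sqrt (24 * k) * (1 / τ₀) * Real.sqrt N := by positivity
    have h7 : Φ ((N : ℝ) + 1) = A * R * (2 - Real.sqrt (R / (N + 1))) +
        B * (Λ ^ β * ((N : ℝ) + 1) ^ ζ) := rfl
    rw [h7]
    calc A * R * (2 - Real.sqrt (R / (N + 1))) + B * (Λ ^ β * ((N : ℝ) + 1) ^ ζ)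
        ≤ R * (2 * A + B) := by linarith
      _ ≤ Real.sqrt (24 * k) * (2 * A + B) * Real.sqrt N +
          Real.sqrt (24 * k) * (1 / τ₀) * Real.sqrt N := by linarith
      _ = _ := by ring

end Pool.Agent.Y940.CT
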