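import Pool.Agent.Y940.CT.Fp
/-!
# Fingerprint containers for sets with bounded representation function
-/

set_option autoImplicit false

open Finset

namespace Pool.Agent.Y940.CT

open Pool.Agent.Y940.RS (pairs mem_pairs)

/-- the cost of one step -/
theorem rcost {m τ ρ ζ : ℝ} {q : ℕ} {M s : ℕ} (hM : m = M) (hτ0 : 0 < τ) (hτρ : τ ≤ ρ)
    (hζ : 0 < ζ) (hq : (q : ℝ) ≤ 2 * τ * m) :
    ((ρ / τ) ^ q * (1 + τ) ^ M) ^ s ≤
      Real.exp (s * (2 / ζ + 1) * (m * (ρ ^ ζ * τ ^ (1 - ζ)))) := by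
  have hm0 : 0 ≤ m := by
    rw [hM]
    positivity
  have hρ0 : 0 < ρ := hτ0.trans_le hτρ
  have hinv : (1 : ℝ) ≤ ρ / τ := by
    rw [one_le_div hτ0]
    exact hτρ
  have hlog : 0 ≤ Real.log (ρ / τ) := Real.log_nonneg hinv
  have h1 : (ρ / τ) ^ q ≤ Real.exp (2 * τ * m * Real.log (ρ / τ)) := by
    rw [← Real.exp_log (show (0 : ℝ) < (ρ / τ) ^ q by positivity), Real.log_pow]
    exact Real.exp_le_exp.2 (mul_le_mul_of_nonneg_right hq hlog)
  have h2 : (1 + τ) ^ M ≤ Real.exp (τ * m) := by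
    rw [hM, mul_comm, Real.exp_nat_mul]
    refine pow_le_pow_left₀ (by linarith) ?_ _
    have := Real.add_one_le_exp τ
    linarith
  have h3 : (ρ / τ) ^ q * (1 + τ) ^ M ≤ Real.exp (2 * τ * m * Real.log (ρ / τ) + τ * m) := by
    rw [Real.exp_add]
    exact mul_le_mul h1 h2 (by positivity) (Real.exp_pos _).le
  have h4 : ((ρ / τ) ^ q * (1 + τ) ^ M) ^ s ≤
      Real.exp (s * (2 * τ * m * Real.log (ρ / τ) + τ * m)) := by
    rw [Real.exp_nat_mul]
    exact pow_le_pow_left₀ (by positivity) h3 _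
  refine h4.trans (Real.exp_le_exp.2 ?_)
  rw [mul_assoc (s : ℝ) (2 / ζ + 1)]
  refine mul_le_mul_of_nonneg_left ?_ (by positivity : (0 : ℝ) ≤ (s : ℝ))
  have h5 : Real.log (ρ / τ) ≤ (ρ / τ) ^ ζ / ζ := Real.log_le_rpow_div (by positivity) hζ
  have h6 : (1 : ℝ) ≤ (ρ / τ) ^ ζ := Real.one_le_rpow hinv hζ.le
  have h7 : ρ ^ ζ * τ ^ (1 - ζ) = τ * (ρ / τ) ^ ζ := by
    rw [Real.rpow_sub hτ0, Real.rpow_one, Real.div_rpow hρ0.le hτ0.le]
    ring
  rw [h7]
  calc 2 * τ * m * Real.log (ρ / τ) + τ * m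
      ≤ 2 * τ * m * ((ρ / τ) ^ ζ / ζ) + τ * m * (ρ / τ) ^ ζ := by
        refine add_le_add (mul_le_mul_of_nonneg_left h5 (by positivity)) ?_
        exact le_mul_of_one_le_right (by positivity) h6
    _ = (2 / ζ + 1) * (m * (τ * (ρ / τ) ^ ζ)) := by
        field_simp

theorem rexponents {k : ℕ} (hk : 1 ≤ k) :
    ((k : ℝ) - 1) / (2 * k - 1) + 1 / (8 * k) ≤ 1 / 2 - 1 / (8 * k) ∧
    0 ≤ ((k : ℝ) - 1) / (2 * k - 1) := by
  have hk1 : (1 : ℝ) ≤ k := by exact_mod_cast hk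
  obtain ⟨h1, h2⟩ := exponents hk
  refine ⟨?_, h2⟩
  have h3 : 1 / (4 * (k : ℝ)) = 1 / (8 * k) + 1 / (8 * k) := by
    field_simp
    norm_num
  linarith

/-- one step of the iteration -/
theorem rone_step (k : ℕ) (hk : 1 ≤ k) : ∃ δ : ℝ, 0 < δ ∧ δ ≤ 1 ∧
    ∃ c : ℝ, 0 < c ∧ ∀ (N : ℕ) (U : Finset ℕ) (Λ ρ : ℝ), (∀ v ∈ U, v ≤ N) →
      Λ = 8 * k * (2 * N + 1) → 0 < ρ → ρ ≤ 1 →
      Real.sqrt Λ / Real.sqrt ρ ≤ U.card →
      Λ ^ (((k : ℝ) - 1) / (2 * k - 1)) / ρ ≤ U.card →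
      RCov ρ ∅ (fun I => I ⊆ U ∧ Free k I) U
        (Real.exp (c * (Real.sqrt Λ * Real.sqrt ρ *
            Real.sqrt (Real.sqrt Λ / Real.sqrt ρ / U.card) +
          Λ ^ (((k : ℝ) - 1) / (2 * k - 1)) * (U.card : ℝ) ^ (1 / (8 * (k : ℝ))))))
        ((1 - δ) * U.card) := by
  classical
  have hk1 : (1 : ℝ) ≤ k := by exact_mod_cast hk
  obtain ⟨δ, hδ0, hδ1, hcont⟩ := rcontainers (2 * k) (by omega)
    (8 * k * (1 + 4 * (k : ℝ) ^ 2)) (by nlinarith)
  set ζ : ℝ := 1 / (8 * (k : ℝ)) with hζ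
  have hζ0 : 0 < ζ := by positivity
  have hζ1 : ζ ≤ 1 / 4 := by
    rw [hζ, div_le_div_iff₀ (by positivity) (by norm_num)]
    linarith
  set β : ℝ := ((k : ℝ) - 1) / (2 * k - 1) with hβ
  obtain ⟨hβζ, hβ0⟩ := rexponents hk
  have hβ2 : β ≤ 1 / 2 := by linarith
  refine ⟨δ, hδ0, hδ1, ((2 * k - 1 : ℕ) : ℝ) * (2 / ζ + 1), ?_, ?_⟩
  · have : (0 : ℝ) < ((2 * k - 1 : ℕ) : ℝ) := by exact_mod_cast (by omega : 0 < 2 * k - 1)
    positivity
  intro N U Λ ρ hU hΛ hρ0 hρ1 hm hm2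
  have hN0 : (0 : ℝ) ≤ N := Nat.cast_nonneg N
  have hΛ8 : 8 ≤ Λ := by
    rw [hΛ]
    nlinarith
  have hΛ0 : 0 < Λ := by linarith
  set R : ℝ := Real.sqrt Λ with hR
  have hR0 : 0 < R := Real.sqrt_pos.2 hΛ0
  have hRR : R * R = Λ := Real.mul_self_sqrt hΛ0.le
  have hR2 : 2 ≤ R := by
    rw [show (2 : ℝ) = Real.sqrt 4 by
      rw [show (4 : ℝ) = 2 ^ 2 by norm_num, Real.sqrt_sq (by norm_num)]]
    exact Real.sqrt_le_sqrt (by linarith)
  set r : ℝ := Real.sqrt ρ with hr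
  have hr0 : 0 < r := Real.sqrt_pos.2 hρ0
  have hrr : r * r = ρ := Real.mul_self_sqrt hρ0.le
  have hr1 : r ≤ 1 := Real.sqrt_le_one.2 hρ1
  set m : ℝ := (U.card : ℝ) with hmdef
  have hRm : R ≤ r * m := by
    rw [div_le_iff₀ hr0] at hm
    linarith
  have hm0 : 0 < m := by
    by_contra h
    push Not at h
    nlinarith
  have hRm1 : R ≤ m := by nlinarith
  have hcardle : U.card ≤ N + 1 := by
    have h1 : U ⊆ range (N + 1) := fun v hv => mem_range.2 (by have := hU v hv; omega)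
    have := card_le_card h1
    rwa [card_range] at this
  have hmN : m ≤ N + 1 := by
    rw [hmdef]
    exact_mod_cast hcardle
  have hmΛ : m ≤ Λ := by
    rw [hΛ]
    nlinarith
  -- parameters
  set x : ℝ := R / m with hx
  have hx0 : 0 < x := by positivity
  have hxr : x ≤ r := by
    rw [hx, div_le_iff₀ hm0]
    exact hRm
  have hx1 : x ≤ 1 := hxr.trans hr1
  set g : ℝ := (U.card : ℝ) ^ 2 / (8 * (2 * N + 1)) with hg
  have hg0 : 0 < g := by positivity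
  have hκ : (k : ℝ) / g = x ^ 2 := by
    rw [hg, ← hmdef, hx, div_pow, sq R, hRR, hΛ]
    field_simp
  have hkg : (k : ℝ) ≤ g := by
    have h1 : (k : ℝ) / g ≤ 1 := by
      rw [hκ]
      exact pow_le_one₀ hx0.le hx1
    rwa [div_le_one hg0] at h1
  set θ : ℝ := Λ ^ β / m with hθ
  have hΛβ1 : 1 ≤ Λ ^ β := Real.one_le_rpow (by linarith) hβ0
  have hθ0 : 0 < θ := by positivity
  have hθρ : θ ≤ ρ := by
    rw [hθ, div_le_iff₀ hm0]
    rw [div_le_iff₀ hρ0] at hm2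
    linarith
  set τ : ℝ := max (x ^ 2) θ with hτ
  have hτ0 : 0 < τ := lt_of_lt_of_le hθ0 (le_max_right _ _)
  have hx2 : x ^ 2 ≤ ρ := by
    rw [sq, ← hrr]
    exact mul_le_mul hxr hxr hx0.le hr0.le
  have hτρ : τ ≤ ρ := max_le hx2 hθρ
  have hτ1 : τ ≤ 1 := by linarith
  have hmτ : 1 ≤ m * τ := by
    have h1 : m * θ = Λ ^ β := by
      rw [hθ]
      field_simp
    have h2 : m * θ ≤ m * τ := mul_le_mul_of_nonneg_left (le_max_right _ _) hm0.le
    linarith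
  set q : ℕ := ⌈m * τ⌉₊ with hq
  have hq1 : m * τ ≤ q := Nat.le_ceil _
  have hq2 : (q : ℝ) ≤ 2 * τ * m := by
    have := Nat.ceil_lt_add_one (show 0 ≤ m * τ by positivity)
    rw [← hq] at this
    linarith
  have hb : (x ^ 2) ^ (k - 1) ≤ m * τ ^ (2 * k - 1) := by
    have h1 : m * θ ^ (2 * k - 1) = (x ^ 2) ^ (k - 1) := by
      have h2 : (Λ ^ β) ^ (2 * k - 1) = Λ ^ (k - 1) := by
        rw [← Real.rpow_natCast, ← Real.rpow_mul hΛ0.le, ← Real.rpow_natCast]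
        congr 1
        rw [hβ, Nat.cast_sub (by omega), Nat.cast_sub hk]
        push_cast
        have : (2 * (k : ℝ) - 1) ≠ 0 := by linarith
        exact div_mul_cancel₀ _ this
      rw [hθ, hx, div_pow, h2, ← pow_mul, div_pow, ← hRR]
      obtain ⟨j, rfl⟩ : ∃ j, k = j + 1 := ⟨k - 1, by omega⟩
      have h3 : 2 * (j + 1) - 1 = 2 * j + 1 := by omega
      rw [h3, Nat.add_sub_cancel, pow_succ]
      field_simp
      ring
    rw [← h1]
    refine mul_le_mul_of_nonneg_left ?_ hm0.le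
    exact pow_le_pow_left₀ hθ0.le (le_max_right _ _) _
  have hmκ : 1 ≤ (U.card : ℝ) * x ^ 2 := by
    have h1 : (U.card : ℝ) * x ^ 2 = Λ / m := by
      rw [hx, div_pow, sq R, hRR, ← hmdef]
      field_simp
    rw [h1, le_div_iff₀ hm0]
    linarith
  have hcard2 : 2 ≤ U.card := by
    have : (2 : ℝ) ≤ (U.card : ℝ) := by linarith
    exact_mod_cast this
  have hspread := spread_pairs (τ := τ) hk hU hcard2 rfl hkg hκ.symm (le_max_left _ _) hτ1 hmκ hb
  have hcov := hcont U _ _ τ ρ q (by positivity) hτ0 hτρ hq1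
    (by rw [← hmdef]; exact hq2) hspread ∅ (empty_subset _)
  refine hcov.mono ?_ ?_ le_rfl
  · rintro I _ ⟨h1, h2⟩
    exact ⟨h1, ind_of_free h2⟩
  · refine (rcost (m := m) rfl hτ0 hτρ hζ0 hq2).trans (Real.exp_le_exp.2 ?_)
    refine mul_le_mul_of_nonneg_left ?_ (by positivity)
    have h1 : τ ^ (1 - ζ) ≤ (x ^ 2) ^ (1 - ζ) + θ ^ (1 - ζ) := by
      have h2 : 0 ≤ (x ^ 2) ^ (1 - ζ) := by positivity
      have h3 : 0 ≤ θ ^ (1 - ζ) := by positivity
      rcases max_cases (x ^ 2) θ with ⟨h, _⟩ | ⟨h, _⟩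
      · rw [hτ, h]
        linarith
      · rw [hτ, h]
        linarith
    have hρζ0 : 0 < ρ ^ ζ := Real.rpow_pos_of_pos hρ0 _
    have hρζ1 : ρ ^ ζ ≤ 1 := Real.rpow_le_one hρ0.le hρ1 hζ0.le
    have h2 : m * (ρ ^ ζ * (x ^ 2) ^ (1 - ζ)) ≤ R * r * Real.sqrt (R / r / m) := by
      set y : ℝ := R / r / m with hy
      have hy0 : 0 < y := by positivity
      have hy1 : y ≤ 1 := by
        rw [hy, div_le_one hm0, div_le_iff₀ hr0]
        linarith
      have hxy : x = r * y := by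
        rw [hx, hy]
        field_simp
      have h3 : ρ ^ ζ * (x ^ 2) ^ (1 - ζ) = (x * r) * y ^ (1 - 2 * ζ) := by
        have e1 : ρ = r ^ (2 : ℝ) := by
          rw [← hrr]
          norm_num
          ring
        have e2 : (x ^ 2) ^ (1 - ζ) = x ^ (2 * (1 - ζ)) := by
          rw [← Real.rpow_natCast, ← Real.rpow_mul hx0.le]
          norm_num
        have e3 : ρ ^ ζ = r ^ (2 * ζ) := by
          rw [e1, ← Real.rpow_mul hr0.le]
        rw [e2, e3, hxy, Real.mul_rpow hr0.le hy0.le]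
        calc r ^ (2 * ζ) * (r ^ (2 * (1 - ζ)) * y ^ (2 * (1 - ζ)))
            = (r ^ (2 * ζ) * r ^ (2 * (1 - ζ))) * y ^ (2 * (1 - ζ)) := by ring
          _ = r ^ (2 : ℝ) * y ^ (1 + (1 - 2 * ζ)) := by
              rw [← Real.rpow_add hr0]
              congr 2
              · ring
              · ring
          _ = r ^ 2 * (y * y ^ (1 - 2 * ζ)) := by
              rw [Real.rpow_add hy0, Real.rpow_one]
              norm_num
          _ = r * y * r * y ^ (1 - 2 * ζ) := by ring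
      have h4 : y ^ (1 - 2 * ζ) ≤ Real.sqrt y := by
        rw [Real.sqrt_eq_rpow]
        exact Real.rpow_le_rpow_of_exponent_ge hy0 hy1 (by linarith)
      rw [h3]
      calc m * (x * r * y ^ (1 - 2 * ζ)) = R * r * y ^ (1 - 2 * ζ) := by
            rw [← mul_assoc, ← mul_assoc, hx]
            congr 1
            field_simp
        _ ≤ R * r * Real.sqrt y := mul_le_mul_of_nonneg_left h4 (by positivity)
    have h5 : m * (ρ ^ ζ * θ ^ (1 - ζ)) ≤ Λ ^ β * m ^ ζ := by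
      have h6 : m * θ ^ (1 - ζ) = (Λ ^ β) ^ (1 - ζ) * m ^ ζ := by
        rw [hθ, Real.div_rpow (by positivity) hm0.le]
        have h7 : m = m ^ (1 - ζ) * m ^ ζ := by
          rw [← Real.rpow_add hm0, sub_add_cancel, Real.rpow_one]
        have h8 : 0 < m ^ (1 - ζ) := Real.rpow_pos_of_pos hm0 _
        calc m * ((Λ ^ β) ^ (1 - ζ) / m ^ (1 - ζ))
            = (m ^ (1 - ζ) * m ^ ζ) * ((Λ ^ β) ^ (1 - ζ) / m ^ (1 - ζ)) := by
              rw [← h7]
          _ = (Λ ^ β) ^ (1 - ζ) * m ^ ζ := by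
              rw [mul_comm (m ^ (1 - ζ)), mul_assoc, mul_div_cancel₀ _ h8.ne', mul_comm]
      have h9 : (Λ ^ β) ^ (1 - ζ) ≤ Λ ^ β := by
        calc (Λ ^ β) ^ (1 - ζ) ≤ (Λ ^ β) ^ (1 : ℝ) :=
              Real.rpow_le_rpow_of_exponent_le hΛβ1 (by linarith)
          _ = Λ ^ β := Real.rpow_one _
      have hθζ : 0 ≤ θ ^ (1 - ζ) := by positivity
      calc m * (ρ ^ ζ * θ ^ (1 - ζ)) ≤ m * (1 * θ ^ (1 - ζ)) :=
            mul_le_mul_of_nonneg_left (mul_le_mul_of_nonneg_right hρζ1 hθζ) hm0.le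
        _ = (Λ ^ β) ^ (1 - ζ) * m ^ ζ := by rw [one_mul, h6]
        _ ≤ Λ ^ β * m ^ ζ := mul_le_mul_of_nonneg_right h9 (by positivity)
    calc m * (ρ ^ ζ * τ ^ (1 - ζ)) ≤ m * (ρ ^ ζ * ((x ^ 2) ^ (1 - ζ) + θ ^ (1 - ζ))) :=
          mul_le_mul_of_nonneg_left (mul_le_mul_of_nonneg_left h1 hρζ0.le) hm0.le
      _ = m * (ρ ^ ζ * (x ^ 2) ^ (1 - ζ)) + m * (ρ ^ ζ * θ ^ (1 - ζ)) := by ring
      _ ≤ R * r * Real.sqrt (R / r / m) + Λ ^ β * m ^ ζ := add_le_add h2 h5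

theorem free_mono {k : ℕ} {I J : Finset ℕ} (h : J ⊆ I) (hI : Free k I) : Free k J := by
  intro σ
  refine lt_of_le_of_lt (card_le_card ?_) (hI σ)
  intro a ha
  rw [mem_pairs] at ha ⊢
  exact ⟨h ha.1, ha.2.1, h ha.2.2⟩

/-- **Fingerprint containers for sets with bounded representation function.** -/
theorem rbounded_containers (k : ℕ) (hk : 1 ≤ k) : ∃ C : ℝ, 0 < C ∧ ∀ N : ℕ, 1 ≤ N →
    ∀ ρ : ℝ, (N : ℝ) ^ (-(1 / (4 * (k : ℝ)))) ≤ ρ → ρ ≤ 1 →
    RCov ρ ∅ (fun I => I ⊆ range (N + 1) ∧ Free k I) (range (N + 1))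
      (Real.exp (C * Real.sqrt (ρ * N))) (C * Real.sqrt (N / ρ)) := by
  classical
  have hk1 : (1 : ℝ) ≤ k := by exact_mod_cast hk
  obtain ⟨δ, hδ0, hδ1, c, hc, hstep⟩ := rone_step k hk
  set ζ : ℝ := 1 / (8 * (k : ℝ)) with hζ
  have hζ0 : 0 < ζ := by positivity
  set β : ℝ := ((k : ℝ) - 1) / (2 * k - 1) with hβ
  obtain ⟨hβζ, hβ0⟩ := rexponents hk
  have hρ0 : 0 ≤ (1 - δ) ^ ζ := Real.rpow_nonneg (by linarith) _
  have hρ1 : (1 - δ) ^ ζ < 1 := Real.rpow_lt_one (by linarith) (by linarith) hζ0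
  set A : ℝ := 2 * c / δ with hA
  have hAc : c ≤ A := by
    rw [hA, le_div_iff₀ hδ0]
    nlinarith
  set B : ℝ := c / (1 - (1 - δ) ^ ζ) with hB
  have hden : 0 < 1 - (1 - δ) ^ ζ := by linarith
  have hBc : c ≤ B := by
    rw [hB, le_div_iff₀ hden]
    nlinarith
  have hB0 : 0 < B := hc.trans_le hBc
  have hA0 : 0 < A := hc.trans_le hAc
  refine ⟨Real.sqrt (24 * k) * (2 * A + B + 1), by positivity, fun N hN ρ hρN hρle => ?_⟩
  have hN1 : (1 : ℝ) ≤ N := by exact_mod_cast hN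
  have hρpos : 0 < ρ := lt_of_lt_of_le (by positivity) hρN
  set Λ : ℝ := 8 * k * (2 * N + 1) with hΛ
  have hΛ8 : 8 ≤ Λ := by
    rw [hΛ]
    nlinarith
  have hΛ0 : 0 < Λ := by linarith
  have hNΛ : (N : ℝ) + 1 ≤ Λ := by
    rw [hΛ]
    nlinarith
  set R : ℝ := Real.sqrt Λ with hR
  have hR0 : 0 < R := Real.sqrt_pos.2 hΛ0
  have hRR : R * R = Λ := Real.mul_self_sqrt hΛ0.le
  set r : ℝ := Real.sqrt ρ with hr
  have hr0 : 0 < r := Real.sqrt_pos.2 hρpos
  have hrr : r * r = ρ := Real.mul_self_sqrt hρpos.le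
  -- the density condition
  have hdens : Λ ^ (β + ζ) ≤ R * r := by
    have h1 : Λ ^ (-(1 / (4 * (k : ℝ)))) ≤ ρ := by
      refine le_trans ?_ hρN
      refine Real.rpow_le_rpow_of_nonpos (by linarith) (by linarith) ?_
      have : 0 < 1 / (4 * (k : ℝ)) := by positivity
      linarith
    have h2 : Λ ^ (-(1 / (8 * (k : ℝ)))) ≤ r := by
      rw [hr]
      refine Real.le_sqrt_of_sq_le ?_
      refine le_trans (le_of_eq ?_) h1
      rw [← Real.rpow_natCast, ← Real.rpow_mul hΛ0.le]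
      congr 1
      field_simp
      norm_num
    calc Λ ^ (β + ζ) ≤ Λ ^ (1 / 2 + -(1 / (8 * (k : ℝ)))) :=
          Real.rpow_le_rpow_of_exponent_le (by linarith) (by linarith)
      _ = R * Λ ^ (-(1 / (8 * (k : ℝ)))) := by
          rw [Real.rpow_add hΛ0, hR, Real.sqrt_eq_rpow]
      _ ≤ R * r := mul_le_mul_of_nonneg_left h2 hR0.le
  set Γ : ℝ := R / r with hΓ
  have hΓ0 : 0 < Γ := by positivity
  have hΓ2 : Λ ^ β / ρ ≤ Γ := by
    rw [hΓ, div_le_div_iff₀ hρpos hr0]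
    have h1 : Λ ^ β ≤ Λ ^ (β + ζ) :=
      Real.rpow_le_rpow_of_exponent_le (by linarith) (by linarith)
    calc Λ ^ β * r ≤ (R * r) * r := mul_le_mul_of_nonneg_right (h1.trans hdens) hr0.le
      _ = R * ρ := by rw [mul_assoc, hrr]
  -- the potential
  set Φ : ℝ → ℝ := fun m => A * (R * r) * (2 - Real.sqrt (Γ / m)) + B * (Λ ^ β * m ^ ζ) with hΦ
  have hmain : ∀ n : ℕ, ∀ U : Finset ℕ, U.card = n → U ⊆ range (N + 1) → Γ < U.card →
      RCov ρ ∅ (fun I => I ⊆ U ∧ Free k I) U (Real.exp (Φ U.card)) Γ := by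
    intro n
    induction n using Nat.strong_induction_on with
    | _ n ih =>
    intro U hUn hU hUΓ
    set m : ℝ := (U.card : ℝ) with hmdef
    have hm0 : 0 < m := hΓ0.trans hUΓ
    have h1 := hstep N U Λ ρ (fun v hv => by have := mem_range.1 (hU hv); omega) hΛ hρpos hρle
      hUΓ.le (hΓ2.trans hUΓ.le)
    set f : ℝ := c * (R * r * Real.sqrt (Γ / m) + Λ ^ β * m ^ ζ) with hf
    set ψ : ℝ := Real.sqrt (Γ / m) with hψ
    have hψ0 : 0 ≤ ψ := Real.sqrt_nonneg _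
    have hψ1 : ψ ≤ 1 := by
      rw [hψ]
      refine Real.sqrt_le_one.2 ?_
      rw [div_le_one hm0]
      linarith
    have hΛm : 0 < Λ ^ β * m ^ ζ := by positivity
    have hΦm : Φ m = A * (R * r) * (2 - ψ) + B * (Λ ^ β * m ^ ζ) := rfl
    have h2 : RCov ρ ∅ (fun I => I ⊆ U ∧ Free k I) U (Real.exp f * Real.exp (Φ m - f)) Γ := by
      refine RCov.comp hρpos.le (fun I J hJI hI => ⟨hJI.trans hI.1, free_mono hJI hI.2⟩) h1
        (Real.exp_pos _).le ?_
      intro C hC hCm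
      by_cases hCΓ : (C.card : ℝ) ≤ Γ
      · refine (RCov.one (ρ := ρ) (F := ∅) (P := fun I => I ⊆ C) (Subset.refl C)
          (disjoint_empty_left _) hCΓ (fun I _ hI => by rwa [empty_union])).mono
          (fun I _ hI => hI.1) ?_ le_rfl
        refine Real.one_le_exp ?_
        rw [hΦm, hf]
        have h3 : c * (R * r * ψ) ≤ A * (R * r) * (2 - ψ) := by
          have h4 : R * r * ψ ≤ R * r * (2 - ψ) :=
            mul_le_mul_of_nonneg_left (by linarith) (by positivity)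
          have h5 : 0 ≤ R * r * (2 - ψ) := by
            have : 0 ≤ 2 - ψ := by linarith
            positivity
          calc c * (R * r * ψ) ≤ c * (R * r * (2 - ψ)) := mul_le_mul_of_nonneg_left h4 hc.le
            _ ≤ A * (R * r * (2 - ψ)) := mul_le_mul_of_nonneg_right hAc h5
            _ = _ := by ring
        have h6 : c * (Λ ^ β * m ^ ζ) ≤ B * (Λ ^ β * m ^ ζ) :=
          mul_le_mul_of_nonneg_right hBc hΛm.le
        linarith
      · push Not at hCΓ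
        set m' : ℝ := (C.card : ℝ) with hm'def
        have hm'0 : 0 < m' := hΓ0.trans hCΓ
        have hδ2 : 0 < 1 - δ := by
          by_contra h
          have h3 : (1 - δ) * m ≤ 0 := mul_nonpos_of_nonpos_of_nonneg (by linarith) hm0.le
          linarith
        have hlt : C.card < n := by
          rw [← hUn]
          have h3 : m' < m := by nlinarith
          rw [hm'def, hmdef] at h3
          exact_mod_cast h3
        have h3 := ih C.card hlt C rfl (hC.trans hU) hCΓ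
        refine h3.mono (fun I _ hI => ⟨hI.1, hI.2.2⟩) (Real.exp_le_exp.2 ?_) le_rfl
        rw [hΦm, hf]
        have hΦm' : Φ m' = A * (R * r) * (2 - Real.sqrt (Γ / m')) + B * (Λ ^ β * m' ^ ζ) := rfl
        rw [hΦm']
        set ψ' : ℝ := Real.sqrt (Γ / m') with hψ'
        have h4 : (1 + δ / 2) * ψ ≤ ψ' := by
          rw [hψ']
          refine Real.le_sqrt_of_sq_le ?_
          rw [mul_pow, hψ, Real.sq_sqrt (by positivity), ← mul_div_assoc,
            div_le_div_iff₀ hm0 hm'0]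
          have hδ3 : 0 < δ * δ := mul_pos hδ0 hδ0
          have hδ4 : 0 < δ * δ * δ := mul_pos hδ3 hδ0
          have h5 : (1 + δ / 2) ^ 2 * (1 - δ) ≤ 1 := by nlinarith
          calc (1 + δ / 2) ^ 2 * Γ * m' ≤ (1 + δ / 2) ^ 2 * Γ * ((1 - δ) * m) :=
                mul_le_mul_of_nonneg_left hCm (by positivity)
            _ = ((1 + δ / 2) ^ 2 * (1 - δ)) * (Γ * m) := by ring
            _ ≤ 1 * (Γ * m) := mul_le_mul_of_nonneg_right h5 (by positivity)
            _ = Γ * m := one_mul _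
        have h6 : c * (R * r * ψ) ≤ A * (R * r) * (ψ' - ψ) := by
          have h7 : δ / 2 * ψ ≤ ψ' - ψ := by linarith
          calc c * (R * r * ψ) = A * (R * r) * (δ / 2 * ψ) := by
                rw [hA]
                field_simp
            _ ≤ A * (R * r) * (ψ' - ψ) := mul_le_mul_of_nonneg_left h7 (by positivity)
        have h8 : m' ^ ζ ≤ (1 - δ) ^ ζ * m ^ ζ := by
          rw [← Real.mul_rpow hδ2.le hm0.le]
          exact Real.rpow_le_rpow hm'0.le hCm hζ0.le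
        have h9 : B * (Λ ^ β * m' ^ ζ) + c * (Λ ^ β * m ^ ζ) ≤ B * (Λ ^ β * m ^ ζ) := by
          have h10 : B * (1 - (1 - δ) ^ ζ) = c := by
            rw [hB]
            field_simp
          have h11 : B * (Λ ^ β * m' ^ ζ) ≤ B * (Λ ^ β * ((1 - δ) ^ ζ * m ^ ζ)) :=
            mul_le_mul_of_nonneg_left (mul_le_mul_of_nonneg_left h8 (by positivity)) hB0.le
          have h12 : B * (Λ ^ β * ((1 - δ) ^ ζ * m ^ ζ)) + c * (Λ ^ β * m ^ ζ) =
              B * (Λ ^ β * m ^ ζ) := by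
            rw [← h10]
            ring
          linarith
        linarith
    rw [← Real.exp_add, add_sub_cancel] at h2
    exact h2
  have h24 : 0 < Real.sqrt (24 * k) := Real.sqrt_pos.2 (by positivity)
  have hΛN : Λ ≤ 24 * k * N := by
    rw [hΛ]
    nlinarith
  have hRr : R * r ≤ Real.sqrt (24 * k) * Real.sqrt (ρ * N) := by
    rw [hR, hr, ← Real.sqrt_mul hΛ0.le, ← Real.sqrt_mul (by positivity)]
    refine Real.sqrt_le_sqrt ?_
    calc Λ * ρ ≤ (24 * k * N) * ρ := mul_le_mul_of_nonneg_right hΛN hρpos.le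
      _ = 24 * k * (ρ * N) := by ring
  have hΓle : Γ ≤ Real.sqrt (24 * k) * Real.sqrt (N / ρ) := by
    rw [hΓ, hR, hr, ← Real.sqrt_div' _ hρpos.le, ← Real.sqrt_mul (by positivity)]
    refine Real.sqrt_le_sqrt ?_
    calc Λ / ρ ≤ (24 * k * N) / ρ := div_le_div_of_nonneg_right hΛN hρpos.le
      _ = 24 * k * (N / ρ) := by ring
  have hs1 : 0 ≤ Real.sqrt (ρ * N) := Real.sqrt_nonneg _
  have hs2 : 0 ≤ Real.sqrt (N / ρ) := Real.sqrt_nonneg _
  have hγ : Γ ≤ Real.sqrt (24 * k) * (2 * A + B + 1) * Real.sqrt (N / ρ) := by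
    refine hΓle.trans ?_
    refine mul_le_mul_of_nonneg_right ?_ hs2
    exact le_mul_of_one_le_right h24.le (by linarith)
  by_cases hbig : ((range (N + 1)).card : ℝ) ≤ Γ
  · refine (RCov.one (ρ := ρ) (F := ∅) (P := fun I => I ⊆ range (N + 1)) (Subset.refl _)
      (disjoint_empty_left _) hbig (fun I _ hI => by rwa [empty_union])).mono
      (fun I _ hI => hI.1) ?_ hγ
    exact Real.one_le_exp (by positivity)
  · push Not at hbig
    refine (hmain _ (range (N + 1)) rfl (Subset.refl _) hbig).mono (fun I _ hI => hI) ?_ hγ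
    refine Real.exp_le_exp.2 ?_
    have hcard : ((range (N + 1)).card : ℝ) = N + 1 := by
      rw [card_range]
      push_cast
      rfl
    rw [hcard]
    have h1 : A * (R * r) * (2 - Real.sqrt (Γ / (N + 1))) ≤ (R * r) * (2 * A) := by
      have := Real.sqrt_nonneg (Γ / ((N : ℝ) + 1))
      have h2 : A * (R * r) * (2 - Real.sqrt (Γ / (N + 1))) ≤ A * (R * r) * 2 :=
        mul_le_mul_of_nonneg_left (by linarith) (by positivity)
      linarith
    have h2 : B * (Λ ^ β * ((N : ℝ) + 1) ^ ζ) ≤ (R * r) * B := by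
      have h3 : ((N : ℝ) + 1) ^ ζ ≤ Λ ^ ζ :=
        Real.rpow_le_rpow (by positivity) hNΛ hζ0.le
      have h4 : Λ ^ β * ((N : ℝ) + 1) ^ ζ ≤ R * r := by
        calc Λ ^ β * ((N : ℝ) + 1) ^ ζ ≤ Λ ^ β * Λ ^ ζ :=
              mul_le_mul_of_nonneg_left h3 (by positivity)
          _ = Λ ^ (β + ζ) := (Real.rpow_add hΛ0 _ _).symm
          _ ≤ R * r := hdens
      rw [mul_comm (R * r) B]
      exact mul_le_mul_of_nonneg_left h4 hB0.le
    have h7 : Φ ((N : ℝ) + 1) = A * (R * r) * (2 - Real.sqrt (Γ / (N + 1))) +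
        B * (Λ ^ β * ((N : ℝ) + 1) ^ ζ) := rfl
    rw [h7]
    calc A * (R * r) * (2 - Real.sqrt (Γ / (N + 1))) + B * (Λ ^ β * ((N : ℝ) + 1) ^ ζ)
        ≤ (R * r) * (2 * A + B) := by linarith
      _ ≤ (Real.sqrt (24 * k) * Real.sqrt (ρ * N)) * (2 * A + B) :=
          mul_le_mul_of_nonneg_right hRr (by positivity)
      _ = Real.sqrt (24 * k) * (2 * A + B) * Real.sqrt (ρ * N) := by ring
      _ ≤ Real.sqrt (24 * k) * (2 * A + B + 1) * Real.sqrt (ρ * N) := by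
          refine mul_le_mul_of_nonneg_right ?_ hs1
          exact mul_le_mul_of_nonneg_left (by linarith) h24.le

end Pool.Agent.Y940.CT
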