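import Pool.Agent.Y940.CT.Iter
/-!
# Subsets of random sets with bounded representation function
-/

set_option autoImplicit false

open Finset Filter MeasureTheory ProbabilityTheory

namespace Pool.Agent.Y940.CT

open Pool.Agent.Y940.RS (pairs mem_pairs rep rep_finite two_mul_le_rep rset)

variable {Ω : Type*} [MeasurableSpace Ω]

/-- every finite set is contained in the random set with probability at most the product of the
`p n` -/
def Sub (μ : Measure Ω) (E : ℕ → Set Ω) (p : ℕ → ℝ) : Prop :=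
  (∀ n, 0 ≤ p n) ∧ ∀ T : Finset ℕ, μ.real (⋂ n ∈ T, E n) ≤ ∏ n ∈ T, p n

/-- `B` is a finite subset of the random set between `M` and `N`, without `k` pairs of the same sum,
with at least `t` elements -/
def Bad (E : ℕ → Set Ω) (k M N t : ℕ) : Set Ω :=
  {ω | ∃ B : Finset ℕ, (∀ n ∈ B, M < n ∧ n ≤ N ∧ ω ∈ E n) ∧ Free k B ∧ t ≤ B.card}

theorem prob_bound (k : ℕ) (hk : 1 ≤ k) : ∃ C : ℝ, 0 < C ∧ ∀ N : ℕ, 1 ≤ N →
    ∀ {Ω : Type*} [MeasurableSpace Ω] (μ : Measure Ω) [IsProbabilityMeasure μ] (E : ℕ → Set Ω)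
      (p : ℕ → ℝ), Sub μ E p → ∀ (M t : ℕ) (ε : ℝ), 0 ≤ ε →
      (∀ n, M < n → n ≤ N → p n ≤ ε) →
      μ.real (Bad E k M N t) ≤ Real.exp (C * Real.sqrt N) * ε ^ t := by
  classical
  obtain ⟨C, hC, hcov⟩ := bounded_containers k hk
  refine ⟨2 * C, by positivity, ?_⟩
  intro N hN Ω _ μ _ E p hE M t ε hε hp
  obtain ⟨𝒞, h1, h2, h3⟩ := hcov N hN
  set 𝒮 : Finset (Finset ℕ) :=
    𝒞.biUnion fun C => (C.filter fun n => M < n).powersetCard t with hS
  have hsub : Bad E k M N t ⊆ ⋃ S ∈ 𝒮, ⋂ n ∈ S, E n := by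
    rintro ω ⟨B, hB1, hB2, hB3⟩
    obtain ⟨D, hD, hBD⟩ := h3 B ⟨fun n hn => by
      rw [mem_range]
      have := (hB1 n hn).2.1
      omega, hB2⟩
    obtain ⟨S, hS1, hS2⟩ := exists_subset_card_eq hB3
    rw [Set.mem_iUnion₂]
    refine ⟨S, ?_, ?_⟩
    · rw [hS, mem_biUnion]
      refine ⟨D, hD, ?_⟩
      rw [mem_powersetCard]
      refine ⟨fun n hn => ?_, hS2⟩
      rw [mem_filter]
      exact ⟨hBD (hS1 hn), (hB1 n (hS1 hn)).1⟩
    · rw [Set.mem_iInter₂]
      intro n hn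
      exact (hB1 n (hS1 hn)).2.2
  have hterm : ∀ S ∈ 𝒮, μ.real (⋂ n ∈ S, E n) ≤ ε ^ t := by
    intro S hSm
    rw [hS, mem_biUnion] at hSm
    obtain ⟨D, hD, hSD⟩ := hSm
    obtain ⟨h4, h5⟩ := mem_powersetCard.1 hSD
    refine (hE.2 S).trans ?_
    rw [← h5, ← prod_const]
    refine prod_le_prod (fun n _ => hE.1 n) fun n hn => ?_
    obtain ⟨h6, h7⟩ := mem_filter.1 (h4 hn)
    have h8 := mem_range.1 ((h2 D hD).1 h6)
    exact hp n h7 (by omega)
  have hcard : (𝒮.card : ℝ) ≤ Real.exp (2 * C * Real.sqrt N) := by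
    have h4 : 𝒮.card ≤ ∑ D ∈ 𝒞, ((D.filter fun n => M < n).powersetCard t).card := by
      rw [hS]
      exact card_biUnion_le
    have h5 : (𝒮.card : ℝ) ≤ ∑ D ∈ 𝒞, (((D.filter fun n => M < n).powersetCard t).card : ℝ) := by
      exact_mod_cast h4
    have h6 : ∑ D ∈ 𝒞, (((D.filter fun n => M < n).powersetCard t).card : ℝ) ≤
        ∑ _D ∈ 𝒞, Real.exp (C * Real.sqrt N) := by
      refine sum_le_sum fun D hD => ?_
      have h7 : ((D.filter fun n => M < n).powersetCard t).card ≤ 2 ^ D.card := by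
        rw [card_powersetCard]
        calc ((D.filter fun n => M < n).card).choose t ≤ 2 ^ (D.filter fun n => M < n).card :=
              Nat.choose_le_two_pow _ _
          _ ≤ 2 ^ D.card := Nat.pow_le_pow_right (by norm_num) (card_filter_le _ _)
      have h8 : ((((D.filter fun n => M < n).powersetCard t).card : ℕ) : ℝ) ≤ (2 : ℝ) ^ D.card := by
        exact_mod_cast h7
      refine h8.trans ?_
      calc (2 : ℝ) ^ D.card ≤ (Real.exp 1) ^ D.card := by
            refine pow_le_pow_left₀ (by norm_num) ?_ _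
            have := Real.add_one_le_exp (1 : ℝ)
            linarith
        _ = Real.exp D.card := by
            rw [← Real.exp_nat_mul, mul_one]
        _ ≤ Real.exp (C * Real.sqrt N) := Real.exp_le_exp.2 (h2 D hD).2
    rw [sum_const, nsmul_eq_mul] at h6
    refine (h5.trans h6).trans ?_
    calc (𝒞.card : ℝ) * Real.exp (C * Real.sqrt N)
        ≤ Real.exp (C * Real.sqrt N) * Real.exp (C * Real.sqrt N) :=
          mul_le_mul_of_nonneg_right h1 (Real.exp_pos _).le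
      _ = Real.exp (2 * C * Real.sqrt N) := by
          rw [← Real.exp_add]
          congr 1
          ring
  calc μ.real (Bad E k M N t) ≤ μ.real (⋃ S ∈ 𝒮, ⋂ n ∈ S, E n) :=
        measureReal_mono hsub (measure_ne_top _ _)
    _ ≤ ∑ S ∈ 𝒮, μ.real (⋂ n ∈ S, E n) := measureReal_biUnion_finset_le _ _
    _ ≤ ∑ _S ∈ 𝒮, ε ^ t := sum_le_sum hterm
    _ = 𝒮.card * ε ^ t := by rw [sum_const, nsmul_eq_mul]
    _ ≤ _ := mul_le_mul_of_nonneg_right hcard (by positivity)

theorem exp_sqrt_le {N : ℕ} (hN : 1 ≤ N) : Real.exp (-Real.sqrt N) ≤ 24 * (1 / (N : ℝ) ^ 2) := by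
  have hN1 : (1 : ℝ) ≤ N := by exact_mod_cast hN
  have h1 := Real.pow_div_factorial_le_exp (Real.sqrt N) (Real.sqrt_nonneg _) 4
  have h2 : Real.sqrt N ^ 4 = (N : ℝ) ^ 2 := by
    rw [show (4 : ℕ) = 2 * 2 by norm_num, pow_mul, Real.sq_sqrt (by linarith)]
  have h3 : ((Nat.factorial 4 : ℕ) : ℝ) = 24 := by norm_num [Nat.factorial]
  rw [h2, h3] at h1
  rw [Real.exp_neg, inv_le_comm₀ (Real.exp_pos _) (by positivity)]
  refine le_trans (le_of_eq ?_) h1
  field_simp

/-- **The almost sure bound.** -/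
theorem ae_bound (k : ℕ) (hk : 1 ≤ k) : ∃ C : ℝ, 0 < C ∧
    ∀ {Ω : Type*} [MeasurableSpace Ω] (μ : Measure Ω) [IsProbabilityMeasure μ] (E : ℕ → Set Ω)
      (p : ℕ → ℝ), Sub μ E p → ∀ (M t : ℕ → ℕ) (l : ℕ → ℝ),
      (∀ᶠ N : ℕ in atTop, (∀ n, M N < n → n ≤ N → p n ≤ Real.exp (-l N)) ∧
        C * Real.sqrt N ≤ t N * l N) →
      ∀ᵐ ω ∂μ, ∀ᶠ N : ℕ in atTop, ∀ B : Finset ℕ, (∀ n ∈ B, n ≤ N ∧ ω ∈ E n) → Free k B →
        B.card < t N + M N + 1 := by
  classical
  obtain ⟨C, hC, hprob⟩ := prob_bound k hk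
  refine ⟨C + 1, by positivity, ?_⟩
  intro Ω _ μ _ E p hE M t l hev
  obtain ⟨N₀, hN₀⟩ := eventually_atTop.1 hev
  set s : ℕ → Set Ω := fun N => if N₀ + 1 ≤ N then Bad E k (M N) N (t N) else ∅ with hs
  have hle : ∀ N, μ (s N) ≤ ENNReal.ofReal (24 * (1 / (N : ℝ) ^ 2)) := by
    intro N
    rw [hs]
    simp only
    split_ifs with h
    · rw [ENNReal.le_ofReal_iff_toReal_le (measure_ne_top _ _) (by positivity)]
      obtain ⟨h1, h2⟩ := hN₀ N (by omega)
      refine le_trans ?_ (exp_sqrt_le (by omega))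
      refine (hprob N (by omega) μ E p hE (M N) (t N) _ (Real.exp_pos _).le h1).trans ?_
      rw [← Real.exp_nat_mul, ← Real.exp_add]
      refine Real.exp_le_exp.2 ?_
      linarith
    · simp
  have hfin : ∑' N, μ (s N) ≠ ⊤ := by
    have h1 : Summable fun N : ℕ => 24 * (1 / (N : ℝ) ^ 2) :=
      (Real.summable_one_div_nat_pow.2 (by norm_num)).mul_left 24
    exact ne_top_of_le_ne_top h1.tsum_ofReal_ne_top (ENNReal.tsum_le_tsum hle)
  filter_upwards [ae_eventually_notMem hfin] with ω hω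
  filter_upwards [hω, eventually_ge_atTop (N₀ + 1)] with N h1 h2 B hB hF
  by_contra hcard
  push Not at hcard
  refine h1 ?_
  rw [hs]
  simp only
  rw [if_pos h2]
  refine ⟨B.filter fun n => M N < n, ?_, ?_, ?_⟩
  · intro n hn
    obtain ⟨h3, h4⟩ := mem_filter.1 hn
    exact ⟨h4, hB n h3⟩
  · intro σ
    refine lt_of_le_of_lt (card_le_card ?_) (hF σ)
    intro a ha
    rw [mem_pairs] at ha ⊢
    exact ⟨(mem_filter.1 ha.1).1, ha.2.1, (mem_filter.1 ha.2.2).1⟩
  · have h3 := card_filter_add_card_filter_not (s := B) (fun n => M N < n)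
    have h4 : (B.filter fun n => ¬ M N < n).card ≤ M N + 1 := by
      rw [← card_range (M N + 1)]
      refine card_le_card fun n hn => ?_
      rw [mem_range]
      have := (mem_filter.1 hn).2
      omega
    omega

/-- the number of elements up to `N` -/
noncomputable def count (B : Set ℕ) (N : ℕ) : ℝ := ((B ∩ Set.Icc 1 N).ncard : ℝ)

open Classical in
/-- the finite segment -/
noncomputable def seg (B : Set ℕ) (N : ℕ) : Finset ℕ := (Icc 1 N).filter fun n => n ∈ B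

theorem count_eq (B : Set ℕ) (N : ℕ) : count B N = (seg B N).card := by
  classical
  unfold count seg
  rw [← Set.ncard_coe_finset]
  congr 2
  ext n
  simp only [Set.mem_inter_iff, Set.mem_Icc, coe_filter, mem_Icc, Set.mem_ofPred_eq]
  tauto

theorem free_seg {B : Set ℕ} {R : ℕ} (h : ∀ s, rep B s ≤ R) (N : ℕ) : Free (R + 1) (seg B N) := by
  classical
  intro σ
  have h1 := two_mul_le_rep B σ (pairs (seg B N) σ) (fun a ha => by
    obtain ⟨h1, h2, h3⟩ := mem_pairs.1 ha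
    exact ⟨(mem_filter.1 h1).2, (mem_filter.1 h3).2, h2⟩)
  have h2 := h σ
  omega

/-- **Sparse random sets contain no large sets with bounded representation function.** -/
theorem ae_count (R : ℕ) : ∃ C : ℝ, 0 < C ∧
    ∀ {Ω : Type*} [MeasurableSpace Ω] (μ : Measure Ω) [IsProbabilityMeasure μ] (E : ℕ → Set Ω)
      (p : ℕ → ℝ), Sub μ E p → ∀ c : ℝ, 0 < c →
      (∀ᶠ n : ℕ in atTop, p n ≤ Real.exp (-(C / c))) →
      ∀ᵐ ω ∂μ, ∀ B : Set ℕ, B ⊆ rset E ω → (∀ s, rep B s ≤ R) →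
        ∀ᶠ N : ℕ in atTop, count B N < c * Real.sqrt N := by
  classical
  obtain ⟨C, hC, hae⟩ := ae_bound (R + 1) (by omega)
  refine ⟨4 * C, by positivity, ?_⟩
  intro Ω _ μ _ E p hE c hc hp
  obtain ⟨n₀, hn₀⟩ := eventually_atTop.1 hp
  have h1 := hae μ E p hE (fun _ => n₀) (fun N => ⌈c / 4 * Real.sqrt N⌉₊) (fun _ => 4 * C / c) ?_
  · have hlim : Tendsto (fun N : ℕ => Real.sqrt N) atTop atTop :=
      Real.tendsto_sqrt_atTop.comp tendsto_natCast_atTop_atTop
    filter_upwards [h1] with ω hω B hB hR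
    filter_upwards [hω, hlim.eventually_ge_atTop ((n₀ + 3) / (c / 4))] with N h2 h3
    have h4 := h2 (seg B N) (fun n hn => by
      obtain ⟨h5, h6⟩ := mem_filter.1 hn
      exact ⟨(mem_Icc.1 h5).2, hB h6⟩) (free_seg hR N)
    rw [count_eq]
    rw [div_le_iff₀ (by positivity)] at h3
    have h5 := Nat.ceil_lt_add_one (show 0 ≤ c / 4 * Real.sqrt N by positivity)
    have h6 : ((seg B N).card : ℝ) < ⌈c / 4 * Real.sqrt N⌉₊ + n₀ + 1 := by exact_mod_cast h4
    have h7 : 0 ≤ c * Real.sqrt N := by positivity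
    have h8 : (0 : ℝ) ≤ n₀ := Nat.cast_nonneg _
    linarith
  · filter_upwards [eventually_ge_atTop 0] with N _
    refine ⟨fun n hn _ => hn₀ n (by omega), ?_⟩
    have h5 := Nat.le_ceil (c / 4 * Real.sqrt N)
    calc C * Real.sqrt N = (c / 4 * Real.sqrt N) * (4 * C / c) := by
          field_simp
      _ ≤ _ := mul_le_mul_of_nonneg_right h5 (by positivity)

end Pool.Agent.Y940.CT
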