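import Pool.Agent.Y940.CT.Iter2
import Pool.Agent.Y940.CT.Prob
/-!
# Subsets of random sets with bounded representation function: the sharp density
-/

set_option autoImplicit false

open Finset Filter MeasureTheory ProbabilityTheory

namespace Pool.Agent.Y940.CT

open Pool.Agent.Y940.RS (pairs mem_pairs rep rep_finite two_mul_le_rep rset)

theorem choose_mul_pow_le {ρ : ℝ} (hρ : 0 ≤ ρ) (c j : ℕ) :
    (c.choose j : ℝ) * ρ ^ j ≤ (1 + ρ) ^ c := by
  by_cases hj : j ≤ c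
  · rw [add_comm, add_pow]
    refine le_trans (le_of_eq ?_) (single_le_sum (f := fun m => ρ ^ m * 1 ^ (c - m) *
      (c.choose m : ℝ)) (fun m _ => by positivity) (mem_range.2 (by omega : j < c + 1)))
    simp only [one_pow, mul_one]
    ring
  · rw [Nat.choose_eq_zero_of_lt (by omega)]
    push_cast
    rw [zero_mul]
    positivity

theorem rprob_bound (k : ℕ) (hk : 1 ≤ k) : ∃ C : ℝ, 0 < C ∧ ∀ N : ℕ, 1 ≤ N →
    ∀ {Ω : Type*} [MeasurableSpace Ω] (μ : Measure Ω) [IsProbabilityMeasure μ] (E : ℕ → Set Ω)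
      (p : ℕ → ℝ), Sub μ E p → ∀ (M t : ℕ) (ϖ : ℝ), (N : ℝ) ^ (-(1 / (4 * (k : ℝ)))) ≤ ϖ →
      ϖ ≤ 1 / 3 → (∀ n, M < n → n ≤ N → p n ≤ ϖ) →
      μ.real (Bad E k M N t) ≤ Real.exp (C * Real.sqrt (ϖ * N) - t) := by
  classical
  obtain ⟨C, hC, hcov⟩ := rbounded_containers k hk
  refine ⟨4 * C, by positivity, ?_⟩
  intro N hN Ω _ μ _ E p hE M t ϖ hϖ1 hϖ2 hp
  have hN1 : (1 : ℝ) ≤ N := by exact_mod_cast hN
  have hϖ0 : 0 < ϖ := lt_of_lt_of_le (by positivity) hϖ1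
  set e : ℝ := Real.exp 1 with he
  have he0 : 0 < e := Real.exp_pos 1
  have he3 : e < 3 := lt_trans Real.exp_one_lt_d9 (by norm_num)
  have he1 : 1 ≤ e := by
    have := Real.add_one_le_exp (1 : ℝ)
    linarith
  set ρ : ℝ := e * ϖ with hρ
  have hρ0 : 0 < ρ := by positivity
  have hρ1 : ρ ≤ 1 := by
    rw [hρ]
    nlinarith
  have hρN : (N : ℝ) ^ (-(1 / (4 * (k : ℝ)))) ≤ ρ := by
    refine hϖ1.trans ?_
    rw [hρ]
    exact le_mul_of_one_le_left hϖ0.le he1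
  obtain ⟨ι, s, T, D, h1, h2, h3⟩ := hcov N hN ρ hρN hρ1
  set s' : Finset ι := s.filter fun i => ∀ n ∈ T i, M < n ∧ n ≤ N with hs'
  set S : ι → Finset (Finset ℕ) := fun i =>
    ((D i).filter fun n => M < n).powersetCard (t - (T i).card) with hS
  have hsub : Bad E k M N t ⊆ ⋃ i ∈ s', ⋃ A ∈ S i, ⋂ n ∈ T i ∪ A, E n := by
    rintro ω ⟨B, hB1, hB2, hB3⟩
    obtain ⟨i, hi, hTB, hBT⟩ := h3 B (empty_subset _) ⟨fun n hn => by
      rw [mem_range]
      have := (hB1 n hn).2.1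
      omega, hB2⟩
    have h4 : t - (T i).card ≤ (B \ T i).card := by
      rw [card_sdiff_of_subset hTB]
      omega
    obtain ⟨A, hA1, hA2⟩ := exists_subset_card_eq h4
    rw [Set.mem_iUnion₂]
    refine ⟨i, ?_, ?_⟩
    · rw [hs', mem_filter]
      exact ⟨hi, fun n hn => ⟨(hB1 n (hTB hn)).1, (hB1 n (hTB hn)).2.1⟩⟩
    · rw [Set.mem_iUnion₂]
      refine ⟨A, ?_, ?_⟩
      · rw [hS, mem_powersetCard]
        refine ⟨fun n hn => ?_, hA2⟩
        obtain ⟨h5, h6⟩ := mem_sdiff.1 (hA1 hn)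
        rw [mem_filter]
        refine ⟨?_, (hB1 n h5).1⟩
        rcases mem_union.1 (hBT h5) with h7 | h7
        · exact absurd h7 h6
        · exact h7
      · rw [Set.mem_iInter₂]
        intro n hn
        rcases mem_union.1 hn with h5 | h5
        · exact (hB1 n (hTB h5)).2.2
        · exact (hB1 n (mem_sdiff.1 (hA1 h5)).1).2.2
  have hterm : ∀ i ∈ s', ∀ A ∈ S i, μ.real (⋂ n ∈ T i ∪ A, E n) ≤
      ϖ ^ ((T i).card + (t - (T i).card)) := by
    intro i hi A hA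
    rw [hs', mem_filter] at hi
    rw [hS] at hA
    obtain ⟨h4, h5⟩ := mem_powersetCard.1 hA
    obtain ⟨_, _, h6, h7, _⟩ := h2 i hi.1
    have hdisj : Disjoint (T i) A :=
      disjoint_of_subset_right (h4.trans (filter_subset _ _)) h7
    refine (hE.2 _).trans ?_
    rw [← h5, ← card_union_of_disjoint hdisj, ← prod_const]
    refine prod_le_prod (fun n _ => hE.1 n) fun n hn => ?_
    rcases mem_union.1 hn with h8 | h8
    · exact hp n (hi.2 n h8).1 (hi.2 n h8).2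
    · obtain ⟨h9, h10⟩ := mem_filter.1 (h4 h8)
      have h11 := mem_range.1 (h6 h9)
      exact hp n h10 (by omega)
  have hexp : ∀ a : ℕ, ϖ ^ (a + (t - a)) ≤ ρ ^ a * ρ ^ (t - a) * Real.exp (-(t : ℝ)) := by
    intro a
    have h4 : ϖ = ρ * Real.exp (-1) := by
      rw [hρ, he, mul_comm (Real.exp 1) ϖ, mul_assoc, ← Real.exp_add]
      norm_num
    rw [h4, mul_pow, pow_add, ← Real.exp_nat_mul]
    refine mul_le_mul_of_nonneg_left ?_ (by positivity)
    refine Real.exp_le_exp.2 ?_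
    have h5 : (t : ℝ) ≤ ((a + (t - a) : ℕ) : ℝ) := by exact_mod_cast (by omega : t ≤ a + (t - a))
    linarith
  have hinner : ∀ i ∈ s', ∑ A ∈ S i, μ.real (⋂ n ∈ T i ∪ A, E n) ≤
      ρ ^ (T i \ ∅).card * (Real.exp (C * Real.sqrt (ρ * N)) * Real.exp (-(t : ℝ))) := by
    intro i hi
    have hi' := hi
    rw [hs', mem_filter] at hi'
    refine (sum_le_sum (hterm i hi)).trans ?_
    rw [sum_const, nsmul_eq_mul, sdiff_empty]
    have h4 : ((S i).card : ℝ) * ρ ^ (t - (T i).card) ≤ Real.exp (C * Real.sqrt (ρ * N)) := by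
      rw [hS]
      simp only
      rw [card_powersetCard]
      refine (choose_mul_pow_le hρ0.le _ _).trans ?_
      calc (1 + ρ) ^ ((D i).filter fun n => M < n).card ≤ (1 + ρ) ^ (D i).card :=
            pow_le_pow_right₀ (by linarith) (card_filter_le _ _)
        _ ≤ (Real.exp ρ) ^ (D i).card := by
            refine pow_le_pow_left₀ (by linarith) ?_ _
            have := Real.add_one_le_exp ρ
            linarith
        _ = Real.exp ((D i).card * ρ) := by rw [← Real.exp_nat_mul]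
        _ ≤ Real.exp (C * Real.sqrt (ρ * N)) := by
            refine Real.exp_le_exp.2 ?_
            have h5 := (h2 i hi'.1).2.2.2.2
            calc ((D i).card : ℝ) * ρ ≤ (C * Real.sqrt (N / ρ)) * ρ :=
                  mul_le_mul_of_nonneg_right h5 hρ0.le
              _ = C * Real.sqrt (ρ * N) := by
                  have h6 : Real.sqrt (ρ * N) = Real.sqrt (N / ρ) * ρ := by
                    have h7 : ρ * N = (N / ρ) * ρ ^ 2 := by
                      field_simp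
                    rw [h7, Real.sqrt_mul (by positivity), Real.sqrt_sq hρ0.le]
                  rw [h6]
                  ring
    calc ((S i).card : ℝ) * ϖ ^ ((T i).card + (t - (T i).card))
        ≤ (S i).card * (ρ ^ (T i).card * ρ ^ (t - (T i).card) * Real.exp (-(t : ℝ))) :=
          mul_le_mul_of_nonneg_left (hexp _) (Nat.cast_nonneg _)
      _ = ρ ^ (T i).card * ((((S i).card : ℝ) * ρ ^ (t - (T i).card)) * Real.exp (-(t : ℝ))) := by
          ring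
      _ ≤ ρ ^ (T i).card * (Real.exp (C * Real.sqrt (ρ * N)) * Real.exp (-(t : ℝ))) := by
          refine mul_le_mul_of_nonneg_left ?_ (by positivity)
          exact mul_le_mul_of_nonneg_right h4 (Real.exp_pos _).le
  have hnn : 0 ≤ Real.exp (C * Real.sqrt (ρ * N)) * Real.exp (-(t : ℝ)) := by positivity
  have hsum : ∑ i ∈ s', ρ ^ (T i \ ∅).card ≤ Real.exp (C * Real.sqrt (ρ * N)) :=
    (sum_le_sum_of_subset_of_nonneg (filter_subset _ _) fun i _ _ => by positivity).trans h1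
  have hsqrt : Real.sqrt (ρ * N) ≤ 2 * Real.sqrt (ϖ * N) := by
    have h4 : ρ * N ≤ 2 ^ 2 * (ϖ * N) := by
      rw [hρ]
      have : 0 ≤ ϖ * N := by positivity
      nlinarith
    calc Real.sqrt (ρ * N) ≤ Real.sqrt (2 ^ 2 * (ϖ * N)) := Real.sqrt_le_sqrt h4
      _ = 2 * Real.sqrt (ϖ * N) := by
          rw [Real.sqrt_mul (by norm_num), Real.sqrt_sq (by norm_num)]
  calc μ.real (Bad E k M N t) ≤ μ.real (⋃ i ∈ s', ⋃ A ∈ S i, ⋂ n ∈ T i ∪ A, E n) :=
        measureReal_mono hsub (measure_ne_top _ _)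
    _ ≤ ∑ i ∈ s', μ.real (⋃ A ∈ S i, ⋂ n ∈ T i ∪ A, E n) := measureReal_biUnion_finset_le _ _
    _ ≤ ∑ i ∈ s', ∑ A ∈ S i, μ.real (⋂ n ∈ T i ∪ A, E n) :=
        sum_le_sum fun i _ => measureReal_biUnion_finset_le _ _
    _ ≤ ∑ i ∈ s', ρ ^ (T i \ ∅).card *
          (Real.exp (C * Real.sqrt (ρ * N)) * Real.exp (-(t : ℝ))) := sum_le_sum hinner
    _ = (∑ i ∈ s', ρ ^ (T i \ ∅).card) *
          (Real.exp (C * Real.sqrt (ρ * N)) * Real.exp (-(t : ℝ))) := by rw [sum_mul]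
    _ ≤ Real.exp (C * Real.sqrt (ρ * N)) *
          (Real.exp (C * Real.sqrt (ρ * N)) * Real.exp (-(t : ℝ))) :=
        mul_le_mul_of_nonneg_right hsum hnn
    _ = Real.exp (2 * C * Real.sqrt (ρ * N) - t) := by
        rw [← Real.exp_add, ← Real.exp_add]
        congr 1
        ring
    _ ≤ Real.exp (4 * C * Real.sqrt (ϖ * N) - t) := by
        refine Real.exp_le_exp.2 ?_
        have : 2 * C * Real.sqrt (ρ * N) ≤ 2 * C * (2 * Real.sqrt (ϖ * N)) :=
          mul_le_mul_of_nonneg_left hsqrt (by positivity)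
        linarith

theorem exp_pow_le {N : ℕ} (hN : 1 ≤ N) :
    Real.exp (-((N : ℝ) ^ (3 / 8 : ℝ))) ≤ 720 * (1 / (N : ℝ) ^ 2) := by
  have hN1 : (1 : ℝ) ≤ N := by exact_mod_cast hN
  have hN0 : (0 : ℝ) < N := by linarith
  have h1 := Real.pow_div_factorial_le_exp ((N : ℝ) ^ (3 / 8 : ℝ)) (by positivity) 6
  have h2 : (N : ℝ) ^ 2 ≤ ((N : ℝ) ^ (3 / 8 : ℝ)) ^ 6 := by
    rw [← Real.rpow_natCast ((N : ℝ) ^ (3 / 8 : ℝ)), ← Real.rpow_mul hN0.le, ← Real.rpow_natCast]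
    refine Real.rpow_le_rpow_of_exponent_le hN1 ?_
    norm_num
  have h3 : ((Nat.factorial 6 : ℕ) : ℝ) = 720 := by norm_num [Nat.factorial]
  rw [h3] at h1
  rw [Real.exp_neg, inv_le_comm₀ (Real.exp_pos _) (by positivity)]
  refine le_trans ?_ h1
  have h4 : (720 * (1 / (N : ℝ) ^ 2))⁻¹ = (N : ℝ) ^ 2 / 720 := by
    field_simp
  rw [h4]
  exact div_le_div_of_nonneg_right h2 (by norm_num)

theorem sqrt_ge {N k : ℕ} (hN : 1 ≤ N) (hk : 1 ≤ k) {ϖ : ℝ}
    (h : (N : ℝ) ^ (-(1 / (4 * (k : ℝ)))) ≤ ϖ) :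
    (N : ℝ) ^ (3 / 8 : ℝ) ≤ Real.sqrt (ϖ * N) := by
  have hN1 : (1 : ℝ) ≤ N := by exact_mod_cast hN
  have hN0 : (0 : ℝ) < N := by linarith
  have hk1 : (1 : ℝ) ≤ k := by exact_mod_cast hk
  refine Real.le_sqrt_of_sq_le ?_
  have h1 : ((N : ℝ) ^ (3 / 8 : ℝ)) ^ 2 = (N : ℝ) ^ (-(1 / 4 : ℝ)) * N := by
    rw [← Real.rpow_natCast, ← Real.rpow_mul hN0.le]
    nth_rewrite 3 [← Real.rpow_one (N : ℝ)]
    rw [← Real.rpow_add hN0]
    norm_num
  rw [h1]
  refine mul_le_mul_of_nonneg_right (le_trans ?_ h) hN0.le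
  refine Real.rpow_le_rpow_of_exponent_le hN1 ?_
  have : 1 / (4 * (k : ℝ)) ≤ 1 / 4 := by
    rw [div_le_div_iff₀ (by positivity) (by norm_num)]
    linarith
  linarith

/-- **The almost sure bound with the sharp density.** -/
theorem rae_bound (k : ℕ) (hk : 1 ≤ k) : ∃ C : ℝ, 0 < C ∧
    ∀ {Ω : Type*} [MeasurableSpace Ω] (μ : Measure Ω) [IsProbabilityMeasure μ] (E : ℕ → Set Ω)
      (p : ℕ → ℝ), Sub μ E p → ∀ (M : ℕ → ℕ) (ϖ : ℕ → ℝ),
      (∀ᶠ N : ℕ in atTop, (N : ℝ) ^ (-(1 / (4 * (k : ℝ)))) ≤ ϖ N ∧ ϖ N ≤ 1 / 3 ∧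
        ∀ n, M N < n → n ≤ N → p n ≤ ϖ N) →
      ∀ᵐ ω ∂μ, ∀ᶠ N : ℕ in atTop, ∀ B : Finset ℕ, (∀ n ∈ B, M N < n ∧ n ≤ N ∧ ω ∈ E n) →
        Free k B → (B.card : ℝ) < C * Real.sqrt (ϖ N * N) := by
  classical
  obtain ⟨C, hC, hprob⟩ := rprob_bound k hk
  refine ⟨C + 2, by positivity, ?_⟩
  intro Ω _ μ _ E p hE M ϖ hev
  obtain ⟨N₀, hN₀⟩ := eventually_atTop.1 hev
  set t : ℕ → ℕ := fun N => ⌈(C + 1) * Real.sqrt (ϖ N * N)⌉₊ with ht
  set s : ℕ → Set Ω := fun N => if N₀ + 1 ≤ N then Bad E k (M N) N (t N) else ∅ with hs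
  have hle : ∀ N, μ (s N) ≤ ENNReal.ofReal (720 * (1 / (N : ℝ) ^ 2)) := by
    intro N
    rw [hs]
    simp only
    split_ifs with h
    · rw [ENNReal.le_ofReal_iff_toReal_le (measure_ne_top _ _) (by positivity)]
      obtain ⟨h1, h2, h3⟩ := hN₀ N (by omega)
      refine le_trans ?_ (exp_pow_le (by omega))
      refine (hprob N (by omega) μ E p hE (M N) (t N) _ h1 h2 h3).trans ?_
      refine Real.exp_le_exp.2 ?_
      have h4 : (C + 1) * Real.sqrt (ϖ N * N) ≤ t N := Nat.le_ceil _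
      have h5 := sqrt_ge (by omega : 1 ≤ N) hk h1
      linarith
    · simp
  have hfin : ∑' N, μ (s N) ≠ ⊤ := by
    have h1 : Summable fun N : ℕ => 720 * (1 / (N : ℝ) ^ 2) :=
      (Real.summable_one_div_nat_pow.2 (by norm_num)).mul_left 720
    exact ne_top_of_le_ne_top h1.tsum_ofReal_ne_top (ENNReal.tsum_le_tsum hle)
  filter_upwards [ae_eventually_notMem hfin] with ω hω
  filter_upwards [hω, eventually_ge_atTop (N₀ + 1)] with N h1 h2 B hB hF
  by_contra hcard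
  push Not at hcard
  refine h1 ?_
  rw [hs]
  simp only
  rw [if_pos h2]
  refine ⟨B, hB, hF, ?_⟩
  have h3 := (hN₀ N (by omega)).1
  have hN1 : (1 : ℝ) ≤ N := by exact_mod_cast (by omega : 1 ≤ N)
  have h4 : 1 ≤ Real.sqrt (ϖ N * N) :=
    (Real.one_le_rpow hN1 (by norm_num)).trans (sqrt_ge (by omega : 1 ≤ N) hk h3)
  have h5 := Nat.ceil_lt_add_one (show 0 ≤ (C + 1) * Real.sqrt (ϖ N * N) by positivity)
  have h6 : (t N : ℝ) ≤ B.card := by
    have : (t N : ℝ) < (C + 1) * Real.sqrt (ϖ N * N) + 1 := h5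
    linarith
  exact_mod_cast h6

end Pool.Agent.Y940.CT
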