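import Pool.Agent.Y940.CT.Thresh
/-!
# Independent random sets with bounded representation function
-/

set_option autoImplicit false

open Finset Filter MeasureTheory ProbabilityTheory

namespace Pool.Agent.Y940.CT

open Pool.Agent.Y940.RS (pairs mem_pairs rep rep_finite rep_mono two_mul_le_rep rset KW cnt
  chebyshev)

/-- Independent events with given probabilities exist. -/
theorem exists_random (p : ℕ → ℝ) (h0 : ∀ n, 0 ≤ p n) (h1 : ∀ n, p n ≤ 1) :
    ∃ (Ω : Type) (_ : MeasurableSpace Ω) (μ : Measure Ω) (_ : IsProbabilityMeasure μ)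
      (E : ℕ → Set Ω), (∀ n, MeasurableSet (E n)) ∧ iIndepSet E μ ∧ ∀ n, μ.real (E n) = p n := by
  classical
  set ν : ℕ → Measure Bool := fun n => ENNReal.ofReal (p n) • Measure.dirac true +
    ENNReal.ofReal (1 - p n) • Measure.dirac false with hν
  have hprob : ∀ n, IsProbabilityMeasure (ν n) := by
    intro n
    refine ⟨?_⟩
    rw [hν]
    simp only [Measure.add_apply, Measure.smul_apply, smul_eq_mul, measure_univ, mul_one]
    rw [← ENNReal.ofReal_add (h0 n) (by linarith [h1 n])]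
    simp
  have htrue : ∀ n, ν n {true} = ENNReal.ofReal (p n) := by
    intro n
    rw [hν]
    simp
  set E : ℕ → Set (ℕ → Bool) := fun n => {ω | ω n = true} with hE
  have hEm : ∀ n, MeasurableSet (E n) := fun n =>
    measurableSet_eq_fun (measurable_pi_apply n) measurable_const
  have hfin : ∀ s : Finset ℕ, Measure.infinitePi ν (⋂ n ∈ s, E n) =
      ∏ n ∈ s, ENNReal.ofReal (p n) := by
    intro s
    have h2 : ⋂ n ∈ s, E n = Set.pi s (fun _ => ({true} : Set Bool)) := by
      ext ω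
      simp only [hE, Set.mem_iInter, Set.mem_ofPred_eq, Set.mem_pi, mem_coe, Set.mem_singleton_iff]
    rw [h2, Measure.infinitePi_pi (μ := ν) (fun _ _ => MeasurableSet.singleton _)]
    exact prod_congr rfl fun n _ => htrue n
  have hone : ∀ n, Measure.infinitePi ν (E n) = ENNReal.ofReal (p n) := by
    intro n
    have := hfin {n}
    simpa using this
  refine ⟨ℕ → Bool, inferInstance, Measure.infinitePi ν, inferInstance, E, hEm, ?_, ?_⟩
  · rw [iIndepSet_iff_meas_biInter hEm]
    intro s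
    rw [hfin s]
    exact prod_congr rfl fun n _ => (hone n).symm
  · intro n
    rw [measureReal_def, hone n, ENNReal.toReal_ofReal (h0 n)]

/-- elementary symmetric functions -/
theorem esymm_le (x : ℕ → ℝ) (hx : ∀ a, 0 ≤ x a) (P : Finset ℕ) :
    ∀ K : ℕ, ∑ T ∈ P.powersetCard K, ∏ a ∈ T, x a ≤ (∑ a ∈ P, x a) ^ K := by
  classical
  induction P using Finset.induction with
  | empty =>
    intro K
    rcases Nat.eq_zero_or_pos K with h | h
    · subst h
      simp
    · rw [powersetCard_eq_empty.2 (by simpa using h)]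
      simp only [sum_empty]
      positivity
  | insert a P ha ih =>
    intro K
    rcases Nat.eq_zero_or_pos K with h | h
    · subst h
      simp
    · obtain ⟨k, rfl⟩ : ∃ k, K = k + 1 := ⟨K - 1, by omega⟩
      rw [powersetCard_succ_insert ha, sum_union, sum_image, sum_insert ha]
      · have h1 : ∑ T ∈ P.powersetCard k, ∏ b ∈ insert a T, x b =
            x a * ∑ T ∈ P.powersetCard k, ∏ b ∈ T, x b := by
          rw [mul_sum]
          refine sum_congr rfl fun T hT => ?_
          rw [prod_insert (fun h => ha ((mem_powersetCard.1 hT).1 h))]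
        rw [h1]
        set S : ℝ := ∑ b ∈ P, x b with hS
        have hS0 : 0 ≤ S := sum_nonneg fun b _ => hx b
        have h2 := ih (k + 1)
        have h3 := mul_le_mul_of_nonneg_left (ih k) (hx a)
        have h4 : S ^ k ≤ (x a + S) ^ k := pow_le_pow_left₀ hS0 (by linarith [hx a]) k
        calc ∑ T ∈ P.powersetCard (k + 1), ∏ b ∈ T, x b +
              x a * ∑ T ∈ P.powersetCard k, ∏ b ∈ T, x b
            ≤ S ^ (k + 1) + x a * S ^ k := add_le_add h2 h3
          _ = (x a + S) * S ^ k := by ring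
          _ ≤ (x a + S) * (x a + S) ^ k :=
              mul_le_mul_of_nonneg_left h4 (by linarith [hx a])
          _ = (x a + S) ^ (k + 1) := by ring
      · intro T hT T' hT' hTT
        rw [mem_coe, mem_powersetCard] at hT hT'
        have h5 : T = (insert a T).erase a := (erase_insert fun h => ha (hT.1 h)).symm
        have h6 : T' = (insert a T').erase a := (erase_insert fun h => ha (hT'.1 h)).symm
        rw [h5, h6]
        rw [hTT]
      · rw [disjoint_left]
        intro T hT hT'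
        obtain ⟨T', _, rfl⟩ := mem_image.1 hT'
        exact ha ((mem_powersetCard.1 hT).1 (mem_insert_self a T'))

/-- the representation function and the number of pairs -/
theorem rep_le_pairs (B : Set ℕ) (s : ℕ) (k : ℕ)
    (h : ∀ T : Finset ℕ, (∀ a ∈ T, 2 * a < s ∧ a ∈ B ∧ s - a ∈ B) → T.card < k) :
    rep B s ≤ 2 * k := by
  classical
  set T : Finset ℕ := (range (s + 1)).filter fun a => 2 * a < s ∧ a ∈ B ∧ s - a ∈ B with hT
  have h1 : T.card < k := h T fun a ha => (mem_filter.1 ha).2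
  set P : Finset (ℕ × ℕ) := (T.image (fun a => (a, s - a)) ∪
    T.image (fun a => (s - a, a))) ∪ {(s / 2, s - s / 2)} with hP
  have h8 : P.card ≤ 2 * T.card + 1 := by
    rw [hP]
    refine (card_union_le _ _).trans ?_
    rw [card_singleton]
    have h9 := card_union_le (T.image (fun a => (a, s - a))) (T.image (fun a => (s - a, a)))
    have h10 := card_image_le (s := T) (f := fun a => (a, s - a))
    have h11 := card_image_le (s := T) (f := fun a => (s - a, a))
    omega
  have h12 : rep B s ≤ P.card := by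
    rw [← Set.ncard_coe_finset P]
    refine Set.ncard_le_ncard ?_ (Finset.finite_toSet P)
    rintro ⟨a, b⟩ ⟨h9, h10, h11⟩
    simp only at h9 h10 h11
    rw [mem_coe, hP, mem_union, mem_union, mem_image, mem_image, mem_singleton]
    rcases lt_trichotomy (2 * a) s with h | h | h
    · left; left
      refine ⟨a, ?_, ?_⟩
      · rw [hT, mem_filter, mem_range]
        refine ⟨by omega, h, h9, ?_⟩
        have : s - a = b := by omega
        rw [this]
        exact h10
      · rw [Prod.mk.injEq]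
        exact ⟨rfl, by omega⟩
    · right
      rw [Prod.mk.injEq]
      exact ⟨by omega, by omega⟩
    · left; right
      refine ⟨b, ?_, ?_⟩
      · rw [hT, mem_filter, mem_range]
        refine ⟨by omega, by omega, h10, ?_⟩
        have : s - b = a := by omega
        rw [this]
        exact h9
      · rw [Prod.mk.injEq]
        exact ⟨by omega, rfl⟩
  omega

theorem rep_le_succ (B : Set ℕ) (s : ℕ) : rep B s ≤ s + 1 := by
  have h1 : rep B s ≤ (antidiagonal s).card := by
    rw [← Set.ncard_coe_finset]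
    refine Set.ncard_le_ncard ?_ (Finset.finite_toSet _)
    rintro x ⟨_, _, h⟩
    exact mem_coe.2 (mem_antidiagonal.2 h)
  rwa [Nat.card_antidiagonal] at h1

theorem sum_inv_sqrt (M : ℕ) : ∑ a ∈ Icc 1 M, (a : ℝ) ^ (-(1 / 2 : ℝ)) ≤ 2 * Real.sqrt M := by
  induction M with
  | zero => simp
  | succ M ih =>
    rw [Finset.sum_Icc_succ_top (by omega)]
    have h0 : (0 : ℝ) < (M : ℝ) + 1 := by positivity
    have hs : 0 < Real.sqrt ((M : ℝ) + 1) := Real.sqrt_pos.2 h0
    have h1 : (((M + 1 : ℕ) : ℝ)) ^ (-(1 / 2 : ℝ)) = 1 / Real.sqrt ((M : ℝ) + 1) := by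
      push_cast
      rw [Real.rpow_neg h0.le, Real.sqrt_eq_rpow]
      exact (one_div _).symm
    rw [h1]
    push_cast
    have h2 : Real.sqrt M * Real.sqrt M = M := Real.mul_self_sqrt (Nat.cast_nonneg M)
    have h3 : Real.sqrt ((M : ℝ) + 1) * Real.sqrt ((M : ℝ) + 1) = M + 1 :=
      Real.mul_self_sqrt h0.le
    have h4 : 1 / Real.sqrt ((M : ℝ) + 1) ≤
        2 * (Real.sqrt ((M : ℝ) + 1) - Real.sqrt M) := by
      rw [div_le_iff₀ hs]
      nlinarith [sq_nonneg (Real.sqrt ((M : ℝ) + 1) - Real.sqrt M)]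
    linarith

/-- the membership probabilities -/
noncomputable def pw (η : ℝ) (n : ℕ) : ℝ := (n : ℝ) ^ (-(1 / 2 + η))

theorem pw_nonneg (η : ℝ) (n : ℕ) : 0 ≤ pw η n := by
  unfold pw
  positivity

theorem pw_le_one {η : ℝ} (hη : 0 < η) (n : ℕ) : pw η n ≤ 1 := by
  unfold pw
  rcases Nat.eq_zero_or_pos n with h | h
  · subst h
    rw [Nat.cast_zero, Real.zero_rpow (by linarith)]
    exact zero_le_one
  · exact Real.rpow_le_one_of_one_le_of_nonpos (by exact_mod_cast h) (by linarith)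

theorem mean_le {η : ℝ} (hη : 0 < η) {s : ℕ} (hs : 2 ≤ s) :
    ∑ a ∈ pairs (range (s + 1)) s, pw η a * pw η (s - a) ≤ 2 * ((s : ℝ) / 2) ^ (-η) := by
  classical
  have hs0 : (0 : ℝ) < (s : ℝ) / 2 := by
    have : (2 : ℝ) ≤ s := by exact_mod_cast hs
    linarith
  have h1 : ∀ a ∈ pairs (range (s + 1)) s, pw η a * pw η (s - a) ≤
      (if 1 ≤ a then (a : ℝ) ^ (-(1 / 2 : ℝ)) else 0) * ((s : ℝ) / 2) ^ (-(1 / 2 + η)) := by
    intro a ha
    obtain ⟨_, h2, _⟩ := mem_pairs.1 ha
    have h3 : pw η (s - a) ≤ ((s : ℝ) / 2) ^ (-(1 / 2 + η)) := by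
      unfold pw
      refine Real.rpow_le_rpow_of_nonpos hs0 ?_ (by linarith)
      rw [Nat.cast_sub (by omega)]
      have : (2 : ℝ) * a < s := by exact_mod_cast h2
      linarith
    by_cases h4 : 1 ≤ a
    · rw [if_pos h4]
      refine mul_le_mul ?_ h3 (pw_nonneg _ _) (by positivity)
      unfold pw
      exact Real.rpow_le_rpow_of_exponent_le (by exact_mod_cast h4) (by linarith)
    · have h5 : a = 0 := by omega
      subst h5
      unfold pw
      rw [Nat.cast_zero, Real.zero_rpow (by linarith)]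
      simp
  refine (sum_le_sum h1).trans ?_
  rw [← sum_mul]
  have h6 : ∑ a ∈ pairs (range (s + 1)) s, (if 1 ≤ a then (a : ℝ) ^ (-(1 / 2 : ℝ)) else 0) ≤
      ∑ a ∈ Icc 1 (s / 2), (a : ℝ) ^ (-(1 / 2 : ℝ)) := by
    rw [← sum_filter]
    refine sum_le_sum_of_subset_of_nonneg ?_ fun _ _ _ => by positivity
    intro a ha
    rw [mem_filter] at ha
    obtain ⟨_, h2, _⟩ := mem_pairs.1 ha.1
    rw [mem_Icc]
    omega
  have h7 : Real.sqrt ((s / 2 : ℕ) : ℝ) ≤ ((s : ℝ) / 2) ^ (1 / 2 : ℝ) := by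
    rw [← Real.sqrt_eq_rpow]
    refine Real.sqrt_le_sqrt ?_
    exact Nat.cast_div_le
  calc (∑ a ∈ pairs (range (s + 1)) s, (if 1 ≤ a then (a : ℝ) ^ (-(1 / 2 : ℝ)) else 0)) *
        ((s : ℝ) / 2) ^ (-(1 / 2 + η))
      ≤ (2 * ((s : ℝ) / 2) ^ (1 / 2 : ℝ)) * ((s : ℝ) / 2) ^ (-(1 / 2 + η)) := by
        refine mul_le_mul_of_nonneg_right ?_ (by positivity)
        exact (h6.trans (sum_inv_sqrt _)).trans (mul_le_mul_of_nonneg_left h7 (by norm_num))
    _ = 2 * ((s : ℝ) / 2) ^ (-η) := by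
        rw [mul_assoc, ← Real.rpow_add hs0]
        congr 2
        ring

theorem ae_bounded {Ω : Type*} [MeasurableSpace Ω] {μ : Measure Ω} [IsProbabilityMeasure μ]
    {E : ℕ → Set Ω} (hE : ∀ k, KW μ E k) {η : ℝ} (hη : 0 < η)
    (hp : ∀ n, μ.real (E n) = pw η n) :
    ∀ᵐ ω ∂μ, ∃ R, ∀ s, rep (rset E ω) s ≤ R := by
  classical
  obtain ⟨K, hK⟩ := exists_nat_gt (2 / η)
  have hK2 : 2 ≤ η * K := by
    rw [div_lt_iff₀ hη] at hK
    linarith
  set G : ℕ → Set Ω := fun s => ⋃ T ∈ (pairs (range (s + 1)) s).powersetCard K,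
    ⋂ v ∈ vx s T, E v with hG
  have hle : ∀ s, 2 ≤ s → μ.real (G s) ≤ 2 ^ K * 2 ^ (η * K) * (1 / (s : ℝ) ^ 2) := by
    intro s hs
    have hs0 : (0 : ℝ) < s := by exact_mod_cast (by omega : 0 < s)
    have hs1 : (1 : ℝ) ≤ s := by exact_mod_cast (by omega : 1 ≤ s)
    have h1 : μ.real (G s) ≤ ∑ T ∈ (pairs (range (s + 1)) s).powersetCard K,
        ∏ a ∈ T, (pw η a * pw η (s - a)) := by
      refine (measureReal_biUnion_finset_le _ _).trans (sum_le_sum fun T hT => le_of_eq ?_)
      obtain ⟨h2, h3⟩ := mem_powersetCard.1 hT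
      rw [(hE (vx s T).card).2 _ le_rfl]
      simp only [hp]
      unfold vx
      rw [prod_union, prod_image, ← prod_mul_distrib]
      · intro a ha b hb hab
        have h4 := (mem_pairs.1 (h2 ha)).2.1
        have h5 := (mem_pairs.1 (h2 hb)).2.1
        simp only at hab
        omega
      · rw [disjoint_left]
        intro x hx hx2
        obtain ⟨a, ha, h⟩ := mem_image.1 hx2
        have h4 := (mem_pairs.1 (h2 ha)).2.1
        have h5 := (mem_pairs.1 (h2 hx)).2.1
        omega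
    refine h1.trans ((esymm_le _ (fun a => mul_nonneg (pw_nonneg _ _) (pw_nonneg _ _)) _ K).trans ?_)
    calc (∑ a ∈ pairs (range (s + 1)) s, pw η a * pw η (s - a)) ^ K
        ≤ (2 * ((s : ℝ) / 2) ^ (-η)) ^ K :=
          pow_le_pow_left₀ (sum_nonneg fun a _ => mul_nonneg (pw_nonneg _ _) (pw_nonneg _ _))
            (mean_le hη hs) K
      _ = 2 ^ K * 2 ^ (η * K) * (s : ℝ) ^ (-(η * K)) := by
          rw [mul_pow, ← Real.rpow_natCast (((s : ℝ) / 2) ^ (-η)), ← Real.rpow_mul (by positivity),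
            Real.div_rpow hs0.le (by norm_num), mul_assoc]
          congr 1
          rw [neg_mul, Real.rpow_neg (by norm_num : (0 : ℝ) ≤ 2)]
          have : (2 : ℝ) ^ (η * K) ≠ 0 := (Real.rpow_pos_of_pos (by norm_num) _).ne'
          field_simp
      _ ≤ 2 ^ K * 2 ^ (η * K) * (1 / (s : ℝ) ^ 2) := by
          refine mul_le_mul_of_nonneg_left ?_ (by positivity)
          have h2 : (1 / (s : ℝ) ^ 2) = (s : ℝ) ^ (-(2 : ℝ)) := by
            rw [Real.rpow_neg hs0.le, one_div]
            norm_num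
          rw [h2]
          exact Real.rpow_le_rpow_of_exponent_le hs1 (by linarith)
  set G' : ℕ → Set Ω := fun s => if 2 ≤ s then G s else ∅ with hG'
  have hfin : ∑' s, μ (G' s) ≠ ⊤ := by
    have h1 : Summable fun s : ℕ => (2 : ℝ) ^ K * 2 ^ (η * K) * (1 / (s : ℝ) ^ 2) :=
      (Real.summable_one_div_nat_pow.2 (by norm_num)).mul_left _
    refine ne_top_of_le_ne_top h1.tsum_ofReal_ne_top (ENNReal.tsum_le_tsum fun s => ?_)
    rw [hG']
    simp only
    split_ifs with h
    · rw [ENNReal.le_ofReal_iff_toReal_le (measure_ne_top _ _) (by positivity)]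
      exact hle s h
    · simp
  filter_upwards [ae_eventually_notMem hfin] with ω hω
  obtain ⟨s₀, hs₀⟩ := eventually_atTop.1 hω
  refine ⟨max (2 * K) (s₀ + 2), fun s => ?_⟩
  by_cases hs : s₀ + 2 ≤ s
  · refine le_trans (rep_le_pairs _ s K fun T hT => ?_) (le_max_left _ _)
    by_contra hcard
    push Not at hcard
    obtain ⟨T', hT'1, hT'2⟩ := exists_subset_card_eq hcard
    refine hs₀ s (by omega) ?_
    rw [hG']
    simp only
    rw [if_pos (by omega), hG, Set.mem_iUnion₂]
    refine ⟨T', ?_, ?_⟩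
    · rw [mem_powersetCard]
      refine ⟨fun a ha => ?_, hT'2⟩
      have := (hT a (hT'1 ha)).1
      rw [mem_pairs, mem_range, mem_range]
      omega
    · rw [Set.mem_iInter₂]
      intro v hv
      rcases mem_vx.1 hv with h | ⟨a, ha, rfl⟩
      · exact (hT v (hT'1 h)).2.1
      · exact (hT a (hT'1 ha)).2.2
  · refine le_trans (rep_le_succ _ s) (le_trans ?_ (le_max_right _ _))
    omega

theorem mean_ge {η : ℝ} (hη : 0 < η) {N : ℕ} (hN : 1 ≤ N) :
    (N : ℝ) ^ (1 / 2 - η) ≤ ∑ n ∈ Icc 1 N, pw η n := by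
  have hN0 : (0 : ℝ) < N := by exact_mod_cast hN
  calc (N : ℝ) ^ (1 / 2 - η) = N * (N : ℝ) ^ (-(1 / 2 + η)) := by
        nth_rewrite 2 [← Real.rpow_one (N : ℝ)]
        rw [← Real.rpow_add hN0]
        congr 1
        ring
    _ = ∑ _n ∈ Icc 1 N, (N : ℝ) ^ (-(1 / 2 + η)) := by
        rw [sum_const, Nat.card_Icc, nsmul_eq_mul]
        simp
    _ ≤ ∑ n ∈ Icc 1 N, pw η n := by
        refine sum_le_sum fun n hn => ?_
        obtain ⟨h1, h2⟩ := mem_Icc.1 hn
        unfold pw
        exact Real.rpow_le_rpow_of_nonpos (by exact_mod_cast h1) (by exact_mod_cast h2)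
          (by linarith)

theorem ae_count_ge {Ω : Type*} [MeasurableSpace Ω] {μ : Measure Ω} [IsProbabilityMeasure μ]
    {E : ℕ → Set Ω} (hE : ∀ k, KW μ E k) {η : ℝ} (hη : 0 < η) (hη2 : η < 1 / 2)
    (hp : ∀ n, μ.real (E n) = pw η n) :
    ∀ᵐ ω ∂μ, ∀ᶠ N : ℕ in atTop, (N : ℝ) ^ (1 / 2 - η) ≤ 4 * count (rset E ω) N := by
  classical
  set b : ℝ := 1 / 2 - η with hb
  have hb0 : 0 < b := by linarith
  set m : ℕ → ℝ := fun N => ∑ n ∈ Icc 1 N, pw η n with hm
  set S : ℕ → Set Ω := fun j =>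
    {ω | (cnt E (Icc 1 (2 ^ j)) (fun n => ({n} : Finset ℕ)) ω : ℝ) ≤ m (2 ^ j) / 2} with hS
  have hmj : ∀ j, ((2 : ℝ) ^ b) ^ j ≤ m (2 ^ j) := by
    intro j
    have h1 := mean_ge hη (Nat.one_le_two_pow (n := j))
    refine le_trans (le_of_eq ?_) h1
    push_cast
    rw [← Real.rpow_natCast, ← Real.rpow_natCast, ← Real.rpow_mul (by norm_num),
      ← Real.rpow_mul (by norm_num)]
    congr 1
    ring
  have hr1 : 1 < (2 : ℝ) ^ b := Real.one_lt_rpow (by norm_num) hb0
  have hle : ∀ j, μ.real (S j) ≤ 4 * (((2 : ℝ) ^ b)⁻¹) ^ j := by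
    intro j
    have hmpos : 0 < m (2 ^ j) := lt_of_lt_of_le (by positivity) (hmj j)
    have hsum : ∑ i ∈ Icc 1 (2 ^ j), ∏ v ∈ ({i} : Finset ℕ), μ.real (E v) = m (2 ^ j) := by
      rw [hm]
      refine sum_congr rfl fun i _ => ?_
      rw [prod_singleton, hp]
    have h1 := chebyshev (hE (2 * 1)) (Icc 1 (2 ^ j)) (fun n => ({n} : Finset ℕ))
      (fun i _ => by simp) 1 (fun i hi => ?_) (m (2 ^ j) / 2) (by rw [hsum]; linarith)
    · rw [hsum] at h1
      have h2 : μ.real (S j) * m (2 ^ j) ≤ 4 := by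
        have h3 : μ.real (S j) * (m (2 ^ j) / 2) ^ 2 ≤ m (2 ^ j) := by
          refine le_trans (le_of_eq ?_) (h1.trans_eq (one_mul _))
          rw [hS]
          congr 1
          ring
        have h4 : (μ.real (S j) * m (2 ^ j)) * m (2 ^ j) ≤ 4 * m (2 ^ j) := by nlinarith
        exact le_of_mul_le_mul_right h4 hmpos
      have h5 : μ.real (S j) ≤ 4 / m (2 ^ j) := by
        rw [le_div_iff₀ hmpos]
        exact h2
      refine h5.trans ?_
      rw [inv_pow, ← div_eq_mul_inv]
      exact div_le_div_of_nonneg_left (by norm_num) (by positivity) (hmj j)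
    · rw [hsum]
      have h3 : ∀ i' ∈ Icc 1 (2 ^ j), ∏ v ∈ ({i'} : Finset ℕ) \ {i}, μ.real (E v) ≤
          pw η i' + if i' = i then 1 else 0 := by
        intro i' _
        by_cases h : i' = i
        · subst h
          have h4 : ({i'} : Finset ℕ) \ {i'} = ∅ := Finset.sdiff_self _
          rw [h4, prod_empty, if_pos rfl]
          linarith [pw_nonneg η i']
        · have h4 : ({i'} : Finset ℕ) \ {i} = {i'} := by
            rw [sdiff_eq_self_of_disjoint]
            rw [disjoint_singleton]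
            exact h
          rw [h4, prod_singleton, hp, if_neg h, add_zero]
      refine (sum_le_sum h3).trans ?_
      rw [sum_add_distrib, sum_ite_eq' (Icc 1 (2 ^ j)) i, if_pos hi]
  have hfin : ∑' j, μ (S j) ≠ ⊤ := by
    have h1 : Summable fun j : ℕ => 4 * (((2 : ℝ) ^ b)⁻¹) ^ j :=
      (summable_geometric_of_lt_one (by positivity) (inv_lt_one_of_one_lt₀ hr1)).mul_left 4
    refine ne_top_of_le_ne_top h1.tsum_ofReal_ne_top (ENNReal.tsum_le_tsum fun j => ?_)
    rw [ENNReal.le_ofReal_iff_toReal_le (measure_ne_top _ _) (by positivity)]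
    exact hle j
  filter_upwards [ae_eventually_notMem hfin] with ω hω
  obtain ⟨j₀, hj₀⟩ := eventually_atTop.1 hω
  filter_upwards [eventually_ge_atTop (2 ^ j₀)] with N hN
  have hN1 : 1 ≤ N := le_trans Nat.one_le_two_pow hN
  have hN0 : (0 : ℝ) < N := by exact_mod_cast hN1
  set j : ℕ := Nat.log 2 N with hj
  have h1 : 2 ^ j ≤ N := Nat.pow_log_le_self 2 (by omega)
  have h2 : N < 2 ^ (j + 1) := Nat.lt_pow_succ_log_self (by norm_num) N
  have h3 : j₀ ≤ j := by
    by_contra h
    push Not at h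
    have : 2 ^ (j + 1) ≤ 2 ^ j₀ := Nat.pow_le_pow_right (by norm_num) h
    omega
  have h4 := hj₀ j h3
  rw [hS] at h4
  have h5 : m (2 ^ j) / 2 < (cnt E (Icc 1 (2 ^ j)) (fun n => ({n} : Finset ℕ)) ω : ℝ) := by
    by_contra h
    push Not at h
    exact h4 h
  have h6 : cnt E (Icc 1 (2 ^ j)) (fun n => ({n} : Finset ℕ)) ω ≤ (seg (rset E ω) N).card := by
    unfold cnt seg
    refine card_le_card fun n hn => ?_
    rw [mem_filter, mem_Icc] at hn ⊢
    refine ⟨⟨hn.1.1, by omega⟩, ?_⟩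
    exact hn.2 n (mem_singleton_self n)
  have h7 : (cnt E (Icc 1 (2 ^ j)) (fun n => ({n} : Finset ℕ)) ω : ℝ) ≤
      count (rset E ω) N := by
    rw [count_eq]
    exact_mod_cast h6
  have h8 : (N : ℝ) ^ b ≤ 2 * ((2 : ℝ) ^ b) ^ j := by
    have h9 : (N : ℝ) ≤ 2 ^ (j + 1) := by exact_mod_cast h2.le
    calc (N : ℝ) ^ b ≤ ((2 : ℝ) ^ (j + 1)) ^ b := Real.rpow_le_rpow hN0.le h9 hb0.le
      _ = ((2 : ℝ) ^ b) ^ (j + 1) := by
          rw [← Real.rpow_natCast, ← Real.rpow_natCast, ← Real.rpow_mul (by norm_num),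
            ← Real.rpow_mul (by norm_num)]
          congr 1
          ring
      _ = (2 : ℝ) ^ b * ((2 : ℝ) ^ b) ^ j := by rw [pow_succ]; ring
      _ ≤ 2 * ((2 : ℝ) ^ b) ^ j := by
          refine mul_le_mul_of_nonneg_right ?_ (by positivity)
          calc (2 : ℝ) ^ b ≤ 2 ^ (1 : ℝ) :=
                Real.rpow_le_rpow_of_exponent_le (by norm_num) (by linarith)
            _ = 2 := Real.rpow_one 2
  have h10 := hmj j
  linarith

end Pool.Agent.Y940.CT
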